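import Pool.Agent.J4.H26.Ew.Main4

/-!
All degrees in one statement.
-/

set_option autoImplicit false
set_option linter.unusedSectionVars false

namespace Pool.Agent.J4.H26.Ew

open Finset Pool.Agent.Y2 Pool.Agent.J4.H26.Od Pool.Agent.J4.H26.Ev
open Pool.Agent.H916R2 hiding LL

/-- The even one of the degrees `m` and `2 * m`. -/
def evenDegree (m : ℕ) : ℕ := if 2 ∣ m then m else 2 * m

/-- Multiplication by one (if `m` is even) or two (if `m` is odd), from the degree `m` to the degree
`evenDegree m`. -/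
def raise (m : ℕ) (a : ZMod m) : ZMod (evenDegree m) :=
  (((evenDegree m / m) * a.val : ℕ) : ZMod (evenDegree m))

/-- The condition on the degree: two different odd primes `p < q` which divide `m`, such that
`q ≤ K + 1`, or `p = 3` and `q ≤ 2 * K + 1`, or `m` is even and `p = 3`, `q ≤ 4 * K + 1`, or `m` is even
and `p = 5`, `q ≤ 2 * K + 1`, have a product in `{15, 21, 33, 35, 39, 51, 57}`; and if `4` divides `m` then
`105` does not divide `m` and the prime factors of `m` which are at most `2 * K + 1` are in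
`{2, 3, 5, 7, 11, 13}`. -/
def PairsKnown (K m : ℕ) : Prop :=
  (∀ p q : ℕ, p.Prime → q.Prime → 3 ≤ p → p < q → p * q ∣ m →
    (q ≤ K + 1 ∨ p = 3 ∧ q ≤ 2 * K + 1 ∨ 2 ∣ m ∧ p = 3 ∧ q ≤ 4 * K + 1 ∨
      2 ∣ m ∧ p = 5 ∧ q ≤ 2 * K + 1) →
    p * q ∈ ({15, 21, 33, 35, 39, 51, 57} : Finset ℕ)) ∧
  (4 ∣ m → ¬ 105 ∣ m ∧ ∀ q : ℕ, q.Prime → q ∣ m → q ≤ 2 * K + 1 →
    q ∈ ({2, 3, 5, 7, 11, 13} : Finset ℕ))

/-- at most five entries -/
lemma small_generated {m : ℕ} {s : Multiset (ZMod m)} (hs : IsHodge m s)
    (hcard : Multiset.card s ≤ 5) (hne : s ≠ 0) :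
    Generated m (Cv.SurfaceOrCurveProduct m) s := by
  obtain ⟨h0, hev, hsum, ht⟩ := hs
  have hpos : 0 < Multiset.card s := Multiset.card_pos.mpr hne
  obtain ⟨k, hk⟩ := hev
  have h24 : Multiset.card s = 2 ∨ Multiset.card s = 4 := by omega
  rcases h24 with h2 | h4
  · obtain ⟨a, b, rfl⟩ := Multiset.card_eq_two.mp h2
    have hab : a + b = 0 := by simpa using hsum
    have hb : b = -a := (neg_eq_of_add_eq_zero_right hab).symm
    subst hb
    refine Generated.pair a ?_
    rintro rfl
    exact h0 (by simp)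
  · exact Generated.ofBase s (Or.inl ⟨⟨h0, ⟨k, hk⟩, hsum, ht⟩, h4⟩)

/-- **All degrees.** -/
theorem all {K m : ℕ} (hm : m ≠ 0) (hC : PairsKnown K m) (s : Multiset (ZMod m))
    (hs : IsHodge m s) (hne : s ≠ 0) (hcard : Multiset.card s ≤ K) :
    Generated (evenDegree m) (Cv.SurfaceOrCurveProduct (evenDegree m)) (s.map (raise m)) := by
  have hN : NeZero m := ⟨hm⟩
  by_cases h2 : 2 ∣ m
  · have key : Generated m (Cv.SurfaceOrCurveProduct m) s := by
      by_cases hK : 6 ≤ K
      · refine main hK h2 hm ⟨?_, hC.2⟩ s hs hcard hne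
        intro p q hp hq hp3 hpq hdv hc
        refine hC.1 p q hp hq hp3 hpq hdv ?_
        rcases hc with h | h | h
        · exact Or.inl h
        · exact Or.inr (Or.inr (Or.inr ⟨h2, h⟩))
        · exact Or.inr (Or.inr (Or.inl ⟨h2, h⟩))
      · exact small_generated hs (by omega) hne
    have hgen : ∀ M : ℕ, M = m → Generated M (Cv.SurfaceOrCurveProduct M)
        (s.map fun a => (((M / m) * a.val : ℕ) : ZMod M)) := by
      rintro M rfl
      have e : (s.map fun a : ZMod M => (((M / M) * a.val : ℕ) : ZMod M)) = s := by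
        rw [Nat.div_self (Nat.pos_of_ne_zero hm)]
        conv_rhs => rw [← Multiset.map_id s]
        apply Multiset.map_congr rfl
        intro a _
        rw [one_mul, ZMod.natCast_zmod_val]
        rfl
      rw [e]
      exact key
    exact hgen _ (by unfold evenDegree; rw [if_pos h2])
  · have hodd : m % 2 = 1 := by omega
    have hCo : Cond K m := by
      intro p q hp hq hpq hdv hc
      have hp2 : p ≠ 2 := by
        rintro rfl
        exact h2 ((Dvd.intro _ rfl).trans hdv)
      have hp3 : 3 ≤ p := by have := hp.two_le; omega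
      refine hC.1 p q hp hq hp3 hpq hdv ?_
      rcases hc with h | h
      · exact Or.inl h
      · exact Or.inr (Or.inl h)
    have key := Od.main hodd hCo s hs hcard hne
    have hgen : ∀ M : ℕ, M = 2 * m → Generated M (Cv.SurfaceOrCurveProduct M)
        (s.map fun a => (((M / m) * a.val : ℕ) : ZMod M)) := by
      rintro M rfl
      rw [Nat.mul_div_cancel _ (Nat.pos_of_ne_zero hm)]
      exact key
    exact hgen _ (by unfold evenDegree; rw [if_neg h2])

/-- the condition for eight entries -/
lemma pairsKnown_eight {m : ℕ} : PairsKnown 8 m ↔ m % 2 = 1 ∨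
    ∀ n ∈ ({68, 110, 130, 138, 170, 174, 186, 420} : Finset ℕ), ¬ n ∣ m := by
  constructor
  · rintro ⟨h1, h2⟩
    by_cases hodd : m % 2 = 1
    · exact Or.inl hodd
    right
    have h2m : 2 ∣ m := by omega
    intro n hn hnm
    have aux : ∀ p q : ℕ, p.Prime → q.Prime → 3 ≤ p → p < q → p * q ∣ m →
        (2 ∣ m ∧ p = 3 ∧ q ≤ 4 * 8 + 1 ∨ 2 ∣ m ∧ p = 5 ∧ q ≤ 2 * 8 + 1) →
        p * q ∈ ({15, 21, 33, 35, 39, 51, 57} : Finset ℕ) := fun p q hp hq hp3 hpq hdv hc =>
      h1 p q hp hq hp3 hpq hdv (Or.inr (Or.inr hc))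
    simp only [mem_insert, mem_singleton] at hn
    rcases hn with rfl | rfl | rfl | rfl | rfl | rfl | rfl | rfl
    · have := (h2 (by omega)).2 17 (by norm_num) (by omega) (by norm_num)
      revert this; decide
    · have := aux 5 11 (by norm_num) (by norm_num) (by norm_num) (by norm_num) (by omega)
        (Or.inr ⟨h2m, rfl, by norm_num⟩)
      revert this; decide
    · have := aux 5 13 (by norm_num) (by norm_num) (by norm_num) (by norm_num) (by omega)
        (Or.inr ⟨h2m, rfl, by norm_num⟩)
      revert this; decide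
    · have := aux 3 23 (by norm_num) (by norm_num) (by norm_num) (by norm_num) (by omega)
        (Or.inl ⟨h2m, rfl, by norm_num⟩)
      revert this; decide
    · have := aux 5 17 (by norm_num) (by norm_num) (by norm_num) (by norm_num) (by omega)
        (Or.inr ⟨h2m, rfl, by norm_num⟩)
      revert this; decide
    · have := aux 3 29 (by norm_num) (by norm_num) (by norm_num) (by norm_num) (by omega)
        (Or.inl ⟨h2m, rfl, by norm_num⟩)
      revert this; decide
    · have := aux 3 31 (by norm_num) (by norm_num) (by norm_num) (by norm_num) (by omega)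
        (Or.inl ⟨h2m, rfl, by norm_num⟩)
      revert this; decide
    · exact (h2 (by omega)).1 (by omega)
  · rintro (hodd | h)
    · refine ⟨fun p q hp hq _ hpq hdv hc => cond_eight hodd p q hp hq hpq hdv ?_,
        fun h4 => by omega⟩
      omega
    · by_cases h2 : 2 ∣ m
      · obtain ⟨h1, h3⟩ := condE_eight h2 h
        refine ⟨fun p q hp hq hp3 hpq hdv hc => h1 p q hp hq hp3 hpq hdv ?_, h3⟩
        omega
      · have hodd : m % 2 = 1 := by omega
        refine ⟨fun p q hp hq _ hpq hdv hc => cond_eight hodd p q hp hq hpq hdv ?_,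
          fun h4 => by omega⟩
        omega

end Pool.Agent.J4.H26.Ew
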