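import Pool.Agent.J4.H26.Ev.Up

/-!
Extension of rational distributions to higher levels, with a bound for signed sums over multipliers.
-/

set_option autoImplicit false

namespace Pool.Agent.J4.H26.Ew

open Finset Pool.Agent.H916R2 Pool.Agent.Y2 Pool.Agent.J4.H26.Od

/-- the signed sum over the multipliers -/
def GI (I I' : Multiset ℕ) (C : ℕ → ℚ) (x : ℕ) : ℚ :=
  (I.map fun κ => C (κ * x)).sum - (I'.map fun κ => C (κ * x)).sum

section

variable {q M r s : ℕ} {C : ℕ → ℚ} {I I' : Multiset ℕ}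

lemma msum_up1_of_dvd (hr : 0 < r) {x : ℕ} (h : r ∣ x) (I : Multiset ℕ) :
    (I.map fun κ => up1 r M s C (κ * x)).sum = (I.map fun κ => C (κ * (x / r))).sum := by
  congr 1
  apply Multiset.map_congr rfl
  intro κ _
  obtain ⟨a, rfl⟩ := h
  rw [Nat.mul_div_cancel_left _ hr, show κ * (r * a) = r * (κ * a) by ring, up1_mul hr]

lemma msum_up1_of_dvd_level {x : ℕ} (h : ∀ κ ∈ I, ¬ r ∣ κ * x) (hrM : r ∣ M) :
    (I.map fun κ => up1 r M s C (κ * x)).sum = (1 / r) * (I.map fun κ => C (κ * x)).sum := by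
  rw [← Multiset.sum_map_mul_left]
  congr 1
  apply Multiset.map_congr rfl
  intro κ hκ
  rw [up1, if_neg (h κ hκ), if_pos hrM]
  ring

lemma msum_up1 {x : ℕ} (h : ∀ κ ∈ I, ¬ r ∣ κ * x) (hrM : ¬ r ∣ M) :
    (I.map fun κ => up1 r M s C (κ * x)).sum =
      (1 / ((r : ℚ) - 1)) * ((I.map fun κ => C (κ * x)).sum - (I.map fun κ => C (κ * (s * x))).sum) := by
  rw [mul_sub, ← Multiset.sum_map_mul_left, ← Multiset.sum_map_mul_left, ← Multiset.sum_map_sub]
  congr 1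
  apply Multiset.map_congr rfl
  intro κ hκ
  rw [up1, if_neg (h κ hκ), if_neg hrM, show s * (κ * x) = κ * (s * x) by ring]
  ring

lemma GI_up1_of_dvd (hr : 0 < r) {x : ℕ} (h : r ∣ x) :
    GI I I' (up1 r M s C) x = GI I I' C (x / r) := by
  unfold GI
  rw [msum_up1_of_dvd hr h, msum_up1_of_dvd hr h]

lemma GI_up1_of_dvd_level {x : ℕ} (h : ∀ κ ∈ I, ¬ r ∣ κ * x) (h' : ∀ κ ∈ I', ¬ r ∣ κ * x)
    (hrM : r ∣ M) : GI I I' (up1 r M s C) x = (1 / r) * GI I I' C x := by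
  unfold GI
  rw [msum_up1_of_dvd_level h hrM, msum_up1_of_dvd_level h' hrM]
  ring

lemma GI_up1 {x : ℕ} (h : ∀ κ ∈ I, ¬ r ∣ κ * x) (h' : ∀ κ ∈ I', ¬ r ∣ κ * x) (hrM : ¬ r ∣ M) :
    GI I I' (up1 r M s C) x = (1 / ((r : ℚ) - 1)) * (GI I I' C x - GI I I' C (s * x)) := by
  unfold GI
  rw [msum_up1 h hrM, msum_up1 h' hrM]
  ring

/-- the bound is preserved -/
lemma GI_bound (hr : r.Prime) (hI : ∀ κ ∈ I, ¬ r ∣ κ) (hI' : ∀ κ ∈ I', ¬ r ∣ κ)
    (hcase : r ∣ M ∨ 3 ≤ r ∨ ∀ x, |GI I I' C x - GI I I' C (s * x)| ≤ 1)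
    (hB : ∀ x, |GI I I' C x| ≤ 1) (x : ℕ) : |GI I I' (up1 r M s C) x| ≤ 1 := by
  have hr0 : 0 < r := hr.pos
  have hr2' : (2 : ℚ) ≤ r := by exact_mod_cast hr.two_le
  by_cases h : r ∣ x
  · rw [GI_up1_of_dvd hr0 h]; exact hB _
  · have key : ∀ I : Multiset ℕ, (∀ κ ∈ I, ¬ r ∣ κ) → ∀ κ ∈ I, ¬ r ∣ κ * x := by
      intro I hI κ hκ h2
      rcases (Nat.Prime.dvd_mul hr).mp h2 with h3 | h3
      · exact hI κ hκ h3
      · exact h h3
    by_cases hrM : r ∣ M
    · rw [GI_up1_of_dvd_level (key I hI) (key I' hI') hrM, abs_mul,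
        abs_of_nonneg (by positivity : (0 : ℚ) ≤ 1 / r)]
      have h1 := hB x
      have h2 : (1 : ℚ) / r ≤ 1 := by rw [div_le_one (by linarith)]; linarith
      calc (1 : ℚ) / r * |GI I I' C x| ≤ 1 * 1 :=
            mul_le_mul h2 h1 (abs_nonneg _) zero_le_one
        _ = 1 := one_mul 1
    · rw [GI_up1 (key I hI) (key I' hI') hrM, abs_mul]
      rcases hcase with h0 | h3 | h4
      · exact absurd h0 hrM
      · have hr3 : (3 : ℚ) ≤ r := by exact_mod_cast h3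
        rw [abs_of_nonneg (by apply div_nonneg zero_le_one; linarith : (0 : ℚ) ≤ 1 / ((r : ℚ) - 1))]
        have h5 : |GI I I' C x - GI I I' C (s * x)| ≤ 2 := by
          refine (abs_sub _ _).trans ?_
          have h6 := hB x
          have h7 := hB (s * x)
          linarith
        rw [div_mul_eq_mul_div, one_mul, div_le_iff₀ (by linarith)]
        linarith
      · rw [abs_of_nonneg (by apply div_nonneg zero_le_one; linarith : (0 : ℚ) ≤ 1 / ((r : ℚ) - 1)),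
          div_mul_eq_mul_div, one_mul, div_le_iff₀ (by linarith)]
        have := h4 x
        linarith

end

/-- **Extension** without loss, signed sums. -/
theorem exists_up4' {q : ℕ} (hq : q.Prime) : ∀ k M : ℕ, k ≠ 0 → M ≠ 0 → q ∣ M →
    (∀ r, r.Prime → r ∣ k → r ≠ q ∧ (3 ≤ r ∨ r ∣ M)) → ∀ (C : ℕ → ℚ), TD q M (PO q M) C →
    ∀ (g : ℕ), (∀ x, C x ≠ 0 → Nat.gcd x M ∣ g) →
    ∀ (I I' : Multiset ℕ), (∀ κ ∈ I, Nat.Coprime κ k) → (∀ κ ∈ I', Nat.Coprime κ k) →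
    (∀ x, |GI I I' C x| ≤ 1) →
    ∃ C' : ℕ → ℚ, TD q (k * M) (PO q (k * M)) C' ∧ (∀ x, C' (k * x) = C x) ∧
      (∀ x, C' x ≠ 0 → Nat.gcd x (k * M) ∣ k * g) ∧ (∀ x, |GI I I' C' x| ≤ 1) := by
  intro k
  induction k using Nat.strong_induction_on with
  | _ k ih =>
  intro M hk hM hqM hpr C hC g hg I I' hI hI' hB
  by_cases hk1 : k = 1
  · subst hk1
    refine ⟨C, by rwa [one_mul], fun x => by rw [one_mul], fun x hx => ?_, hB⟩
    rw [one_mul, one_mul]
    exact hg x hx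
  · obtain ⟨r, hr, l, hl⟩ := Nat.exists_prime_and_dvd hk1
    obtain ⟨hrq, hr3⟩ := hpr r hr ⟨l, hl⟩
    have hl0 : l ≠ 0 := by rintro rfl; rw [mul_zero] at hl; exact hk hl
    have hlk : l < k := by
      rw [hl]
      have h1 := hr.two_le
      have : 0 < l := Nat.pos_of_ne_zero hl0
      nlinarith
    obtain ⟨s, hs⟩ : ∃ s, ¬ r ∣ M → r * s ≡ 1 [MOD M] := by
      by_cases h : r ∣ M
      · exact ⟨0, fun h' => absurd h h'⟩
      · obtain ⟨s, _, hs⟩ := Nat.exists_mul_mod_eq_of_coprime 1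
          ((Nat.Prime.coprime_iff_not_dvd hr).mpr h) hM
        exact ⟨s, fun _ => hs⟩
    have hrc : ∀ I : Multiset ℕ, (∀ κ ∈ I, Nat.Coprime κ k) → ∀ κ ∈ I, ¬ r ∣ κ := by
      intro I hI κ hκ h
      have h1 := hI κ hκ
      rw [hl] at h1
      have h2 : Nat.Coprime κ r := Nat.Coprime.coprime_mul_right_right h1
      have h3 : r ∣ Nat.gcd κ r := Nat.dvd_gcd h dvd_rfl
      rw [h2] at h3
      exact hr.one_lt.ne' (Nat.dvd_one.mp h3)
    have hcl : ∀ I : Multiset ℕ, (∀ κ ∈ I, Nat.Coprime κ k) → ∀ κ ∈ I, Nat.Coprime κ l := by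
      intro I hI κ hκ
      have := hI κ hκ
      rw [hl] at this
      exact Nat.Coprime.coprime_mul_left_right this
    obtain ⟨C', h1, h2, h3, h4⟩ := ih l hlk (r * M) hl0 (mul_ne_zero hr.ne_zero hM)
      (hqM.mul_left r) (fun p hp hpl => by
        obtain ⟨h1, h2⟩ := hpr p hp (hl ▸ hpl.mul_left r)
        exact ⟨h1, h2.imp id fun h => h.mul_left r⟩)
      (up1 r M s C) (up1_td hq hr hrq hM hqM hr.two_le hs hC) (r * g)
      (up1_supp hr hs hg) I I' (hcl I hI) (hcl I' hI')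
      (GI_bound hr (hrc I hI) (hrc I' hI') (hr3.elim (fun h => Or.inr (Or.inl h)) Or.inl) hB)
    have e : l * (r * M) = k * M := by rw [hl]; ring
    rw [e] at h1 h3
    refine ⟨C', h1, fun x => ?_, fun x hx => ?_, h4⟩
    · rw [hl, show r * l * x = l * (r * x) by ring, h2, up1_mul hr.pos]
    · have := h3 x hx
      rwa [show l * (r * g) = k * g by rw [hl]; ring] at this

/-- **Extension** with signed sums, the prime two included. -/
theorem exists_up4 {q : ℕ} (hq : q.Prime) (hq2 : q ≠ 2) (k M : ℕ) (hk : k ≠ 0) (hM : M ≠ 0)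
    (hqM : q ∣ M) (hqk : ¬ q ∣ k) (C : ℕ → ℚ) (hC : TD q M (PO q M) C)
    (g : ℕ) (hg : ∀ x, C x ≠ 0 → Nat.gcd x M ∣ g)
    (I I' : Multiset ℕ) (hI : ∀ κ ∈ I, Nat.Coprime κ k) (hI' : ∀ κ ∈ I', Nat.Coprime κ k)
    (hB : ∀ x, |GI I I' C x| ≤ 1) (hB2 : ¬ 2 ∣ M → ∀ x, |GI I I' C (2 * x) - GI I I' C x| ≤ 1) :
    ∃ C' : ℕ → ℚ, TD q (k * M) (PO q (k * M)) C' ∧ (∀ x, C' (k * x) = C x) ∧
      (∀ x, C' x ≠ 0 → Nat.gcd x (k * M) ∣ k * g) ∧ (∀ x, |GI I I' C' x| ≤ 1) := by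
  have hprime : ∀ r, r.Prime → r ∣ k → r ≠ q := fun r _ hrk h => hqk (h ▸ hrk)
  by_cases h2 : 2 ∣ k ∧ ¬ 2 ∣ M
  · obtain ⟨⟨l, hl⟩, h2M⟩ := h2
    have hl0 : l ≠ 0 := by rintro rfl; rw [mul_zero] at hl; exact hk hl
    obtain ⟨s, _, hs⟩ := Nat.exists_mul_mod_eq_of_coprime 1
      ((Nat.Prime.coprime_iff_not_dvd Nat.prime_two).mpr h2M) hM
    have hs' : 2 * s ≡ 1 [MOD M] := hs
    have hrc : ∀ I : Multiset ℕ, (∀ κ ∈ I, Nat.Coprime κ k) → ∀ κ ∈ I, ¬ 2 ∣ κ := by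
      intro I hI κ hκ h
      have h1 := hI κ hκ
      rw [hl] at h1
      have h2 : Nat.Coprime κ 2 := Nat.Coprime.coprime_mul_right_right h1
      have h3 : 2 ∣ Nat.gcd κ 2 := Nat.dvd_gcd h dvd_rfl
      rw [h2] at h3
      omega
    have hcl : ∀ I : Multiset ℕ, (∀ κ ∈ I, Nat.Coprime κ k) → ∀ κ ∈ I, Nat.Coprime κ l := by
      intro I hI κ hκ
      have := hI κ hκ
      rw [hl] at this
      exact Nat.Coprime.coprime_mul_left_right this
    have hper : ∀ x z, x ≡ z [MOD M] → GI I I' C x = GI I I' C z := by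
      intro x z hxz
      unfold GI
      congr 2
      · apply Multiset.map_congr rfl
        intro κ _
        exact hC.per _ _ (hxz.mul_left κ)
      · apply Multiset.map_congr rfl
        intro κ _
        exact hC.per _ _ (hxz.mul_left κ)
    have hcase : ∀ x, |GI I I' C x - GI I I' C (s * x)| ≤ 1 := by
      intro x
      have h1 := hB2 h2M (s * x)
      have h3 : 2 * (s * x) ≡ x [MOD M] := by
        have := hs'.mul_right x
        rwa [one_mul, mul_assoc] at this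
      rwa [hper _ _ h3] at h1
    obtain ⟨C', h1, h2, h3, h4⟩ := exists_up4' hq l (2 * M) hl0 (mul_ne_zero two_ne_zero hM)
      (hqM.mul_left 2) (fun p hp hpl => by
        refine ⟨hprime p hp (hl ▸ hpl.mul_left 2), ?_⟩
        by_cases hp2 : p = 2
        · right; rw [hp2]; exact Dvd.intro _ rfl
        · left; have := hp.two_le; omega)
      (up1 2 M s C) (up1_td hq Nat.prime_two (Ne.symm hq2) hM hqM le_rfl (fun _ => hs) hC) (2 * g)
      (up1_supp Nat.prime_two (fun _ => hs) hg) I I' (hcl I hI) (hcl I' hI')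
      (GI_bound Nat.prime_two (hrc I hI) (hrc I' hI') (Or.inr (Or.inr hcase)) hB)
    have e : l * (2 * M) = k * M := by rw [hl]; ring
    rw [e] at h1 h3
    refine ⟨C', h1, fun x => ?_, fun x hx => ?_, h4⟩
    · rw [hl, show 2 * l * x = l * (2 * x) by ring, h2, up1_mul Nat.two_pos]
    · have := h3 x hx
      rwa [show l * (2 * g) = k * g by rw [hl]; ring] at this
  · exact exists_up4' hq k M hk hM hqM (fun r hr hrk => by
        refine ⟨hprime r hr hrk, ?_⟩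
        by_cases hp2 : r = 2
        · right
          rw [not_and_not_right] at h2
          rw [hp2]
          exact h2 (hp2 ▸ hrk)
        · left; have := hr.two_le; omega) C hC g hg I I' hI hI' hB

end Pool.Agent.J4.H26.Ew
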