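import Pool.Agent.J4.H26.Od.Bx
import Pool.Agent.J4.H26.Ew.Up4

/-!
Box functions with free vertices.
-/

set_option autoImplicit false
set_option linter.unusedSectionVars false

namespace Pool.Agent.J4.H26.Ew

open Finset Pool.Agent.H916R2 Pool.Agent.Y2 Pool.Agent.J4.H26.Od

/-- the factor of the box function at `l` -/
def fd (M l a b x : ℕ) : ℚ :=
  (if x ≡ a [MOD l ^ M.factorization l] then 1 else 0) -
    (if x ≡ b [MOD l ^ M.factorization l] then 1 else 0)

/-- the box function -/
def bxx (q M : ℕ) (α β : ℕ → ℕ) (x : ℕ) : ℚ :=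
  (if x ≡ α q [MOD q ^ M.factorization q] then 1 else 0) * ∏ l ∈ PO q M, fd M l (α l) (β l) x

/-- admissible vertices -/
structure Adx (q M : ℕ) (α β : ℕ → ℕ) : Prop where
  hM : M ≠ 0
  hqM : q ∣ M
  ndq : ¬ q ∣ α q
  coset : ∀ l ∈ PO q M, β l ≡ α l [MOD l ^ (M.factorization l - 1)]
  nda : ∀ l ∈ PO q M, ¬ l ∣ α l
  ndb : ∀ l ∈ PO q M, ¬ l ∣ β l

lemma fd_congr {M l a b x x' : ℕ} (h : x ≡ x' [MOD l ^ M.factorization l]) :
    fd M l a b x = fd M l a b x' := by
  unfold fd
  rw [ite_congr_mod h, ite_congr_mod h]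

lemma fd_add (M l a b c x : ℕ) : fd M l a b x + fd M l b c x = fd M l a c x := by
  unfold fd; ring

lemma fd_congr_ab {M l a b a' b' : ℕ} (ha : a ≡ a' [MOD l ^ M.factorization l])
    (hb : b ≡ b' [MOD l ^ M.factorization l]) (x : ℕ) : fd M l a b x = fd M l a' b' x := by
  have key : ∀ {c c' : ℕ}, c ≡ c' [MOD l ^ M.factorization l] →
      ((if x ≡ c [MOD l ^ M.factorization l] then (1 : ℚ) else 0) =
        if x ≡ c' [MOD l ^ M.factorization l] then 1 else 0) := by
    intro c c' h
    have : x ≡ c [MOD l ^ M.factorization l] ↔ x ≡ c' [MOD l ^ M.factorization l] :=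
      ⟨fun h1 => h1.trans h, fun h1 => h1.trans h.symm⟩
    simp only [this]
  unfold fd
  rw [key ha, key hb]

section

variable {q M : ℕ} {α β : ℕ → ℕ} (H : Adx q M α β) (hq : q.Prime)

include H hq

lemma bxx_td : TD q M (PO q M) (bxx q M α β) := by
  have hM := H.hM
  refine ⟨?_, ?_, ?_⟩
  · intro x z hxz
    unfold bxx
    rw [ite_congr_mod (hxz.of_dvd (Nat.ordProj_dvd M q))]
    congr 1
    exact prod_congr rfl fun l _ => fd_congr (hxz.of_dvd (Nat.ordProj_dvd M l))
  · intro _ n hn
    unfold bxx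
    rw [if_neg, zero_mul]
    intro h
    have h1 : q ∣ q ^ M.factorization q :=
      dvd_pow_self q (hq.factorization_pos_of_dvd hM H.hqM).ne'
    exact H.ndq (((h.of_dvd h1).dvd_iff dvd_rfl).mp hn)
  · intro l hl n
    obtain ⟨hlq, hlp, hlM, _⟩ := mem_PO.mp hl
    have hlv : l ∣ l ^ M.factorization l :=
      dvd_pow_self l (hlp.factorization_pos_of_dvd hM hlM).ne'
    have hzero : bxx q M α β (l * n) = 0 := by
      unfold bxx
      rw [prod_eq_zero hl, mul_zero]
      unfold fd
      rw [if_neg, if_neg, sub_zero]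
      · intro h
        exact H.ndb l hl (((h.of_dvd hlv).dvd_iff dvd_rfl).mp (Dvd.intro _ rfl))
      · intro h
        exact H.nda l hl (((h.of_dvd hlv).dvd_iff dvd_rfl).mp (Dvd.intro _ rfl))
    rw [hzero]
    let R : ℕ → ℚ := fun x => (if x ≡ α q [MOD q ^ M.factorization q] then 1 else 0) *
      ∏ p ∈ (PO q M).erase l, fd M p (α p) (β p) x
    have hR : ∀ x i, R (x + i * (M / l)) = R x := by
      intro x i
      change _ * _ = _ * _
      rw [ite_congr_mod (modEq_add_mul (pow_dvd_div hlp hlM hq (Ne.symm hlq)))]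
      congr 1
      refine prod_congr rfl fun p hp => ?_
      have hpl := (mem_erase.mp hp).1
      have hpp := (mem_PO.mp (mem_erase.mp hp).2).2.1
      exact fd_congr (modEq_add_mul (pow_dvd_div hlp hlM hpp hpl))
    have hRper : ∀ x z, x ≡ z [MOD M] → R x = R z := by
      intro x z hxz
      change _ * _ = _ * _
      rw [ite_congr_mod (hxz.of_dvd (Nat.ordProj_dvd M q))]
      congr 1
      exact prod_congr rfl fun p _ => fd_congr (hxz.of_dvd (Nat.ordProj_dvd M p))
    have hbx : ∀ x, bxx q M α β x = R x * (if x ≡ α l [MOD l ^ M.factorization l] then 1 else 0) -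
        R x * (if x ≡ β l [MOD l ^ M.factorization l] then 1 else 0) := by
      intro x
      have h1 : ∏ p ∈ PO q M, fd M p (α p) (β p) x =
          fd M l (α l) (β l) x * ∏ p ∈ (PO q M).erase l, fd M p (α p) (β p) x :=
        (mul_prod_erase _ _ hl).symm
      unfold bxx
      rw [h1]
      change _ = (_ * _) * _ - (_ * _) * _
      rw [fd]
      ring
    obtain ⟨t, ht⟩ := exists_shift hM hlp hlM (H.coset l hl)
    let Fe : ℕ → ℚ := fun x => R x * (if x ≡ β l [MOD l ^ M.factorization l] then 1 else 0)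
    have hFe : ∀ x, Fe (x + t * (M / l)) =
        R x * (if x ≡ α l [MOD l ^ M.factorization l] then 1 else 0) := by
      intro x
      change R _ * _ = _
      rw [hR]
      have : x + t * (M / l) ≡ β l [MOD l ^ M.factorization l] ↔
          x ≡ α l [MOD l ^ M.factorization l] := by
        constructor
        · intro h
          exact Nat.ModEq.add_right_cancel' _ (h.trans ht.symm)
        · intro h
          exact (h.add_right _).trans ht
      simp only [this]
    have hFper : ∀ x z, x ≡ z [MOD M] → Fe x = Fe z := by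
      intro x z hxz
      change R _ * _ = R _ * _
      rw [hRper x z hxz, ite_congr_mod (hxz.of_dvd (Nat.ordProj_dvd M l))]
    have h1 : ∑ i ∈ range l, bxx q M α β (n + i * (M / l)) =
        ∑ i ∈ range l, Fe (n + t * (M / l) + i * (M / l)) -
        ∑ i ∈ range l, Fe (n + i * (M / l)) := by
      rw [← sum_sub_distrib]
      refine sum_congr rfl fun i _ => ?_
      rw [hbx, show n + t * (M / l) + i * (M / l) = n + i * (M / l) + t * (M / l) by ring, hFe]
    rw [h1, coset_shift_mul hlp.pos (Nat.mul_div_cancel' hlM) hFper, sub_self]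

omit H hq in
lemma bxx_ne {x : ℕ} (hx : bxx q M α β x ≠ 0) : x ≡ α q [MOD q ^ M.factorization q] ∧
    ∀ l ∈ PO q M, x ≡ α l [MOD l ^ M.factorization l] ∨ x ≡ β l [MOD l ^ M.factorization l] := by
  unfold bxx at hx
  constructor
  · by_contra h
    rw [if_neg h, zero_mul] at hx
    exact hx rfl
  · intro l hl
    by_contra h
    rw [not_or] at h
    apply hx
    rw [prod_eq_zero hl, mul_zero]
    unfold fd
    rw [if_neg h.1, if_neg h.2, sub_zero]

lemma bxx_gcd {x : ℕ} (hx : bxx q M α β x ≠ 0) : Nat.gcd x M ∣ 1 := by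
  obtain ⟨h1, h2⟩ := bxx_ne hx
  by_contra hne
  obtain ⟨p, hp, hpd⟩ := Nat.exists_prime_and_dvd (n := Nat.gcd x M)
    (fun h => hne (by rw [h]))
  have hpx : p ∣ x := hpd.trans (Nat.gcd_dvd_left _ _)
  have hpM : p ∣ M := hpd.trans (Nat.gcd_dvd_right _ _)
  have hpv : p ∣ p ^ M.factorization p :=
    dvd_pow_self p (hp.factorization_pos_of_dvd H.hM hpM).ne'
  by_cases hpq : p = q
  · subst hpq
    exact H.ndq (((h1.of_dvd hpv).dvd_iff dvd_rfl).mp hpx)
  · have hmem : p ∈ PO q M := mem_PO.mpr ⟨hpq, hp, hpM, H.hM⟩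
    rcases h2 p hmem with h | h
    · exact H.nda p hmem (((h.of_dvd hpv).dvd_iff dvd_rfl).mp hpx)
    · exact H.ndb p hmem (((h.of_dvd hpv).dvd_iff dvd_rfl).mp hpx)

end

lemma bxx_abs (q M : ℕ) (α β : ℕ → ℕ) (x : ℕ) : |bxx q M α β x| ≤ 1 := by
  unfold bxx
  rw [abs_mul, Finset.abs_prod]
  apply mul_le_one₀
  · split_ifs <;> simp
  · exact prod_nonneg fun _ _ => abs_nonneg _
  · apply prod_le_one
    · exact fun _ _ => abs_nonneg _
    · intro l _
      unfold fd
      split_ifs <;> simp

/-- the value at the vertex -/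
lemma bxx_self {q M : ℕ} {α β : ℕ → ℕ} {y : ℕ} (hy : ∀ l, α l = y)
    (hne : ∀ l ∈ PO q M, ¬ β l ≡ y [MOD l ^ M.factorization l]) : bxx q M α β y = 1 := by
  unfold bxx
  rw [hy q, if_pos (Nat.ModEq.refl y), one_mul]
  apply prod_eq_one
  intro l hl
  unfold fd
  rw [hy l, if_pos (Nat.ModEq.refl y), if_neg, sub_zero]
  intro h
  exact hne l hl h.symm

/-- splitting of a box -/
lemma bxx_split {q M : ℕ} (α β : ℕ → ℕ) {l0 : ℕ} (hl0 : l0 ∈ PO q M) (v x : ℕ) :
    bxx q M α β x = bxx q M α (Function.update β l0 v) x +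
      bxx q M (Function.update α l0 v) β x := by
  have hq0 : l0 ≠ q := (mem_PO.mp hl0).1
  unfold bxx
  rw [Function.update_of_ne (Ne.symm hq0), ← mul_add]
  congr 1
  rw [← mul_prod_erase _ _ hl0, ← mul_prod_erase (PO q M)
    (fun l => fd M l (α l) (Function.update β l0 v l) x) hl0, ← mul_prod_erase (PO q M)
    (fun l => fd M l (Function.update α l0 v l) (β l) x) hl0]
  have h1 : ∏ l ∈ (PO q M).erase l0, fd M l (α l) (Function.update β l0 v l) x =
      ∏ l ∈ (PO q M).erase l0, fd M l (α l) (β l) x :=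
    prod_congr rfl fun l hl => by rw [Function.update_of_ne (mem_erase.mp hl).1]
  have h2 : ∏ l ∈ (PO q M).erase l0, fd M l (Function.update α l0 v l) (β l) x =
      ∏ l ∈ (PO q M).erase l0, fd M l (α l) (β l) x :=
    prod_congr rfl fun l hl => by rw [Function.update_of_ne (mem_erase.mp hl).1]
  rw [h1, h2, Function.update_self, Function.update_self, ← add_mul, fd_add]

/-- admissibility after the change of a vertex -/
lemma Adx.upd {q M : ℕ} {α β : ℕ → ℕ} (H : Adx q M α β) {l0 v : ℕ} (hl0 : l0 ∈ PO q M)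
    (hv : ¬ l0 ∣ v) (hva : v ≡ α l0 [MOD l0 ^ (M.factorization l0 - 1)]) :
    Adx q M α (Function.update β l0 v) ∧ Adx q M (Function.update α l0 v) β := by
  have hq0 : l0 ≠ q := (mem_PO.mp hl0).1
  refine ⟨⟨H.hM, H.hqM, H.ndq, fun l hl => ?_, H.nda, fun l hl => ?_⟩,
    ⟨H.hM, H.hqM, ?_, fun l hl => ?_, fun l hl => ?_, H.ndb⟩⟩
  · by_cases h : l = l0
    · subst h; rw [Function.update_self]; exact hva
    · rw [Function.update_of_ne h]; exact H.coset l hl
  · by_cases h : l = l0
    · subst h; rw [Function.update_self]; exact hv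
    · rw [Function.update_of_ne h]; exact H.ndb l hl
  · rw [Function.update_of_ne (Ne.symm hq0)]; exact H.ndq
  · by_cases h : l = l0
    · subst h; rw [Function.update_self]; exact (H.coset l hl).trans hva.symm
    · rw [Function.update_of_ne h]; exact H.coset l hl
  · by_cases h : l = l0
    · subst h; rw [Function.update_self]; exact hv
    · rw [Function.update_of_ne h]; exact H.nda l hl

end Pool.Agent.J4.H26.Ew
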