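import Pool.Agent.J4.H26.Ew.Inv4
import Pool.Agent.J4.H26.Ev.Cmp3

/-!
Comparison at the even levels.
-/

set_option autoImplicit false
set_option linter.unusedSectionVars false

namespace Pool.Agent.J4.H26.Ew

open Finset Pool.Agent.Y2 Pool.Agent.J4.H26.Od Pool.Agent.J4.H26.Ev
open Pool.Agent.H916R2 hiding LL

/-- a comparator of level `4 * q` -/
structure Lst4 (q : ℕ) (E E0 : List ℕ) : Prop where
  ndq : ∀ x ∈ E, ¬ q ∣ x
  len : E.length < q - 1
  len0 : E0.length ≤ 1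
  rel : ∀ t : ZMod (4 * q), t.val.gcd (4 * q) = 1 →
    ((E ++ E0.map (fun x => q * x)).map fun x : ℕ => saw (t * (x : ZMod (4 * q)))).sum = 0
  chi : 2 * (E.map chi4).sum = (q : ℤ) - 1
  good : Cv.GoodDegree2 (4 * q)

lemma primes_four {q p : ℕ} (hq : q.Prime) (hp : p.Prime) (h : p ∣ 4 * q) :
    p = 2 ∨ p = 3 ∨ p = q := by
  rcases (Nat.Prime.dvd_mul hp).mp h with h1 | h1
  · have h2 : p ∣ 2 ^ 2 := by simpa using h1
    exact Or.inl ((Nat.prime_dvd_prime_iff_eq hp Nat.prime_two).mp (hp.dvd_of_dvd_pow h2))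
  · exact Or.inr (Or.inr ((Nat.prime_dvd_prime_iff_eq hp hq).mp h1))

lemma lst4_11 : Lst4 11 [1, 5, 13, 24, 25, 28, 32, 37] [3] := by
  refine ⟨by decide, by decide, by decide, by decide +kernel, by decide, ?_⟩
  exact Or.inr (Or.inr (Or.inr (Or.inl fun p hp h => primes_four (by norm_num) hp h)))

lemma lst4_13 : Lst4 13 [1, 5, 17, 28, 29, 32, 36, 41, 45] [] := by
  refine ⟨by decide, by decide, by decide, by decide +kernel, by decide, ?_⟩
  exact Or.inr (Or.inr (Or.inr (Or.inr (Or.inl fun p hp h => primes_four (by norm_num) hp h))))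

lemma ctx_one4 {q d m : ℕ} {A1 A2 : Multiset ℕ} (H : Set2 q d m A1 A2) (hqd : ¬ q ∣ d)
    (hq7 : 7 ≤ q) (hcard : Multiset.card A1 < q - 1)
    (h5 : ¬ 5 ∣ d ∨ 2 * Multiset.card A1 < q - 1) : Ctx4 q 1 d m A1 :=
  ⟨H.hq, hq7, H.hm, Nat.one_pos, by rw [pow_one]; exact H.hqd, hqd, H.hA,
    fun i t κ ht hκ h => H.hinv i t κ ht hκ (by simpa using h), by simpa [nm] using hcard,
    by simpa [nm] using h5⟩

namespace Lst4

variable {q : ℕ} {E E0 : List ℕ} (h : Lst4 q E E0)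

include h

lemma sw {t : ℕ} (ht : Nat.Coprime t (4 * q)) :
    SW (4 * q) ((E : Multiset ℕ) + ((E0 : Multiset ℕ).map fun x => q * x)) t = 0 := by
  have h1 := h.rel (t : ZMod (4 * q)) (by
    rw [ZMod.val_natCast, ← Nat.gcd_rec, Nat.gcd_comm]; exact ht)
  unfold Y2.SW
  rw [Multiset.map_coe, Multiset.coe_add, Multiset.map_coe, Multiset.sum_coe]
  push_cast
  exact h1

lemma cmp3 (hq : q.Prime) {w m : ℕ} (hqm : q * (4 * w) = m) (hqd : ¬ q ∣ 4 * w)
    (hm : m ≠ 0) :
    Cmp3 q (4 * w) m ((E : Multiset ℕ).map fun x => w * x)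
      ((E0 : Multiset ℕ).map fun x => w * x) := by
  have hw : w ≠ 0 := by rintro rfl; simp at hqm; exact hm hqm.symm
  have hwm : w * (4 * q) = m := by rw [← hqm]; ring
  have hq0 : 4 * q ≠ 0 := by have := hq.pos; omega
  have hqw : ¬ q ∣ w := fun h => hqd (h.mul_left 4)
  refine ⟨⟨hq, hqm, hm, ?_, ?_⟩, ?_⟩
  · intro a ha hqa
    obtain ⟨x, hx, rfl⟩ := Multiset.mem_map.mp ha
    rcases (Nat.Prime.dvd_mul hq).mp hqa with h1 | h1
    · exact hqw h1
    · exact h.ndq x hx h1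
  · intro t ht
    have ht4 : Nat.Coprime t (4 * q) := Nat.Coprime.coprime_dvd_right (Dvd.intro_left w hwm) ht
    rw [SW_lmul hm hwm, SW_lmul (e := 4) (by omega : 4 * w ≠ 0) (mul_comm w 4)]
    have h1 := h.sw ht4
    rw [SW_add, SW_lmul hq0 (mul_comm q 4)] at h1
    linear_combination (w : ℤ) * h1
  · intro Q _ C hC hK
    have h1 := hK w (4 * q) hwm (by omega) h.good
      ((E : Multiset ℕ) + ((E0 : Multiset ℕ).map fun x => q * x)) (fun t ht => h.sw ht)
    rw [Multiset.map_add, Multiset.sum_add, Multiset.map_map] at h1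
    rw [Multiset.map_map, Multiset.map_map, ← h1]
    congr 3
    funext x
    simp only [Function.comp_apply]
    congr 2
    ring

/-- the functional of a comparator of level `4 * q` -/
lemma fn (hq : q.Prime) (hq7 : 7 ≤ q) {w m : ℕ} (hqm : q * (4 * w) = m) (hqd : ¬ q ∣ 4 * w)
    (hm : m ≠ 0) {J : Finset ℕ} (hJ : IsJ q (4 * w) m J) {C : ℕ → ℤ} (hC : TD q m (PO q m) C)
    (hCo : ∀ x y, m ∣ x + y → C y = - C x) :
    2 * (((E : Multiset ℕ).map fun x => w * x).map C).sum = SJ J C w := by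
  have hwm : w * (4 * q) = m := by rw [← hqm]; ring
  have hq0 : 4 * q ≠ 0 := by have := hq.pos; omega
  have hq4 : ¬ q ∣ 4 * 1 := by
    intro h1
    have := Nat.le_of_dvd (by norm_num) h1
    omega
  have hq4m : q * (4 * 1) = 4 * q := by ring
  have hJ1 : IsJ q (4 * 1) (4 * q) J :=
    ⟨hJ.card, fun κ hκ => Nat.Coprime.coprime_dvd_right (Dvd.intro_left _ hwm) (hJ.cop κ hκ),
      fun κ hκ => (hJ.one κ hκ).of_dvd (Dvd.intro w rfl), hJ.inj⟩
  have hset := (h.cmp3 hq hq4m hq4 hq0).set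
  have hmap : ((E : Multiset ℕ).map fun x => 1 * x) = (E : Multiset ℕ) := by
    simp
  rw [hmap] at hset
  have hlen := h.len
  have Hc : Ctx4 q 1 (4 * 1) (4 * q) (E : Multiset ℕ) := ctx_one4 hset hq4 hq7
    (by rw [Multiset.coe_card]; exact h.len) (Or.inl (by norm_num))
  obtain ⟨n4, n3, _, hn3, _, _, hn⟩ := Hc.trich4 hJ1
  have hn3' : n3 = 0 := hn3 (by norm_num)
  subst hn3'
  have hqt : ¬ q ∣ 4 := by simpa using hq4
  -- the value of the coefficient
  have hf := lift_td hq (e := 1) Nat.one_pos rfl (ld_chi4 (P := PO q (q ^ 1 * 4)) (fun r hr => by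
      obtain ⟨h1, h2, h3, _⟩ := mem_PO.mp hr
      rw [pow_one] at h3
      rcases (Nat.Prime.dvd_mul h2).mp h3 with h | h
      · exact absurd ((Nat.prime_dvd_prime_iff_eq h2 hq).mp h) h1
      · have h4 : r ∣ 2 ^ 2 := by simpa using h
        exact (Nat.prime_dvd_prime_iff_eq h2 Nat.prime_two).mp (h2.dvd_of_dvd_pow h4)))
  have hqe : q ^ 1 * 4 = 4 * q := by ring
  rw [hqe] at hf
  have hfo : ∀ x y, 4 * q ∣ x + y → (if q ∣ y then (0 : ℤ) else chi4 y) =
      - (if q ∣ x then (0 : ℤ) else chi4 x) := by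
    intro x y hxy
    have h1 : q ∣ x + y := (Dvd.intro_left 4 rfl).trans hxy
    have h2 : q ∣ x ↔ q ∣ y := ⟨fun h => (Nat.dvd_add_right h).mp h1,
      fun h => (Nat.dvd_add_left h).mp h1⟩
    have h3 : (x + y) % 4 = 0 := Nat.mod_eq_zero_of_dvd ((Dvd.intro q rfl).trans hxy)
    by_cases h4 : q ∣ x
    · rw [if_pos h4, if_pos (h2.mp h4), neg_zero]
    · rw [if_neg h4, if_neg (fun h => h4 (h2.mpr h))]
      unfold chi4
      have : (x % 4 + y % 4) % 4 = 0 := by omega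
      split_ifs <;> omega
  have h1 := hn _ hf
  rw [Hc.LL_odd hfo] at h1
  have h2 : ((E : Multiset ℕ).map fun x => (if q ∣ x then (0 : ℤ) else chi4 x)).sum =
      (E.map chi4).sum := by
    rw [Multiset.map_coe, Multiset.sum_coe]
    congr 1
    apply List.map_congr_left
    intro x hx
    rw [if_neg (h.ndq x hx)]
  have h3 : SJ J (fun x => (if q ∣ x then (0 : ℤ) else chi4 x)) (4 * 1 / 4) = (q : ℤ) - 1 := by
    unfold SJ
    have h5 : ∀ κ ∈ J, (if q ∣ κ * (4 * 1 / 4) then (0 : ℤ) else chi4 (κ * (4 * 1 / 4))) = 1 := by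
      intro κ hκ
      have e : κ * (4 * 1 / 4) = κ := by norm_num
      rw [e, if_neg (hJ1.ndvd hq (Dvd.intro_left 4 rfl) hκ)]
      have h6 := hJ1.one κ hκ
      unfold Nat.ModEq at h6
      unfold chi4
      rw [if_pos (by omega)]
    rw [sum_congr rfl h5, sum_const, hJ.card, nsmul_eq_mul, mul_one, Nat.cast_sub hq.one_le,
      Nat.cast_one]
  rw [h2, h3, h.chi, zero_mul, add_zero] at h1
  have h4 : n4 = 1 := by
    have h9 : (n4 - 1) * ((q : ℤ) - 1) = 0 := by linarith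
    rcases mul_eq_zero.mp h9 with h9 | h9
    · omega
    · omega
  subst h4
  have h5 := hn _ (td_down hwm hm hC)
  rw [Hc.LL_odd (fun x y hxy => by
      apply hCo
      rw [← mul_add, ← hwm]
      exact Nat.mul_dvd_mul_left _ hxy)] at h5
  rw [zero_mul, add_zero, one_mul] at h5
  rw [Multiset.map_map]
  change 2 * ((E : Multiset ℕ).map fun x => C (w * x)).sum = _
  rw [h5]
  unfold SJ
  refine sum_congr rfl fun κ _ => ?_
  have e : w * (κ * (4 * 1 / 4)) = κ * w := by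
    have : 4 * 1 / 4 = 1 := by norm_num
    rw [this, mul_one, mul_comm]
  exact congrArg C e

end Lst4

lemma Cmp3.add {q d m : ℕ} {B1 B2 B1' B2' : Multiset ℕ} (h : Cmp3 q d m B1 B2)
    (h' : Cmp3 q d m B1' B2') : Cmp3 q d m (B1 + B1') (B2 + B2') := by
  refine ⟨⟨h.set.hq, h.set.hqd, h.set.hm, ?_, ?_⟩, ?_⟩
  · intro a ha
    rcases Multiset.mem_add.mp ha with ha | ha
    · exact h.set.hA a ha
    · exact h'.set.hA a ha
  · intro t ht
    have h1 := h.set.hrel t ht
    have h2 := h'.set.hrel t ht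
    rw [SW_add, SW_add]
    linear_combination h1 + h2
  · intro Q _ C hC hK
    have h1 := h.kill Q C hC hK
    have h2 := h'.kill Q C hC hK
    rw [Multiset.map_add, Multiset.map_add, Multiset.sum_add, Multiset.sum_add]
    calc _ = ((B1.map fun b : ℕ => C ((b : ℕ) : ZMod m)).sum +
          (B2.map fun b : ℕ => C ((q * b : ℕ) : ZMod m)).sum) +
          ((B1'.map fun b : ℕ => C ((b : ℕ) : ZMod m)).sum +
          (B2'.map fun b : ℕ => C ((q * b : ℕ) : ZMod m)).sum) := by abel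
      _ = 0 := by rw [h1, h2, add_zero]

lemma Cmp3.natmul {q d m : ℕ} {B1 B2 : Multiset ℕ} (h : Cmp3 q d m B1 B2) :
    ∀ n : ℕ, Cmp3 q d m (n • B1) (n • B2)
  | 0 => by rw [zero_nsmul, zero_nsmul]; exact cmp3_zero h.set.hq h.set.hqd h.set.hm
  | n + 1 => by
    rw [succ_nsmul, succ_nsmul]
    exact Cmp3.add (Cmp3.natmul h n) h

/-- the multiples of a comparator -/
lemma mul_cmp {q d m : ℕ} {X : (ℕ → ℤ) → ℤ} {B1 B2 : Multiset ℕ} (h : Cmp3 q d m B1 B2)
    (hc : Multiset.card B2 ≤ 1)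
    (hX : ∀ C : ℕ → ℤ, TD q m (PO q m) C → (∀ x y, m ∣ x + y → C y = - C x) →
      2 * (B1.map C).sum = X C) (n : ℤ) :
    ∃ B1' B2', Cmp3 q d m B1' B2' ∧ (Multiset.card B2' : ℤ) ≤ |n| ∧
      ∀ C : ℕ → ℤ, TD q m (PO q m) C → (∀ x y, m ∣ x + y → C y = - C x) →
      2 * (B1'.map C).sum = n * X C := by
  have hm := h.set.hm
  have hnat : ∀ k : ℕ, ∃ B1' B2', Cmp3 q d m B1' B2' ∧ Multiset.card B2' ≤ k ∧
      ∀ C : ℕ → ℤ, TD q m (PO q m) C → (∀ x y, m ∣ x + y → C y = - C x) →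
      2 * (B1'.map C).sum = k * X C := by
    intro k
    refine ⟨k • B1, k • B2, Cmp3.natmul h k, ?_, ?_⟩
    · rw [Multiset.card_nsmul]
      nlinarith
    · intro C hC hodd
      rw [Multiset.map_nsmul, Multiset.sum_nsmul, nsmul_eq_mul, ← hX C hC hodd]
      ring
  rcases le_total 0 n with h0 | h0
  · obtain ⟨k, rfl⟩ := Int.eq_ofNat_of_zero_le h0
    obtain ⟨B1', B2', h1, h2, h3⟩ := hnat k
    refine ⟨B1', B2', h1, ?_, h3⟩
    rw [abs_of_nonneg h0]
    exact_mod_cast h2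
  · obtain ⟨k, hk⟩ := Int.eq_ofNat_of_zero_le (show 0 ≤ -n by omega)
    obtain ⟨B1', B2', h1, h2, h3⟩ := hnat k
    refine ⟨_, _, h1.neg, ?_, ?_⟩
    · rw [Multiset.card_map, abs_of_nonpos h0, hk]
      exact_mod_cast h2
    · intro C hC hodd
      have h4 := h3 C hC hodd
      have h5 : ((B1'.map fun a => (m - 1) * a).map C).sum = - (B1'.map C).sum := by
        rw [Multiset.map_map]
        apply sum_neg_map
        intro b _
        simp only [Function.comp_apply]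
        apply hodd
        have h1m : 1 ≤ m := Nat.one_le_iff_ne_zero.mpr hm
        refine ⟨b, ?_⟩
        obtain ⟨j, hj⟩ : ∃ j, m = j + 1 := ⟨m - 1, by omega⟩
        rw [hj]; simp; ring
      rw [h5]
      have h6 : n = -(k : ℤ) := by omega
      rw [h6]
      linarith

lemma exists_lst4 {q : ℕ} (h : q ∈ ({11, 13} : Finset ℕ)) : ∃ E E0, Lst4 q E E0 := by
  simp only [mem_insert, mem_singleton] at h
  rcases h with rfl | rfl
  · exact ⟨_, _, lst4_11⟩
  · exact ⟨_, _, lst4_13⟩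

/-- **The comparator.** -/
lemma exists_cmp4 {K q d m : ℕ} {A1 A2 : Multiset ℕ} (H : Set2 q d m A1 A2) (h2 : 2 ∣ d)
    (hcard : Multiset.card A1 ≤ K) (hqK : K + 2 ≤ q) (hq7 : 7 ≤ q)
    (h5 : 5 ∣ d → 2 * K + 2 ≤ q)
    (hC4 : 4 ∣ d → q ≤ 2 * K + 1 → q ∈ ({11, 13} : Finset ℕ))
    (hC3 : 3 ∣ d → q ≤ 4 * K + 1 → q ∈ ({5, 7, 11, 13, 17, 19} : Finset ℕ)) :
    ∃ B1 B2, Cmp3 q d m B1 B2 ∧ Multiset.card B2 ≤ Multiset.card A1 ∧ Same q m A1 B1 := by
  have hq := H.hq
  have hm := H.hm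
  obtain ⟨e, m', he, hmu, hqm', _⟩ := decomp hm hq (Dvd.intro d H.hqd)
  have hqm : q ^ (e + 1) * m' = m := hmu.symm
  have hqd' : q ^ e * m' = d := by
    have h1 : q * (q ^ e * m') = q * d := by rw [H.hqd, ← hqm]; ring
    exact Nat.eq_of_mul_eq_mul_left hq.pos h1
  by_cases he0 : e = 0
  · -- exactly one factor `q`
    have hqd : ¬ q ∣ d := by
      rw [he0, pow_zero, one_mul] at hqd'
      rwa [← hqd']
    have Hc := ctx_one4 H hqd hq7 (by omega) (by
      by_cases h : 5 ∣ d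
      · right; have := h5 h; omega
      · exact Or.inl h)
    obtain ⟨J, hJ⟩ := Hc.exists_IsJ
    obtain ⟨n4, n3, hn4, hn3, hb4, hb3, hn⟩ := Hc.trich4 hJ
    have hq1 : (6 : ℤ) ≤ (q : ℤ) - 1 := by omega
    have hn40 := abs_nonneg n4
    have hn30 := abs_nonneg n3
    -- the two comparators
    have c4 : ∃ B1 B2, Cmp3 q d m B1 B2 ∧ (Multiset.card B2 : ℤ) ≤ |n4| ∧
        ∀ C : ℕ → ℤ, TD q m (PO q m) C → (∀ x y, m ∣ x + y → C y = - C x) →
        2 * (B1.map C).sum = n4 * SJ J C (d / 4) := by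
      by_cases h0 : n4 = 0
      · refine ⟨0, 0, cmp3_zero hq H.hqd hm, by simp, fun C _ _ => ?_⟩
        rw [h0]; simp
      · have h4d : 4 ∣ d := by
          by_contra h; exact h0 (hn4 h)
        have h1n : 1 ≤ |n4| := Int.one_le_abs h0
        have hqb : q ≤ 2 * K + 1 := by
          have h7 : (q : ℤ) - 1 ≤ 2 * Multiset.card A1 := by nlinarith
          omega
        obtain ⟨E, E0, hE⟩ := exists_lst4 (hC4 h4d hqb)
        obtain ⟨w, rfl⟩ := h4d
        have e4 : 4 * w / 4 = w := by omega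
        rw [e4]
        refine mul_cmp (X := fun C => SJ J C w) (hE.cmp3 hq H.hqd hqd hm) ?_ ?_ n4
        · rw [Multiset.card_map, Multiset.coe_card]; exact hE.len0
        · intro C hC hodd
          exact hE.fn hq hq7 H.hqd hqd hm hJ hC hodd
    have c3 : ∃ B1 B2, Cmp3 q d m B1 B2 ∧ (Multiset.card B2 : ℤ) ≤ |-n3| ∧
        ∀ C : ℕ → ℤ, TD q m (PO q m) C → (∀ x y, m ∣ x + y → C y = - C x) →
        2 * (B1.map C).sum = (-n3) * (- SJ J C (d / 3)) := by
      by_cases h0 : n3 = 0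
      · refine ⟨0, 0, cmp3_zero hq H.hqd hm, by simp, fun C _ _ => ?_⟩
        rw [h0]; simp
      · have h3d : 3 ∣ d := by
          by_contra h; exact h0 (hn3 h)
        have h1n : 1 ≤ |n3| := Int.one_le_abs h0
        have hqb : q ≤ 4 * K + 1 := by
          have h7 : (q : ℤ) - 1 ≤ 4 * Multiset.card A1 := by nlinarith
          omega
        obtain ⟨E, E0, hE⟩ := exists_lst2 (hC3 h3d hqb)
        obtain ⟨l, rfl⟩ := h3d
        have e4 : 3 * l / 3 = l := by omega
        rw [e4]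
        have h2l : 2 ∣ l := by omega
        refine mul_cmp (X := fun C => - SJ J C l) (lst_cmp3 hE hq H.hqd hqd hm h2l) ?_ ?_ (-n3)
        · rw [Multiset.card_map, Multiset.coe_card]; exact hE.len0
        · intro C hC hodd
          exact lst_LL2 hE hq (by omega) H.hqd hqd hm hJ hC hodd
    obtain ⟨B1, B2, hB, hBc, hBf⟩ := c4
    obtain ⟨B1', B2', hB', hBc', hBf'⟩ := c3
    refine ⟨B1 + B1', B2 + B2', Cmp3.add hB hB', ?_, ?_⟩
    · rw [abs_neg] at hBc'
      rw [Multiset.card_add]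
      have h7 : (Multiset.card B2 : ℤ) + Multiset.card B2' ≤ Multiset.card A1 := by nlinarith
      omega
    · intro C hC hodd
      have h1 := hn C hC
      rw [Hc.LL_odd hodd] at h1
      have h3 := hBf C hC hodd
      have h4 := hBf' C hC hodd
      rw [Multiset.map_add, Multiset.sum_add]
      linarith
  · -- `q` divides `d`
    have hm'd : m' ∣ d := Dvd.intro_left _ hqd'
    have Hc : Ctx4 q (e + 1) m' m A1 :=
      ⟨hq, hq7, hm, Nat.succ_pos e, hqm, hqm', H.hA, fun i t κ ht hκ h =>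
        H.hinv i t κ ht hκ (by rw [← hqd']; simpa using h), by
        unfold nm
        rw [if_neg (by omega)]
        omega, by
        unfold nm
        rw [if_neg (by omega)]
        by_cases h : 5 ∣ m'
        · right; have := h5 (h.trans hm'd); omega
        · exact Or.inl h⟩
    refine ⟨0, 0, cmp3_zero hq H.hqd hm, by simp, ?_⟩
    intro C hC hodd
    have h1 := Hc.zero_of_k (by omega) hC
    rw [Hc.LL_odd hodd] at h1
    simp only [Multiset.map_zero, Multiset.sum_zero]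
    linarith

end Pool.Agent.J4.H26.Ew
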