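import Pool.Agent.J4.H26.Ew.Bx4
import Pool.Agent.J4.H26.Ev.Inv2

/-!
The functional of a short invariant multiset, all levels.
-/

set_option autoImplicit false
set_option linter.unusedSectionVars false

namespace Pool.Agent.J4.H26.Ew

open Finset Pool.Agent.Y2 Pool.Agent.J4.H26.Od Pool.Agent.J4.H26.Ev
open Pool.Agent.H916R2 hiding LL

/-- The setting: a short multiset with entries prime to `q`, invariant under the units congruent to
one modulo `m / q`. -/
structure Ctx4 (q k m' m : ℕ) (A : Multiset ℕ) : Prop where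
  hq : q.Prime
  q7 : 7 ≤ q
  hm : m ≠ 0
  hk : 0 < k
  hqm : q ^ k * m' = m
  hqm' : ¬ q ∣ m'
  hA : ∀ a ∈ A, ¬ q ∣ a
  hinv : ∀ i t κ, Nat.Coprime t m → Nat.Coprime κ m → κ ≡ 1 [MOD q ^ (k - 1) * m'] →
    SW m A (q ^ i * (t * κ)) = SW m A (q ^ i * t)
  hcard : Multiset.card A < nm q k
  hfive : ¬ 5 ∣ m' ∨ 2 * Multiset.card A < nm q k

namespace Ctx4

variable {q k m' m : ℕ} {A : Multiset ℕ} (H : Ctx4 q k m' m A)

include H

lemma hqdm : q ∣ m := by rw [← H.hqm]; exact (dvd_pow_self q H.hk.ne').mul_right m'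

lemma hm' : m' ≠ 0 := by
  rintro rfl
  have := H.hqm
  rw [mul_zero] at this
  exact H.hm this.symm

lemma dm : q ^ (k - 1) * m' ∣ m := by
  rw [← H.hqm]
  exact Nat.mul_dvd_mul_right (pow_dvd_pow q (Nat.sub_le k 1)) m'

lemma mm : m' ∣ m := Dvd.intro_left _ H.hqm

lemma fac : m.factorization q = k := by
  rw [← H.hqm, Nat.factorization_mul (pow_ne_zero _ H.hq.ne_zero) H.hm', Finsupp.add_apply,
    Nat.factorization_pow, Finsupp.smul_apply, Nat.Prime.factorization_self H.hq,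
    Nat.factorization_eq_zero_of_not_dvd H.hqm']
  simp

lemma m1s (x : ℕ) : x + (m - 1) * x = m * x := by
  have h1 : 1 ≤ m := Nat.one_le_iff_ne_zero.mpr H.hm
  obtain ⟨k, hk⟩ : ∃ k, m = k + 1 := ⟨m - 1, by omega⟩
  rw [hk]
  simp; ring

lemma m1c : Nat.Coprime (m - 1) m := by
  have h1 := Nat.coprime_self_sub_right (m := 1) (n := m) (Nat.one_le_iff_ne_zero.mpr H.hm)
  rw [Nat.coprime_comm]
  exact h1.mpr (Nat.coprime_one_right m)

lemma neg_modEq {x y : ℕ} (hxy : m ∣ x + y) : y ≡ (m - 1) * x [MOD m] := by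
  apply Nat.ModEq.add_left_cancel' x
  rw [H.m1s]
  exact ((Nat.modEq_zero_iff_dvd).mpr hxy).trans
    ((Nat.modEq_zero_iff_dvd).mpr (Dvd.intro _ rfl)).symm

lemma neg_neg_modEq (x : ℕ) : (m - 1) * ((m - 1) * x) ≡ x [MOD m] := by
  apply Nat.ModEq.symm
  apply H.neg_modEq
  rw [add_comm, H.m1s]
  exact Dvd.intro _ rfl

lemma hPp : ∀ r ∈ PO q m, r.Prime ∧ r ∣ m := fun _ hr => ⟨(PO_prime hr).1, (PO_prime hr).2.1⟩

/-- invariance for integral distributions -/
lemma LL_inv {C : ℕ → ℤ} (hC : TD q m (PO q m) C) {κ : ℕ} (hκ : Nat.Coprime κ m)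
    (hκ1 : κ ≡ 1 [MOD q ^ (k - 1) * m']) : LL m A (fun x => C (κ * x)) = LL m A C := by
  have hm := H.hm
  let Cm : ℕ → ℤ := fun x => C x - C ((m - 1) * x)
  have hCm : TD q m (PO q m) Cm := hC.sub (hC.mul H.hPp H.m1c)
  have hCmo : ∀ x y, m ∣ x + y → Cm y = - Cm x := by
    intro x y hxy
    have h1 := H.neg_modEq hxy
    have h2 : (m - 1) * y ≡ x [MOD m] := by
      exact (h1.mul_left (m - 1)).trans (H.neg_neg_modEq x)
    simp only [Cm]
    rw [hC.per _ _ h1, hC.per _ _ h2]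
    ring
  have hqκ : ¬ q ∣ κ := by
    intro h
    have h3 : q ∣ Nat.gcd κ m := Nat.dvd_gcd h H.hqdm
    rw [hκ] at h3
    exact H.hq.one_lt.ne' (Nat.dvd_one.mp h3)
  have h1 := star2 H.hq hm (A.map fun a => κ * a) A (fun _ a ha => by
    obtain ⟨b, hb, rfl⟩ := Multiset.mem_map.mp ha
    intro h
    rcases (Nat.Prime.dvd_mul H.hq).mp h with h | h
    · exact hqκ h
    · exact H.hA b hb h) (fun _ => H.hA) (fun i t htc => by
    have e1 : SW m (A.map fun a => κ * a) (q ^ i * t) = SW m A (q ^ i * (t * κ)) := by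
      unfold SW
      rw [Multiset.map_map]
      congr 1
      apply Multiset.map_congr rfl
      intro a _
      simp only [Function.comp_apply]
      congr 2
      ring
    rw [e1]
    exact H.hinv i t κ htc hκ hκ1) hCm hCmo
  rw [Multiset.map_map] at h1
  unfold LL
  have h2 : (A.map Cm).sum = (A.map fun a => C a - C ((m - 1) * a)).sum := rfl
  rw [← h2, ← h1]
  congr 1
  apply Multiset.map_congr rfl
  intro a _
  simp only [Function.comp_apply, Cm]
  congr 2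
  ring

/-- the dual basis -/
lemma exists_dual : ∃ D : ℕ → ℕ → ℤ, ∀ b, TD q m (PO q m) (D b) ∧
    ∀ x, IsB q m x → D b x = if x % m = b then 1 else 0 := by
  have h : ∀ b : ℕ, ∃ F : ℕ → ℤ, TD q m (PO q m) F ∧
      ∀ x, IsB q m x → F x = if x % m = b then 1 else 0 := by
    intro b
    obtain ⟨F, hF, hFv⟩ := exists_td H.hq H.hqdm H.hm (fun x => if x = b then (1 : ℤ) else 0)
    exact ⟨F, hF, fun x hx => hFv x hx.1 hx.2⟩
  choose D hD using h
  exact ⟨D, hD⟩

lemma IsB_mod {x : ℕ} (hx : IsB q m x) : x % m ∈ BN q m := by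
  simp only [BN, mem_filter, mem_range]
  refine ⟨Nat.mod_lt _ (Nat.pos_of_ne_zero H.hm), ?_, ?_⟩
  · intro h; exact hx.1 ((Nat.dvd_mod_iff H.hqdm).mp h)
  · intro r hr
    rw [TT_mod]; exact hx.2 r hr

/-- expansion in the dual basis -/
lemma expand {D : ℕ → ℕ → ℤ} (hD : ∀ b, TD q m (PO q m) (D b) ∧
    ∀ x, IsB q m x → D b x = if x % m = b then 1 else 0) {C : ℕ → ℚ} (hC : TD q m (PO q m) C)
    (x : ℕ) : C x = ∑ b ∈ BN q m, C b * (D b x : ℚ) := by
  have hsum : TD q m (PO q m) (fun x => ∑ b ∈ BN q m, C b * (D b x : ℚ)) := by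
    apply TD.sum (BN q m) (fun b x => C b * (D b x : ℚ))
    intro b _
    have h1 : TD q m (PO q m) (fun x => (D b x : ℚ)) := (hD b).1.map (Int.castAddHom ℚ)
    exact h1.map (AddMonoidHom.mulLeft (C b))
  refine TD.ext_of_B H.hm H.hq H.hqdm (fun r hr => PO_prime hr) hC hsum ?_ x
  intro x hx hT
  have hxB : IsB q m x := ⟨hx, hT⟩
  rw [Finset.sum_eq_single (x % m)]
  · rw [(hD _).2 x hxB, if_pos rfl, Int.cast_one, mul_one]
    exact hC.per _ _ (Nat.mod_modEq x m).symm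
  · intro b _ hb
    rw [(hD _).2 x hxB, if_neg (Ne.symm hb), Int.cast_zero, mul_zero]
  · intro h
    exact absurd (H.IsB_mod hxB) h

lemma LL_expand {D : ℕ → ℕ → ℤ} (hD : ∀ b, TD q m (PO q m) (D b) ∧
    ∀ x, IsB q m x → D b x = if x % m = b then 1 else 0) {C : ℕ → ℚ} (hC : TD q m (PO q m) C) :
    LL m A C = ∑ b ∈ BN q m, C b * ((LL m A (D b) : ℤ) : ℚ) := by
  rw [LL_congr (H.expand hD hC), LL_sum]
  refine sum_congr rfl fun b _ => ?_
  rw [LL_mul, LL_cast]

/-- invariance for rational distributions -/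
lemma LL_inv_rat {C : ℕ → ℚ} (hC : TD q m (PO q m) C) {κ : ℕ} (hκ : Nat.Coprime κ m)
    (hκ1 : κ ≡ 1 [MOD q ^ (k - 1) * m']) : LL m A (fun x => C (κ * x)) = LL m A C := by
  obtain ⟨D, hD⟩ := H.exists_dual
  have h1 : ∀ x, C (κ * x) = ∑ b ∈ BN q m, C b * (D b (κ * x) : ℚ) := fun x => H.expand hD hC _
  rw [LL_congr h1, LL_sum, H.LL_expand hD hC]
  refine sum_congr rfl fun b _ => ?_
  rw [LL_mul, LL_cast (fun x => D b (κ * x)), H.LL_inv (hD b).1 hκ hκ1]

/-- the multipliers -/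
lemma exists_J : ∃ J : Finset ℕ, J.card = nm q k ∧ (∀ κ ∈ J, Nat.Coprime κ m ∧
    κ ≡ 1 [MOD q ^ (k - 1) * m']) ∧ ∀ κ ∈ J, ∀ κ' ∈ J, κ ≡ κ' [MOD q ^ k] → κ = κ' := by
  have hq := H.hq
  have hKm' : Nat.Coprime (q ^ k) m' :=
    Nat.Coprime.pow_left _ ((Nat.Prime.coprime_iff_not_dvd hq).mpr H.hqm')
  let κ : ℕ → ℕ := fun c => (Nat.chineseRemainder hKm' c 1 : ℕ)
  have hκK : ∀ c, κ c ≡ c [MOD q ^ k] := fun c => (Nat.chineseRemainder hKm' c 1).2.1
  have hκm' : ∀ c, κ c ≡ 1 [MOD m'] := fun c => (Nat.chineseRemainder hKm' c 1).2.2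
  have hqK : q ∣ q ^ k := dvd_pow_self q H.hk.ne'
  have hinj : ∀ c ∈ KS q k (k - 1), ∀ c' ∈ KS q k (k - 1), κ c ≡ κ c' [MOD q ^ k] → c = c' := by
    intro c hc c' hc' h
    have h1 : c ≡ c' [MOD q ^ k] := ((hκK c).symm.trans h).trans (hκK c')
    exact Nat.ModEq.eq_of_lt_of_lt h1 (mem_range.mp (mem_filter.mp hc).1)
      (mem_range.mp (mem_filter.mp hc').1)
  refine ⟨(KS q k (k - 1)).image κ, ?_, ?_, ?_⟩
  · rw [Finset.card_image_of_injOn]
    · unfold nm
      by_cases h1 : k = 1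
      · rw [if_pos h1, h1, card_KS_zero hq Nat.one_pos, pow_one, Nat.totient_prime hq]
      · rw [if_neg h1]
        have h2 : k = (k - 1) + 1 := by have := H.hk; omega
        have h3 := card_KS_succ (j := k - 1) hq (by have := H.hk; omega)
        rwa [← h2] at h3
    · intro c hc c' hc' h
      exact hinj c (by exact_mod_cast hc) c' (by exact_mod_cast hc') (by
        change κ c = κ c' at h
        rw [h])
  · intro x hx
    obtain ⟨c, hc, rfl⟩ := mem_image.mp hx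
    have hc' := (mem_filter.mp hc).2
    constructor
    · rw [← H.hqm]
      apply Nat.Coprime.mul_right
      · apply Nat.Coprime.pow_right
        refine (Nat.coprime_comm).mp ((Nat.Prime.coprime_iff_not_dvd hq).mpr fun h => ?_)
        exact hc'.1 ((((hκK c).of_dvd hqK).dvd_iff dvd_rfl).mp h)
      · have : Nat.gcd (κ c) m' = Nat.gcd 1 m' := (hκm' c).gcd_eq
        rw [Nat.Coprime, this, Nat.gcd_one_left]
    · have hJm' : Nat.Coprime (q ^ (k - 1)) m' :=
        Nat.Coprime.pow_left _ ((Nat.Prime.coprime_iff_not_dvd hq).mpr H.hqm')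
      refine (Nat.modEq_and_modEq_iff_modEq_mul hJm').mp ⟨?_, hκm' c⟩
      exact ((hκK c).of_dvd (pow_dvd_pow q (Nat.sub_le k 1))).trans hc'.2
  · intro x hx x' hx' h
    obtain ⟨c, hc, rfl⟩ := mem_image.mp hx
    obtain ⟨c', hc', rfl⟩ := mem_image.mp hx'
    rw [hinj c hc c' hc' h]

/-- the bound of the functional -/
lemma LL_lt {J : Finset ℕ} (hJ : J.card = nm q k) (hJ1 : ∀ κ ∈ J, Nat.Coprime κ m ∧
    κ ≡ 1 [MOD q ^ (k - 1) * m']) {C : ℕ → ℚ} (hC : TD q m (PO q m) C)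
    (hB : ∀ x, |GI J.val (J.val.map fun κ => (m - 1) * κ) C x| ≤ 1) :
    |LL m A C| < 1 := by
  have h1 : (J.card : ℚ) * LL m A C = ∑ κ ∈ J, LL m A (fun x => C (κ * x)) := by
    rw [sum_congr rfl fun κ hκ => H.LL_inv_rat hC (hJ1 κ hκ).1 (hJ1 κ hκ).2, sum_const,
      nsmul_eq_mul]
  have h2 : |(J.card : ℚ) * LL m A C| ≤ Multiset.card A := by
    rw [h1, ← LL_sum]
    unfold Od.LL
    refine (abs_msum_le _ _).trans ?_
    have h3 : (A.map fun a => |∑ κ ∈ J, C (κ * a) - ∑ κ ∈ J, C (κ * ((m - 1) * a))|).sum ≤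
        (A.map fun _ => (1 : ℚ)).sum := by
      apply Multiset.sum_map_le_sum_map
      intro a _
      refine le_trans (le_of_eq ?_) (hB a)
      unfold GI
      rw [Multiset.map_map]
      congr 2
      change _ = ∑ κ ∈ J, C ((m - 1) * κ * a)
      refine sum_congr rfl fun κ _ => ?_
      congr 1
      ring
    refine h3.trans ?_
    simp
  have hc : (Multiset.card A : ℚ) < J.card := by
    rw [hJ]; exact_mod_cast H.hcard
  rw [abs_mul, Nat.abs_cast] at h2
  have h0 : (0 : ℚ) < J.card := lt_of_le_of_lt (by positivity) hc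
  by_contra hge
  push Not at hge
  have : (J.card : ℚ) * 1 ≤ J.card * |LL m A C| := mul_le_mul_of_nonneg_left hge h0.le
  linarith

lemma to2 (h : 2 * Multiset.card A < nm q k) : Ctx2 q k m' m A :=
  ⟨H.hq, by have := H.q7; omega, H.hm, H.hk, H.hqm, H.hqm', H.hA, H.hinv, h⟩

end Ctx4

end Pool.Agent.J4.H26.Ew
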