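import Pool.Agent.J4.H26.Ew.Tb4

/-!
Exact averages of boxes for `k = 1`, and the good boxes at the levels `7 q`, `9 q`, `21 q`.
-/

set_option autoImplicit false
set_option linter.unusedSectionVars false

namespace Pool.Agent.J4.H26.Ew

open Finset Pool.Agent.Y2 Pool.Agent.J4.H26.Od Pool.Agent.J4.H26.Ev
open Pool.Agent.H916R2 hiding LL

lemma fd_fz {M l N : ℕ} (hN : l ^ M.factorization l = N) (a b x : ℕ) :
    fd M l a b x = ((fz (a : ZMod N) (b : ZMod N) (x : ZMod N) : ℤ) : ℚ) := by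
  unfold fd fz
  rw [hN]
  have h : ∀ c : ℕ, x ≡ c [MOD N] ↔ (x : ZMod N) = (c : ZMod N) := fun c =>
    (ZMod.natCast_eq_natCast_iff _ _ _).symm
  simp only [h]
  push_cast
  rfl

lemma neg_zmod {m N : ℕ} (hN : N ∣ m) (hm : m ≠ 0) (x : ℕ) :
    (((m - 1) * x : ℕ) : ZMod N) = -(x : ZMod N) := by
  have h1 : x + (m - 1) * x = m * x := by
    obtain ⟨k, hk⟩ : ∃ k, m = k + 1 := ⟨m - 1, by omega⟩
    rw [hk]; simp; ring
  have h2 : ((x + (m - 1) * x : ℕ) : ZMod N) = 0 := by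
    rw [h1, ZMod.natCast_eq_zero_iff]; exact hN.mul_right x
  push_cast at h2 ⊢
  linear_combination h2

namespace Ctx4

variable {q m' m : ℕ} {A : Multiset ℕ} (H : Ctx4 q 1 m' m A)

include H

lemma isJ {J : Finset ℕ} (hJ : MJ q 1 m' m J) : IsJ q m' m J := by
  refine ⟨?_, hJ.cop, fun κ hκ => ?_, fun κ hκ κ' hκ' h => hJ.inj κ hκ κ' hκ' (by simpa using h)⟩
  · have := hJ.card
    simpa [nm] using this
  · have := hJ.one κ hκ
    simpa using this

variable {J : Finset ℕ} (hJ : MJ q 1 m' m J)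

include hJ

lemma Sb_exact {k0 M0 : ℕ} {α β : ℕ → ℕ} (hk0 : k0 * M0 = m) (hqk0 : ¬ q ∣ k0)
    (hnd : ¬ q ∣ α q) (x : ℕ) :
    Sb q M0 α β J x = if q ∣ x then 0 else ∏ l ∈ PO q M0, fd M0 l (α l) (β l) x := by
  have hq := H.hq
  have hfq := H.facq hk0 hqk0
  have hI := H.isJ hJ
  have hqx : ∀ κ, bxx q M0 α β (κ * x) ≠ 0 → κ * x ≡ α q [MOD q] := by
    intro κ h
    have := (bxx_ne h).1
    rwa [hfq, pow_one] at this
  split_ifs with h
  · apply sum_eq_zero
    intro κ _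
    by_contra hne
    exact hnd (((hqx κ hne).dvd_iff dvd_rfl).mp (h.mul_left κ))
  · obtain ⟨c, _, hc⟩ := Nat.exists_mul_mod_eq_of_coprime (α q)
      (Nat.coprime_comm.mp ((Nat.Prime.coprime_iff_not_dvd hq).mpr h)) hq.ne_zero
    have hc' : x * c ≡ α q [MOD q] := hc
    have hqc : ¬ q ∣ c := by
      intro h1
      exact hnd ((hc'.dvd_iff dvd_rfl).mp (h1.mul_left x))
    obtain ⟨κ, hκ, hκc⟩ := hI.surj hq H.hqdm hqc
    have hκx : κ * x ≡ α q [MOD q] := by
      have h1 := hκc.mul_right x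
      rw [mul_comm c x] at h1
      exact h1.trans hc'
    unfold Sb
    rw [Finset.sum_eq_single κ]
    · unfold bxx
      rw [hfq, pow_one, if_pos hκx, one_mul]
      refine prod_congr rfl fun l hl => fd_congr ?_
      have := ((hJ.one κ hκ).of_dvd (H.lm' hk0 hl)).mul_right x
      rwa [one_mul] at this
    · intro κ' hκ' hne
      by_contra hb
      apply hne
      apply hI.inj κ' hκ' κ hκ
      exact Nat.ModEq.cancel_right_of_coprime ((Nat.Prime.coprime_iff_not_dvd hq).mpr h)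
        ((hqx κ' hb).trans hκx.symm)
    · intro h1; exact absurd hκ h1

lemma GI_exact {k0 M0 : ℕ} {α β : ℕ → ℕ} (hk0 : k0 * M0 = m) (hqk0 : ¬ q ∣ k0)
    (hnd : ¬ q ∣ α q) (x : ℕ) :
    GI J.val (J.val.map fun κ => (m - 1) * κ) (bxx q M0 α β) x = if q ∣ x then 0 else
      ∏ l ∈ PO q M0, fd M0 l (α l) (β l) x - ∏ l ∈ PO q M0, fd M0 l (α l) (β l) ((m - 1) * x) := by
  rw [GI_eq, H.Sb_exact hJ hk0 hqk0 hnd, H.Sb_exact hJ hk0 hqk0 hnd]
  have h1 : q ∣ (m - 1) * x ↔ q ∣ x := by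
    constructor
    · intro h
      have h2 := H.m1s x
      have h3 : q ∣ x + (m - 1) * x := by rw [h2]; exact H.hqdm.mul_right x
      exact (Nat.dvd_add_left h).mp h3
    · intro h; exact h.mul_left _
  simp only [h1]
  split_ifs
  · simp
  · rfl

/-- good boxes from a table, one factor -/
lemma gb_one {k0 M0 : ℕ} {α β : ℕ → ℕ} (hk0 : k0 * M0 = m) (hqk0 : ¬ q ∣ k0)
    (hnd : ¬ q ∣ α q) {l N : ℕ} (hPO : PO q M0 = {l}) (hN : l ^ M0.factorization l = N)
    (ht : ∀ x : ZMod N, |g1 (α l : ZMod N) (β l : ZMod N) x| ≤ 1 ∧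
      |g1 (α l : ZMod N) (β l : ZMod N) (2 * x) - g1 (α l : ZMod N) (β l : ZMod N) x| ≤ 1) :
    GB m q M0 α β J := by
  have hNm : N ∣ m := by
    rw [← hN]; exact (Nat.ordProj_dvd M0 l).trans (Dvd.intro_left _ hk0)
  have hval : ∀ x : ℕ, ¬ q ∣ x → GI J.val (J.val.map fun κ => (m - 1) * κ) (bxx q M0 α β) x =
      ((g1 (α l : ZMod N) (β l : ZMod N) (x : ZMod N) : ℤ) : ℚ) := by
    intro x hx
    rw [H.GI_exact hJ hk0 hqk0 hnd, if_neg hx, hPO, prod_singleton, prod_singleton,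
      fd_fz hN, fd_fz hN, neg_zmod hNm H.hm]
    unfold g1
    push_cast
    rfl
  have hq2 : ∀ x, q ∣ 2 * x ↔ q ∣ x := by
    intro x
    constructor
    · intro h
      exact H.q2.dvd_of_dvd_mul_left h
    · intro h; exact h.mul_left 2
  refine ⟨fun x => ?_, fun _ x => ?_⟩
  · by_cases hx : q ∣ x
    · rw [H.GI_exact hJ hk0 hqk0 hnd, if_pos hx]; simp
    · rw [hval x hx]
      have := (ht x).1
      exact_mod_cast this
  · by_cases hx : q ∣ x
    · rw [H.GI_exact hJ hk0 hqk0 hnd, if_pos ((hq2 x).mpr hx), H.GI_exact hJ hk0 hqk0 hnd,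
        if_pos hx]
      simp
    · rw [hval x hx, hval (2 * x) (fun h => hx ((hq2 x).mp h))]
      have := (ht x).2
      push_cast at this ⊢
      exact_mod_cast this

/-- good boxes from a table, two factors -/
lemma gb_two {k0 M0 : ℕ} {α β : ℕ → ℕ} (hk0 : k0 * M0 = m) (hqk0 : ¬ q ∣ k0)
    (hnd : ¬ q ∣ α q) {l l' N N' : ℕ} (hll : l ≠ l') (hPO : PO q M0 = {l, l'})
    (hN : l ^ M0.factorization l = N) (hN' : l' ^ M0.factorization l' = N')
    (ht : ∀ (x : ZMod N) (y : ZMod N'),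
      |g2 (α l : ZMod N) (β l : ZMod N) x (α l' : ZMod N') (β l' : ZMod N') y| ≤ 1 ∧
      |g2 (α l : ZMod N) (β l : ZMod N) (2 * x) (α l' : ZMod N') (β l' : ZMod N') (2 * y) -
        g2 (α l : ZMod N) (β l : ZMod N) x (α l' : ZMod N') (β l' : ZMod N') y| ≤ 1) :
    GB m q M0 α β J := by
  have hNm : N ∣ m := by
    rw [← hN]; exact (Nat.ordProj_dvd M0 l).trans (Dvd.intro_left _ hk0)
  have hNm' : N' ∣ m := by
    rw [← hN']; exact (Nat.ordProj_dvd M0 l').trans (Dvd.intro_left _ hk0)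
  have hval : ∀ x : ℕ, ¬ q ∣ x → GI J.val (J.val.map fun κ => (m - 1) * κ) (bxx q M0 α β) x =
      ((g2 (α l : ZMod N) (β l : ZMod N) (x : ZMod N) (α l' : ZMod N') (β l' : ZMod N')
        (x : ZMod N') : ℤ) : ℚ) := by
    intro x hx
    rw [H.GI_exact hJ hk0 hqk0 hnd, if_neg hx, hPO, prod_pair hll, prod_pair hll,
      fd_fz hN, fd_fz hN, fd_fz hN', fd_fz hN', neg_zmod hNm H.hm, neg_zmod hNm' H.hm]
    unfold g2
    push_cast
    rfl
  have hq2 : ∀ x, q ∣ 2 * x ↔ q ∣ x := by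
    intro x
    constructor
    · intro h
      exact H.q2.dvd_of_dvd_mul_left h
    · intro h; exact h.mul_left 2
  refine ⟨fun x => ?_, fun _ x => ?_⟩
  · by_cases hx : q ∣ x
    · rw [H.GI_exact hJ hk0 hqk0 hnd, if_pos hx]; simp
    · rw [hval x hx]
      have := (ht x x).1
      exact_mod_cast this
  · by_cases hx : q ∣ x
    · rw [H.GI_exact hJ hk0 hqk0 hnd, if_pos ((hq2 x).mpr hx), H.GI_exact hJ hk0 hqk0 hnd,
        if_pos hx]
      simp
    · rw [hval x hx, hval (2 * x) (fun h => hx ((hq2 x).mp h))]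
      have := (ht x x).2
      push_cast at this ⊢
      exact_mod_cast this

end Ctx4

end Pool.Agent.J4.H26.Ew
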