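import Pool.Agent.J4.H26.Ew.Ctx4

/-!
Good boxes.
-/

set_option autoImplicit false
set_option linter.unusedSectionVars false

namespace Pool.Agent.J4.H26.Ew

open Finset Pool.Agent.Y2 Pool.Agent.J4.H26.Od Pool.Agent.J4.H26.Ev
open Pool.Agent.H916R2 hiding LL

/-- the data of the multipliers -/
structure MJ (q k m' m : ℕ) (J : Finset ℕ) : Prop where
  card : J.card = nm q k
  cop : ∀ κ ∈ J, Nat.Coprime κ m
  one : ∀ κ ∈ J, κ ≡ 1 [MOD q ^ (k - 1) * m']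
  inj : ∀ κ ∈ J, ∀ κ' ∈ J, κ ≡ κ' [MOD q ^ k] → κ = κ'

/-- the sum of a box over the multipliers -/
def Sb (q M : ℕ) (α β : ℕ → ℕ) (J : Finset ℕ) (x : ℕ) : ℚ := ∑ κ ∈ J, bxx q M α β (κ * x)

/-- the vertices -/
def Vx (q k M : ℕ) (α β : ℕ → ℕ) (x : ℕ) : Prop :=
  x ≡ α q [MOD q ^ (k - 1)] ∧ ∀ l ∈ PO q M, x ≡ α l [MOD l ^ M.factorization l] ∨
    x ≡ β l [MOD l ^ M.factorization l]

/-- good boxes -/
structure GB (m q M : ℕ) (α β : ℕ → ℕ) (J : Finset ℕ) : Prop where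
  h1 : ∀ x, |GI J.val (J.val.map fun κ => (m - 1) * κ) (bxx q M α β) x| ≤ 1
  h2 : ¬ 2 ∣ M → ∀ x, |GI J.val (J.val.map fun κ => (m - 1) * κ) (bxx q M α β) (2 * x) -
    GI J.val (J.val.map fun κ => (m - 1) * κ) (bxx q M α β) x| ≤ 1

lemma GI_eq (m q M : ℕ) (α β : ℕ → ℕ) (J : Finset ℕ) (x : ℕ) :
    GI J.val (J.val.map fun κ => (m - 1) * κ) (bxx q M α β) x =
      Sb q M α β J x - Sb q M α β J ((m - 1) * x) := by
  unfold GI Sb
  rw [Multiset.map_map]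
  congr 1
  change ∑ κ ∈ J, bxx q M α β ((m - 1) * κ * x) = _
  refine sum_congr rfl fun κ _ => ?_
  congr 1; ring

namespace Ctx4

variable {q k m' m : ℕ} {A : Multiset ℕ} (H : Ctx4 q k m' m A)

include H

lemma exists_MJ : ∃ J, MJ q k m' m J := by
  obtain ⟨J, h1, h2, h3⟩ := H.exists_J
  exact ⟨J, h1, fun κ hκ => (h2 κ hκ).1, fun κ hκ => (h2 κ hκ).2, h3⟩

lemma q2 : Nat.Coprime q 2 := by
  rw [Nat.coprime_comm, Nat.Prime.coprime_iff_not_dvd Nat.prime_two]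
  intro h
  have h1 := (Nat.prime_dvd_prime_iff_eq Nat.prime_two H.hq).mp h
  have h2 := H.q7
  omega

lemma facq {k0 M0 : ℕ} (hk0 : k0 * M0 = m) (hqk0 : ¬ q ∣ k0) : M0.factorization q = k := by
  have hk00 : k0 ≠ 0 := by rintro rfl; rw [zero_mul] at hk0; exact H.hm hk0.symm
  have hM : M0 ≠ 0 := by rintro rfl; rw [mul_zero] at hk0; exact H.hm hk0.symm
  have h1 := H.fac
  rw [← hk0, Nat.factorization_mul hk00 hM, Finsupp.add_apply,
    Nat.factorization_eq_zero_of_not_dvd hqk0, zero_add] at h1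
  exact h1

lemma lm' {k0 M0 : ℕ} (hk0 : k0 * M0 = m) {l : ℕ} (hl : l ∈ PO q M0) :
    l ^ M0.factorization l ∣ q ^ (k - 1) * m' := by
  obtain ⟨hlq, hlp, hlM, _⟩ := mem_PO.mp hl
  have hM0m : M0 ∣ m := Dvd.intro_left _ hk0
  have h1 : l ^ M0.factorization l ∣ q ^ k * m' := by
    rw [H.hqm]; exact (Nat.ordProj_dvd M0 l).trans hM0m
  exact ((Nat.Coprime.pow _ _ ((Nat.coprime_primes hlp H.hq).mpr hlq)).dvd_of_dvd_mul_left
    h1).mul_left _

variable {J : Finset ℕ} (hJ : MJ q k m' m J)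

include hJ

lemma Sb_vx {k0 M0 : ℕ} {α β : ℕ → ℕ} (hk0 : k0 * M0 = m) (hqk0 : ¬ q ∣ k0) {x : ℕ}
    (hx : Sb q M0 α β J x ≠ 0) : Vx q k M0 α β x := by
  have hfq := H.facq hk0 hqk0
  obtain ⟨κ, hκ, hb⟩ := Finset.exists_ne_zero_of_sum_ne_zero hx
  obtain ⟨h1, h2⟩ := bxx_ne hb
  rw [hfq] at h1
  have hone : ∀ n, n ∣ q ^ (k - 1) * m' → κ * x ≡ x [MOD n] := by
    intro n hn
    have := ((hJ.one κ hκ).of_dvd hn).mul_right x
    rwa [one_mul] at this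
  refine ⟨(hone _ (Dvd.intro _ rfl)).symm.trans (h1.of_dvd (pow_dvd_pow q (Nat.sub_le k 1))),
    fun l hl => ?_⟩
  have h3 := (hone _ (H.lm' hk0 hl)).symm
  exact (h2 l hl).imp h3.trans h3.trans

lemma Sb_abs {k0 M0 : ℕ} {α β : ℕ → ℕ} (hk0 : k0 * M0 = m) (hqk0 : ¬ q ∣ k0)
    (hnd : ¬ q ∣ α q) (x : ℕ) : |Sb q M0 α β J x| ≤ 1 := by
  have hq := H.hq
  have hfq := H.facq hk0 hqk0
  have hqK : q ∣ q ^ k := dvd_pow_self q H.hk.ne'
  refine (abs_sum_le_sum_abs _ _).trans ?_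
  have hx1 : ∀ c, bxx q M0 α β (c * x) ≠ 0 → c * x ≡ α q [MOD q ^ k] := by
    intro c hc
    have := (bxx_ne hc).1
    rwa [hfq] at this
  apply sum_le_one (f := fun κ => |bxx q M0 α β (κ * x)|)
  · intro κ; exact bxx_abs _ _ _ _ _
  · intro κ hκ κ' hκ' h1 h2
    have h1' := abs_ne_zero.mp h1
    have h2' := abs_ne_zero.mp h2
    apply hJ.inj κ hκ κ' hκ'
    have hxq : Nat.Coprime (q ^ k) x := by
      apply Nat.Coprime.pow_left
      rw [Nat.Prime.coprime_iff_not_dvd hq]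
      intro h
      exact hnd ((((hx1 κ h1').of_dvd hqK).dvd_iff dvd_rfl).mp (h.mul_left κ))
    exact Nat.ModEq.cancel_right_of_coprime hxq ((hx1 κ h1').trans (hx1 κ' h2').symm)

omit hJ in
/-- the sum with the negative -/
lemma neg_sum {n x w : ℕ} (hn : n ∣ q ^ (k - 1) * m') (h : (m - 1) * x ≡ w [MOD n]) :
    n ∣ x + w := by
  have h1 : x + w ≡ x + (m - 1) * x [MOD n] := h.symm.add_left x
  rw [H.m1s] at h1
  exact (Nat.modEq_zero_iff_dvd).mp (h1.trans ((Nat.modEq_zero_iff_dvd).mpr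
    ((hn.trans H.dm).mul_right _)))

/-- signs -/
lemma gi_le {k0 M0 : ℕ} {α β : ℕ → ℕ} (hk0 : k0 * M0 = m) (hqk0 : ¬ q ∣ k0)
    (HA : Adx q M0 α β) (h2M : ¬ 2 ∣ M0 ∨ 4 ∣ M0)
    (hgood : 2 ≤ k ∨ ∃ l ∈ PO q M0, ¬ l ^ M0.factorization l ∣ α l + β l) (x : ℕ) :
    |GI J.val (J.val.map fun κ => (m - 1) * κ) (bxx q M0 α β) x| ≤ 1 := by
  rw [GI_eq]
  by_cases h1 : Sb q M0 α β J x = 0
  · rw [h1, zero_sub, abs_neg]
    exact H.Sb_abs hJ hk0 hqk0 HA.ndq _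
  by_cases h2 : Sb q M0 α β J ((m - 1) * x) = 0
  · rw [h2, sub_zero]
    exact H.Sb_abs hJ hk0 hqk0 HA.ndq _
  exfalso
  obtain ⟨p1, r1⟩ := H.Sb_vx hJ hk0 hqk0 h1
  obtain ⟨p2, r2⟩ := H.Sb_vx hJ hk0 hqk0 h2
  rcases hgood with hk2 | ⟨l, hl, hne⟩
  · have h3 := H.neg_sum (Dvd.intro _ rfl) p2
    have h4 : q ^ (k - 1) ∣ α q + α q := (((p1.add_right _).dvd_iff dvd_rfl).mp h3)
    have h5 : q ∣ α q + α q := (dvd_pow_self q (by omega)).trans h4
    rw [← mul_two] at h5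
    exact HA.ndq (H.q2.dvd_of_dvd_mul_right h5)
  · have hln := H.lm' hk0 hl
    have key : ∀ {w1 w2}, x ≡ w1 [MOD l ^ M0.factorization l] →
        (m - 1) * x ≡ w2 [MOD l ^ M0.factorization l] → l ^ M0.factorization l ∣ w1 + w2 := by
      intro w1 w2 a1 a2
      exact ((a1.add_right _).dvd_iff dvd_rfl).mp (H.neg_sum hln a2)
    rcases r1 l hl with a1 | a1 <;> rcases r2 l hl with a2 | a2
    · exact Ctx2.nd2 h2M hl (HA.nda l hl) (key a1 a2)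
    · exact hne (key a1 a2)
    · have h3 := key a1 a2
      rw [add_comm] at h3
      exact hne h3
    · exact Ctx2.nd2 h2M hl (HA.ndb l hl) (key a1 a2)

/-- doubling without a match -/
lemma gi2_le {k0 M0 : ℕ} {α β : ℕ → ℕ} (hk0 : k0 * M0 = m) (hqk0 : ¬ q ∣ k0)
    (HA : Adx q M0 α β)
    (h1 : ∀ x, |GI J.val (J.val.map fun κ => (m - 1) * κ) (bxx q M0 α β) x| ≤ 1)
    (hplus : 2 ≤ k ∨ ∃ l ∈ PO q M0, ∀ a b, (a = α l ∨ a = β l) → (b = α l ∨ b = β l) →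
      ¬ 2 * a ≡ b [MOD l ^ M0.factorization l])
    (hminus : 2 ≤ k ∨ ∃ l ∈ PO q M0, ∀ a b, (a = α l ∨ a = β l) → (b = α l ∨ b = β l) →
      ¬ l ^ M0.factorization l ∣ 2 * a + b) (x : ℕ) :
    |GI J.val (J.val.map fun κ => (m - 1) * κ) (bxx q M0 α β) (2 * x) -
      GI J.val (J.val.map fun κ => (m - 1) * κ) (bxx q M0 α β) x| ≤ 1 := by
  by_cases e1 : GI J.val (J.val.map fun κ => (m - 1) * κ) (bxx q M0 α β) x = 0
  · rw [e1, sub_zero]; exact h1 _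
  by_cases e2 : GI J.val (J.val.map fun κ => (m - 1) * κ) (bxx q M0 α β) (2 * x) = 0
  · rw [e2, zero_sub, abs_neg]; exact h1 _
  exfalso
  rw [GI_eq] at e1 e2
  have f1 : Sb q M0 α β J x ≠ 0 ∨ Sb q M0 α β J ((m - 1) * x) ≠ 0 := by
    by_contra h
    rw [not_or, not_not, not_not] at h
    rw [h.1, h.2, sub_zero] at e1
    exact e1 rfl
  have f2 : Sb q M0 α β J (2 * x) ≠ 0 ∨ Sb q M0 α β J ((m - 1) * (2 * x)) ≠ 0 := by
    by_contra h
    rw [not_or, not_not, not_not] at h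
    rw [h.1, h.2, sub_zero] at e2
    exact e2 rfl
  have hq7 := H.q7
  have hq := H.hq
  -- two congruent vertices
  have P : ∀ z, Sb q M0 α β J z ≠ 0 → Sb q M0 α β J (2 * z) ≠ 0 → False := by
    intro z g1 g2
    obtain ⟨p1, r1⟩ := H.Sb_vx hJ hk0 hqk0 g1
    obtain ⟨p2, r2⟩ := H.Sb_vx hJ hk0 hqk0 g2
    rcases hplus with hk2 | ⟨l, hl, hne⟩
    · have h3 : 2 * α q ≡ α q [MOD q ^ (k - 1)] := (p1.mul_left 2).symm.trans p2
      have h4 : 2 * α q ≡ α q [MOD q] := h3.of_dvd (dvd_pow_self q (by omega))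
      have h5 : α q + α q ≡ α q + 0 [MOD q] := by rw [← two_mul, add_zero]; exact h4
      exact HA.ndq ((Nat.modEq_zero_iff_dvd).mp (Nat.ModEq.add_left_cancel' _ h5))
    · rcases r1 l hl with a1 | a1 <;> rcases r2 l hl with a2 | a2
      · exact hne _ _ (Or.inl rfl) (Or.inl rfl) ((a1.mul_left 2).symm.trans a2)
      · exact hne _ _ (Or.inl rfl) (Or.inr rfl) ((a1.mul_left 2).symm.trans a2)
      · exact hne _ _ (Or.inr rfl) (Or.inl rfl) ((a1.mul_left 2).symm.trans a2)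
      · exact hne _ _ (Or.inr rfl) (Or.inr rfl) ((a1.mul_left 2).symm.trans a2)
  -- two opposite vertices
  have N : ∀ z w, Sb q M0 α β J z ≠ 0 → Sb q M0 α β J w ≠ 0 →
      (∀ n, n ∣ q ^ (k - 1) * m' → n ∣ 2 * z + w) → False := by
    intro z w g1 g2 hzw
    obtain ⟨p1, r1⟩ := H.Sb_vx hJ hk0 hqk0 g1
    obtain ⟨p2, r2⟩ := H.Sb_vx hJ hk0 hqk0 g2
    have key : ∀ {n a b : ℕ}, n ∣ q ^ (k - 1) * m' → z ≡ a [MOD n] → w ≡ b [MOD n] →
        n ∣ 2 * a + b := by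
      intro n a b hn ha hb
      have h3 : 2 * z + w ≡ 2 * a + b [MOD n] := (ha.mul_left 2).add hb
      exact (h3.dvd_iff dvd_rfl).mp (hzw n hn)
    rcases hminus with hk2 | ⟨l, hl, hne⟩
    · have h3 := key (Dvd.intro _ rfl) p1 p2
      have h4 : q ∣ 3 * α q := by
        have h5 := (dvd_pow_self q (by omega : k - 1 ≠ 0)).trans h3
        have e : 2 * α q + α q = 3 * α q := by ring
        rwa [e] at h5
      rcases (Nat.Prime.dvd_mul hq).mp h4 with h5 | h5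
      · have := Nat.le_of_dvd (by norm_num) h5
        omega
      · exact HA.ndq h5
    · have hln := H.lm' hk0 hl
      rcases r1 l hl with a1 | a1 <;> rcases r2 l hl with a2 | a2
      · exact hne _ _ (Or.inl rfl) (Or.inl rfl) (key hln a1 a2)
      · exact hne _ _ (Or.inl rfl) (Or.inr rfl) (key hln a1 a2)
      · exact hne _ _ (Or.inr rfl) (Or.inl rfl) (key hln a1 a2)
      · exact hne _ _ (Or.inr rfl) (Or.inr rfl) (key hln a1 a2)
  rcases f1 with f1 | f1 <;> rcases f2 with f2 | f2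
  · exact P x f1 f2
  · refine N x _ f1 f2 fun n hn => ?_
    have e : 2 * x + (m - 1) * (2 * x) = m * (2 * x) := H.m1s _
    rw [e]
    exact (hn.trans H.dm).mul_right _
  · refine N _ (2 * x) f1 f2 fun n hn => ?_
    have e : 2 * ((m - 1) * x) + 2 * x = m * (2 * x) := by
      rw [← H.m1s]; ring
    rw [e]
    exact (hn.trans H.dm).mul_right _
  · refine P _ f1 ?_
    have e : 2 * ((m - 1) * x) = (m - 1) * (2 * x) := by ring
    rw [e]
    exact f2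

end Ctx4

end Pool.Agent.J4.H26.Ew
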