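import Pool.Agent.J4.H26.Ew.Sup5

/-!
The functional of a short invariant multiset in terms of two functionals, of levels `4 * q` and
`3 * q`.
-/

set_option autoImplicit false
set_option linter.unusedSectionVars false

namespace Pool.Agent.J4.H26.Ew

open Finset Pool.Agent.Y2 Pool.Agent.J4.H26.Od Pool.Agent.J4.H26.Ev
open Pool.Agent.H916R2 hiding LL

/-- odd distributions of level three -/
lemma coef3 (y : ZMod 3) : ∃ β : ℤ, ∀ c : ZMod 3 → ℚ, OddDist c → c y = β * c 1 := by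
  fin_cases y
  · exact ⟨0, fun c hc => by
      change c 0 = _
      rw [hc.half 0 (by decide)]; simp⟩
  · exact ⟨1, fun c hc => by
      change c 1 = _; push_cast; ring⟩
  · exact ⟨-1, fun c hc => by
      change c 2 = _
      have : c 2 = - c 1 := by rw [← hc.neg]; rfl
      rw [this]; push_cast; ring⟩

namespace Ctx4

section general

variable {q k m' m : ℕ} {A : Multiset ℕ} (H : Ctx4 q k m' m A)

include H

lemma LL_expand_int {D : ℕ → ℕ → ℤ} (hD : ∀ b, TD q m (PO q m) (D b) ∧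
    ∀ x, IsB q m x → D b x = if x % m = b then 1 else 0) {C : ℕ → ℤ} (hC : TD q m (PO q m) C) :
    LL m A C = ∑ b ∈ BN q m, C b * LL m A (D b) := by
  have h1 := H.LL_expand hD (hC.map (Int.castAddHom ℚ))
  have h2 : LL m A (fun x => ((C x : ℤ) : ℚ)) = ((LL m A C : ℤ) : ℚ) := LL_cast C
  change LL m A (fun x => ((C x : ℤ) : ℚ)) = _ at h1
  rw [h2] at h1
  have h3 : ((LL m A C : ℤ) : ℚ) = ((∑ b ∈ BN q m, C b * LL m A (D b) : ℤ) : ℚ) := by
    rw [h1]; push_cast; rfl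
  exact_mod_cast h3

/-- nothing if `k` is not one -/
theorem zero_of_k (hk : k ≠ 1) {C : ℕ → ℤ} (hC : TD q m (PO q m) C) : LL m A C = 0 := by
  obtain ⟨D, hD⟩ := H.exists_dual
  rw [H.LL_expand_int hD hC]
  apply sum_eq_zero
  intro b hb
  by_cases hn : LL m A (D b) = 0
  · rw [hn, mul_zero]
  · exact absurd (H.supp hD hb hn).1 hk

lemma LL_odd {C : ℕ → ℤ} (hC : ∀ x y, m ∣ x + y → C y = - C x) :
    LL m A C = 2 * (A.map C).sum := by
  unfold Od.LL
  rw [← Multiset.sum_map_mul_left]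
  congr 1
  apply Multiset.map_congr rfl
  intro a _
  rw [hC a ((m - 1) * a) (by rw [H.m1s]; exact Dvd.intro _ rfl)]
  ring

lemma LL_abs {C : ℕ → ℚ} {B : ℚ} (hB : ∀ x, |C x| ≤ B) :
    |LL m A C| ≤ 2 * B * Multiset.card A := by
  unfold Od.LL
  refine (abs_msum_le _ _).trans ?_
  have h3 : (A.map fun a => |C a - C ((m - 1) * a)|).sum ≤ (A.map fun _ => 2 * B).sum := by
    apply Multiset.sum_map_le_sum_map
    intro a _
    refine (abs_sub _ _).trans ?_
    have h1 := hB a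
    have h2 := hB ((m - 1) * a)
    linarith
  refine h3.trans ?_
  rw [Multiset.map_const', Multiset.sum_replicate, nsmul_eq_mul]
  linarith

end general

variable {q m' m : ℕ} {A : Multiset ℕ} (H : Ctx4 q 1 m' m A)

include H

lemma qm : q * m' = m := by
  have := H.hqm
  rwa [pow_one] at this

lemma exists_IsJ : ∃ J, IsJ q m' m J := by
  obtain ⟨J, h1, h2, h3⟩ := H.exists_J
  refine ⟨J, ?_, fun κ hκ => (h2 κ hκ).1, ?_, ?_⟩
  · simpa [nm] using h1
  · intro κ hκ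
    have := (h2 κ hκ).2
    simpa using this
  · intro κ hκ κ' hκ' h
    exact h3 κ hκ κ' hκ' (by simpa using h)

/-- the basis elements of small level -/
lemma three_of_BN {b : ℕ} (hb : b ∈ BN q m) (h4 : ¬ 4 ∣ m') (h12 : m' ∣ b * 12) :
    m' ∣ b * 3 := by
  by_cases h2 : 2 ∣ m'
  · obtain ⟨u, hu⟩ := h2
    have hu1 : u % 2 = 1 := by omega
    have hqo : q % 2 = 1 := by
      rcases H.hq.eq_two_or_odd with h | h
      · have := H.q7; omega
      · exact h
    have hfac : m.factorization 2 = 1 := by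
      have hm2 : m = 2 * (q * u) := by rw [← H.qm, hu]; ring
      have hodd : ¬ 2 ∣ q * u := by
        intro h
        rcases (Nat.Prime.dvd_mul Nat.prime_two).mp h with h | h <;> omega
      have hqu : q * u ≠ 0 := by
        intro h; rw [h] at hodd; exact hodd (dvd_zero 2)
      rw [hm2, Nat.factorization_mul (by norm_num) hqu, Finsupp.add_apply,
        Nat.Prime.factorization_self Nat.prime_two,
        Nat.factorization_eq_zero_of_not_dvd hodd]
    have h2m : 2 ∈ PO q m := mem_PO.mpr ⟨by have := H.q7; omega, Nat.prime_two,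
      by rw [← H.qm, hu]; exact ⟨q * u, by ring⟩, H.hm⟩
    have hTT := (mem_filter.mp hb).2.2 2 h2m
    unfold TT at hTT
    rw [hfac] at hTT
    have h2b : 2 ∣ b := by
      norm_num at hTT
      omega
    rw [hu] at h12 ⊢
    have h3 : u ∣ b * 12 := (Dvd.intro_left 2 rfl).trans h12
    have hcu : Nat.Coprime u 4 := by
      have : Nat.Coprime u 2 := by
        rw [Nat.coprime_comm, Nat.Prime.coprime_iff_not_dvd Nat.prime_two]; omega
      exact this.pow_right 2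
    have h5 : u ∣ b * 3 := by
      apply hcu.dvd_of_dvd_mul_right
      rw [mul_assoc]
      exact h3
    exact Nat.Coprime.mul_dvd_of_dvd_of_dvd (by
      rw [Nat.Prime.coprime_iff_not_dvd Nat.prime_two]; omega) (h2b.mul_right 3) h5
  · have hc : Nat.Coprime m' 4 := by
      have : Nat.Coprime m' 2 := by
        rw [Nat.coprime_comm, Nat.Prime.coprime_iff_not_dvd Nat.prime_two]; exact h2
      exact this.pow_right 2
    apply hc.dvd_of_dvd_mul_right
    rw [mul_assoc]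
    exact h12

variable {J : Finset ℕ} (hJ : IsJ q m' m J)

include hJ

lemma jd : JD q m' m J := ⟨hJ, H.hq, H.hm, H.qm, H.hqm'⟩

lemma avgJ {D : ℕ → ℕ → ℤ} (hD : ∀ b, TD q m (PO q m) (D b) ∧
    ∀ x, IsB q m x → D b x = if x % m = b then 1 else 0) {C : ℕ → ℚ} (hC : TD q m (PO q m) C) :
    ((q : ℚ) - 1) * LL m A C = ∑ b ∈ BN q m, SJ J C b * ((LL m A (D b) : ℤ) : ℚ) := by
  have h1 : ∀ κ ∈ J, LL m A C = ∑ b ∈ BN q m, C (κ * b) * ((LL m A (D b) : ℤ) : ℚ) := by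
    intro κ hκ
    rw [← H.LL_inv_rat hC (hJ.cop κ hκ) (by simpa using hJ.one κ hκ)]
    exact H.LL_expand hD (hC.mul H.hPp (hJ.cop κ hκ))
  have h2 : (J.card : ℚ) * LL m A C =
      ∑ κ ∈ J, ∑ b ∈ BN q m, C (κ * b) * ((LL m A (D b) : ℤ) : ℚ) := by
    rw [← sum_congr rfl h1, sum_const, nsmul_eq_mul]
  rw [hJ.card, Nat.cast_sub H.hq.one_le, Nat.cast_one, sum_comm] at h2
  rw [h2]
  refine sum_congr rfl fun b _ => ?_
  unfold SJ
  rw [sum_mul]

/-- the coefficients -/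
lemma coef {D : ℕ → ℕ → ℤ} (hD : ∀ b, TD q m (PO q m) (D b) ∧
    ∀ x, IsB q m x → D b x = if x % m = b then 1 else 0) {b : ℕ}
    (hb : b ∈ BN q m) (hn : LL m A (D b) ≠ 0) :
    ∃ α β : ℤ, (¬ 4 ∣ m' → α = 0) ∧ (¬ 3 ∣ m' → β = 0) ∧ ∀ C : ℕ → ℚ, TD q m (PO q m) C →
      (∀ x y, m ∣ x + y → C y = - C x) →
      SJ J C b = α * GG q m' J C ((m' / 4 : ℕ) : ZMod m') +
        β * GG q m' J C ((m' / 3 : ℕ) : ZMod m') := by
  have HJ := H.jd hJ
  have hq := H.hq
  have hm' := HJ.hm'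
  have hN : NeZero m' := ⟨hm'⟩
  have hqb : ¬ q ∣ b := (mem_filter.mp hb).2.1
  have h1 : m' ∣ b * 12 := by
    have h2 := (H.supp hD hb hn).2
    rw [← H.qm] at h2
    have h3 : q * m' ∣ q * (Nat.gcd b m * 12) := by
      have e : q * (Nat.gcd b m * 12) = Nat.gcd b m * (12 * q) := by ring
      rw [e, H.qm]; rw [H.qm] at h2; exact h2
    exact (Nat.dvd_of_mul_dvd_mul_left hq.pos h3).trans
      (Nat.mul_dvd_mul_right (Nat.gcd_dvd_left _ _) 12)
  by_cases h4 : 4 ∣ m'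
  · obtain ⟨w, hw'⟩ := h4
    have hw : 4 * w = m' := hw'.symm
    have hw4 : m' / 4 = w := by omega
    rw [hw4]
    by_cases h3 : 3 ∣ m'
    · obtain ⟨u, hu⟩ : 12 ∣ m' := by
        have : 4 * 3 ∣ m' := Nat.Coprime.mul_dvd_of_dvd_of_dvd (by norm_num) (Dvd.intro _ hw) h3
        simpa using this
      have hwu : w = 3 * u := by omega
      have hlu : m' / 3 = 4 * u := by omega
      obtain ⟨y, hy⟩ : u ∣ b := by
        rw [hu, mul_comm b 12] at h1
        exact Nat.dvd_of_mul_dvd_mul_left (by norm_num) h1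
      obtain ⟨α, β, h⟩ := coef12 (y : ZMod 12)
      refine ⟨α, β, fun h => absurd (Dvd.intro _ hw) h, fun h => absurd h3 h,
        fun C hC hodd => ?_⟩
      have hum : u * 12 = m' := by rw [hu]; ring
      have h5 := h _ ((HJ.GG_odd hC hodd).comp_iota hum)
      have e1 : (iota u (y : ZMod 12) : ZMod m') = ((b : ℕ) : ZMod m') := by
        rw [iota_natCast hum, hy]
      have e2 : (iota u (3 : ZMod 12) : ZMod m') = ((w : ℕ) : ZMod m') := by
        have := iota_natCast hum 3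
        rw [hwu, mul_comm 3 u]
        exact this
      have e3 : (iota u (4 : ZMod 12) : ZMod m') = ((m' / 3 : ℕ) : ZMod m') := by
        have := iota_natCast hum 4
        rw [hlu, mul_comm 4 u]
        exact this
      rw [e1, e2, e3, HJ.GG_nat hC hqb] at h5
      exact h5
    · have h2 : m' ∣ b * 4 := by
        have h4 : Nat.Coprime m' 3 := by
          rw [Nat.coprime_comm, Nat.Prime.coprime_iff_not_dvd Nat.prime_three]; exact h3
        have e : b * 12 = b * 4 * 3 := by ring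
        rw [e] at h1
        exact h4.dvd_of_dvd_mul_right h1
      obtain ⟨y, hy⟩ : w ∣ b := by
        rw [← hw, mul_comm b 4] at h2
        exact Nat.dvd_of_mul_dvd_mul_left (by norm_num) h2
      obtain ⟨α, h⟩ := coef4 (y : ZMod 4)
      refine ⟨α, 0, fun h => absurd (Dvd.intro _ hw) h, fun _ => rfl, fun C hC hodd => ?_⟩
      have hwm : w * 4 = m' := by rw [← hw]; ring
      have h5 := h _ ((HJ.GG_odd hC hodd).comp_iota hwm)
      have e1 : (iota w (y : ZMod 4) : ZMod m') = ((b : ℕ) : ZMod m') := by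
        rw [iota_natCast hwm, hy]
      have e2 : (iota w (1 : ZMod 4) : ZMod m') = ((w : ℕ) : ZMod m') := by
        have := iota_natCast hwm 1
        rw [mul_one] at this
        rw [← this]; norm_num
      rw [e1, e2, HJ.GG_nat hC hqb] at h5
      rw [h5]; simp
  · have h2 := H.three_of_BN hb h4 h1
    by_cases h3 : 3 ∣ m'
    · obtain ⟨l, hl'⟩ := h3
      have hl : l * 3 = m' := by rw [hl']; ring
      have hl3 : m' / 3 = l := by omega
      rw [hl3]
      obtain ⟨y, hy⟩ : l ∣ b := by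
        rw [← hl] at h2
        exact Nat.dvd_of_mul_dvd_mul_right (by norm_num) h2
      obtain ⟨β, h⟩ := coef3 (y : ZMod 3)
      refine ⟨0, β, fun _ => rfl, fun h => absurd (Dvd.intro_left _ hl) h,
        fun C hC hodd => ?_⟩
      have h5 := h _ ((HJ.GG_odd hC hodd).comp_iota hl)
      have e1 : (iota l (y : ZMod 3) : ZMod m') = ((b : ℕ) : ZMod m') := by
        rw [iota_natCast hl, hy]
      have e2 : (iota l (1 : ZMod 3) : ZMod m') = ((l : ℕ) : ZMod m') := by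
        have := iota_natCast hl 1
        rw [mul_one] at this
        rw [← this]; norm_num
      rw [e1, e2, HJ.GG_nat hC hqb] at h5
      rw [h5]; simp
    · have h6 : m' ∣ b := by
        have h7 : Nat.Coprime m' 3 := by
          rw [Nat.coprime_comm, Nat.Prime.coprime_iff_not_dvd Nat.prime_three]; exact h3
        exact h7.dvd_of_dvd_mul_right h2
      refine ⟨0, 0, fun _ => rfl, fun _ => rfl, fun C hC hodd => ?_⟩
      rw [← HJ.GG_nat hC hqb, (ZMod.natCast_eq_zero_iff b m').mpr h6]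
      rw [(HJ.GG_odd hC hodd).half 0 (by simp)]
      simp

/-- the functional in terms of two averages -/
lemma formula : ∃ P R : ℤ, (¬ 4 ∣ m' → P = 0) ∧ (¬ 3 ∣ m' → R = 0) ∧
    ∀ C : ℕ → ℚ, TD q m (PO q m) C → ((q : ℚ) - 1) * LL m A C =
      P * GG q m' J C ((m' / 4 : ℕ) : ZMod m') + R * GG q m' J C ((m' / 3 : ℕ) : ZMod m') := by
  classical
  have HJ := H.jd hJ
  have hm' := HJ.hm'
  have hN : NeZero m' := ⟨hm'⟩
  obtain ⟨D, hD⟩ := H.exists_dual
  have hex : ∀ b : ℕ, ∃ α β : ℤ, (¬ 4 ∣ m' → α = 0) ∧ (¬ 3 ∣ m' → β = 0) ∧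
      (b ∈ BN q m → LL m A (D b) ≠ 0 →
      ∀ C : ℕ → ℚ, TD q m (PO q m) C → (∀ x y, m ∣ x + y → C y = - C x) →
      SJ J C b = α * GG q m' J C ((m' / 4 : ℕ) : ZMod m') +
        β * GG q m' J C ((m' / 3 : ℕ) : ZMod m')) := by
    intro b
    by_cases h : b ∈ BN q m ∧ LL m A (D b) ≠ 0
    · obtain ⟨α, β, h0, h1, h2⟩ := H.coef hJ hD h.1 h.2
      exact ⟨α, β, h0, h1, fun _ _ => h2⟩
    · exact ⟨0, 0, fun _ => rfl, fun _ => rfl, fun h1 h2 => absurd ⟨h1, h2⟩ h⟩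
  choose α β hα hβ hαβ using hex
  have hPz : ¬ 4 ∣ m' → (∑ b ∈ BN q m, α b * LL m A (D b) : ℤ) = 0 := by
    intro h
    apply sum_eq_zero
    intro b _
    rw [hα b h, zero_mul]
  have hRz : ¬ 3 ∣ m' → (∑ b ∈ BN q m, β b * LL m A (D b) : ℤ) = 0 := by
    intro h
    apply sum_eq_zero
    intro b _
    rw [hβ b h, zero_mul]
  refine ⟨∑ b ∈ BN q m, α b * LL m A (D b), ∑ b ∈ BN q m, β b * LL m A (D b), hPz, hRz, ?_⟩
  have hoddC : ∀ C : ℕ → ℚ, TD q m (PO q m) C → (∀ x y, m ∣ x + y → C y = - C x) →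
      ((q : ℚ) - 1) * LL m A C =
      ((∑ b ∈ BN q m, α b * LL m A (D b) : ℤ) : ℚ) * GG q m' J C ((m' / 4 : ℕ) : ZMod m') +
      ((∑ b ∈ BN q m, β b * LL m A (D b) : ℤ) : ℚ) * GG q m' J C ((m' / 3 : ℕ) : ZMod m') := by
    intro C hC hodd
    rw [H.avgJ hJ hD hC]
    push_cast
    rw [sum_mul, sum_mul, ← sum_add_distrib]
    refine sum_congr rfl fun b hb => ?_
    by_cases hn : LL m A (D b) = 0
    · rw [hn]; simp
    · rw [hαβ b hb hn C hC hodd]; ring
  intro C hC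
  -- the odd part
  set Cm : ℕ → ℚ := fun x => C x - C ((m - 1) * x) with hCm
  have hCmT : TD q m (PO q m) Cm := hC.sub (hC.mul H.hPp H.m1c)
  have hCmo : ∀ x y, m ∣ x + y → Cm y = - Cm x := by
    intro x y hxy
    have h1 := H.neg_modEq hxy
    have h2 : (m - 1) * y ≡ x [MOD m] := (h1.mul_left (m - 1)).trans (H.neg_neg_modEq x)
    simp only [hCm]
    rw [hC.per _ _ h1, hC.per _ _ h2]
    ring
  have hLL : LL m A Cm = 2 * LL m A C := by
    unfold Od.LL
    rw [← Multiset.sum_map_mul_left]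
    congr 1
    apply Multiset.map_congr rfl
    intro a _
    simp only [hCm]
    rw [hC.per _ _ (H.neg_neg_modEq a)]
    ring
  have hGG : ∀ x : ZMod m', GG q m' J Cm x = GG q m' J C x - GG q m' J C (-x) := by
    intro x
    set b := rp q m' x with hb
    have hqb : ¬ q ∣ b := rp_ndvd H.hqm' x
    have hba : ((b : ℕ) : ZMod m') = x := rp_cast x
    have h1 : (((m - 1) * b : ℕ) : ZMod m') = -x := by
      have h2 : ((b + (m - 1) * b : ℕ) : ZMod m') = 0 := by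
        rw [HJ.m1s, ZMod.natCast_eq_zero_iff]
        exact HJ.mm.mul_right b
      push_cast at h2 ⊢
      rw [hba] at h2 ⊢
      linear_combination h2
    rw [← h1, HJ.GG_nat hC (HJ.nq hqb)]
    change SJ J Cm b = SJ J C b - SJ J C ((m - 1) * b)
    unfold SJ
    rw [← sum_sub_distrib]
    refine sum_congr rfl fun κ _ => ?_
    simp only [hCm]
    congr 2
    ring
  have h5 := hoddC Cm hCmT hCmo
  rw [hLL] at h5
  have h4w : ((∑ b ∈ BN q m, α b * LL m A (D b) : ℤ) : ℚ) *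
      GG q m' J Cm ((m' / 4 : ℕ) : ZMod m') =
      2 * (((∑ b ∈ BN q m, α b * LL m A (D b) : ℤ) : ℚ) *
      GG q m' J C ((m' / 4 : ℕ) : ZMod m')) := by
    by_cases h4 : 4 ∣ m'
    · have hw : 4 * (m' / 4) = m' := Nat.mul_div_cancel' h4
      have h6 : GG q m' J Cm ((m' / 4 : ℕ) : ZMod m') =
          2 * GG q m' J C ((m' / 4 : ℕ) : ZMod m') := by
        rw [hGG]
        have h1 : -((m' / 4 : ℕ) : ZMod m') = ((3 * (m' / 4) : ℕ) : ZMod m') := by
          have h0 : ((4 * (m' / 4) : ℕ) : ZMod m') = 0 := by rw [hw]; exact ZMod.natCast_self m'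
          rw [Nat.cast_mul] at h0 ⊢
          push_cast at h0 ⊢
          linear_combination (-1 : ZMod m') * h0
        rw [h1, HJ.GG_four hC hw]; ring
      rw [h6]; ring
    · rw [hPz h4]; simp
  have h3l : ((∑ b ∈ BN q m, β b * LL m A (D b) : ℤ) : ℚ) *
      GG q m' J Cm ((m' / 3 : ℕ) : ZMod m') =
      2 * (((∑ b ∈ BN q m, β b * LL m A (D b) : ℤ) : ℚ) *
      GG q m' J C ((m' / 3 : ℕ) : ZMod m')) := by
    by_cases h3 : 3 ∣ m'
    · have hl : 3 * (m' / 3) = m' := Nat.mul_div_cancel' h3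
      have h6 : GG q m' J Cm ((m' / 3 : ℕ) : ZMod m') =
          2 * GG q m' J C ((m' / 3 : ℕ) : ZMod m') := by
        rw [hGG]
        have h1 : -((m' / 3 : ℕ) : ZMod m') = ((2 * (m' / 3) : ℕ) : ZMod m') := by
          have h0 : ((3 * (m' / 3) : ℕ) : ZMod m') = 0 := by rw [hl]; exact ZMod.natCast_self m'
          rw [Nat.cast_mul] at h0 ⊢
          push_cast at h0 ⊢
          linear_combination (-1 : ZMod m') * h0
        rw [h1, HJ.GG_three hC hl]; ring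
      rw [h6]; ring
    · rw [hRz h3]; simp
  rw [h4w, h3l] at h5
  linarith

/-- a basis element of order three -/
lemma exists_three {l : ℕ} (hl : 3 * l = m') : ∃ y3, ¬ 3 ∣ y3 ∧ y3 < 3 ∧ IsB q m (l * y3) := by
  have := H.q7
  obtain ⟨y, h1, h2, h3⟩ := exists_B (r := 3) (j := 1) H.hq H.hm H.qm H.hqm' Nat.prime_three
    (by norm_num) (w := l) (by rw [← hl]; norm_num) (by norm_num) (by norm_num; omega)
  exact ⟨y, h1, by simpa using h2, h3⟩

/-- a basis element of order four -/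
lemma exists_four {w : ℕ} (hw : 4 * w = m') : ∃ y4, ¬ 2 ∣ y4 ∧ y4 < 4 ∧ IsB q m (w * y4) := by
  have := H.q7
  obtain ⟨y, h1, h2, h3⟩ := exists_B (r := 2) (j := 2) H.hq H.hm H.qm H.hqm' Nat.prime_two
    (by norm_num) (w := w) (by rw [← hw]; norm_num) (by norm_num) (by norm_num; omega)
  exact ⟨y, h1, by simpa using h2, h3⟩

omit hJ in
lemma exists_twelve {w l : ℕ} (hw : 4 * w = m') (hl : 3 * l = m') :
    ∃ u, m' = 12 * u ∧ w = 3 * u ∧ l = 4 * u ∧ u ≠ 0 := by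
  have hm' : m' ≠ 0 := by
    have := H.qm
    rintro rfl
    rw [mul_zero] at this
    exact H.hm this.symm
  obtain ⟨u, hu⟩ : 12 ∣ m' := by
    have : 4 * 3 ∣ m' := Nat.Coprime.mul_dvd_of_dvd_of_dvd (by norm_num) (Dvd.intro _ hw)
      (Dvd.intro _ hl)
    simpa using this
  refine ⟨u, hu, by omega, by omega, ?_⟩
  rintro rfl
  exact hm' hu

/-- the dual basis, at the elements of order three and four -/
lemma cross {w l y3 y4 : ℕ} (hw : 4 * w = m') (hl : 3 * l = m') (h3 : y3 = 1 ∨ y3 = 2)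
    (h4 : y4 = 1 ∨ y4 = 3) : ¬ (l * y3) % m ≡ (w * y4) % m [MOD m'] := by
  have HJ := H.jd hJ
  obtain ⟨u, hu, hwu, hlu, hu0⟩ := H.exists_twelve hw hl
  intro hc
  have h5 : l * y3 ≡ w * y4 [MOD m'] :=
    ((Nat.mod_modEq _ _).of_dvd HJ.mm).symm.trans
      (hc.trans ((Nat.mod_modEq _ _).of_dvd HJ.mm))
  rw [hu, hwu, hlu] at h5
  have h6 : u * (4 * y3) ≡ u * (3 * y4) [MOD u * 12] := by
    have e1 : 4 * u * y3 = u * (4 * y3) := by ring
    have e2 : 3 * u * y4 = u * (3 * y4) := by ring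
    rw [e1, e2, mul_comm 12 u] at h5
    exact h5
  have h7 := Nat.ModEq.mul_left_cancel' hu0 h6
  unfold Nat.ModEq at h7
  omega

lemma val4 {w y4 : ℕ} (hw : 4 * w = m') (h4 : y4 = 1 ∨ y4 = 3) {C : ℕ → ℚ}
    (hC : TD q m (PO q m) C) :
    GG q m' J C (((w * y4) % m : ℕ) : ZMod m') =
      (if y4 = 1 then 1 else -1) * GG q m' J C (w : ZMod m') := by
  have HJ := H.jd hJ
  have hb4c : (((w * y4) % m : ℕ) : ZMod m') = ((w * y4 : ℕ) : ZMod m') := by
    rw [ZMod.natCast_eq_natCast_iff]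
    exact (Nat.mod_modEq _ _).of_dvd HJ.mm
  rw [hb4c]
  rcases h4 with h | h
  · rw [h, mul_one]; simp
  · rw [h, mul_comm w 3, HJ.GG_four hC hw]; simp

lemma val3 {l y3 : ℕ} (hl : 3 * l = m') (h3 : y3 = 1 ∨ y3 = 2) {C : ℕ → ℚ}
    (hC : TD q m (PO q m) C) :
    GG q m' J C (((l * y3) % m : ℕ) : ZMod m') =
      (if y3 = 1 then 1 else -1) * GG q m' J C (l : ZMod m') := by
  have HJ := H.jd hJ
  have hb4c : (((l * y3) % m : ℕ) : ZMod m') = ((l * y3 : ℕ) : ZMod m') := by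
    rw [ZMod.natCast_eq_natCast_iff]
    exact (Nat.mod_modEq _ _).of_dvd HJ.mm
  rw [hb4c]
  rcases h3 with h | h
  · rw [h, mul_one]; simp
  · rw [h, mul_comm l 2, HJ.GG_three hC hl]; simp

/-- the coefficient of level four -/
lemma part4 {w : ℕ} (hw : 4 * w = m') {P R : ℤ} (hR : ¬ 3 ∣ m' → R = 0)
    (hF : ∀ C : ℕ → ℚ, TD q m (PO q m) C → ((q : ℚ) - 1) * LL m A C =
      P * GG q m' J C (w : ZMod m') + R * GG q m' J C ((m' / 3 : ℕ) : ZMod m')) :
    ∃ n : ℤ, P = ((q : ℤ) - 1) * n ∧ |P| ≤ 2 * Multiset.card A := by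
  classical
  have HJ := H.jd hJ
  have hq := H.hq
  have hq7 := H.q7
  have hm' := HJ.hm'
  have hN : NeZero m' := ⟨hm'⟩
  have hq2 : q ≠ 2 := by omega
  have hq1 : (0 : ℚ) < (q : ℚ) - 1 := by
    have : (7 : ℚ) ≤ q := by exact_mod_cast hq7
    linarith
  obtain ⟨D, hD⟩ := H.exists_dual
  have hcast : ∀ b : ℕ, TD q m (PO q m) (fun x => ((D b x : ℤ) : ℚ)) := fun b =>
    (hD b).1.map (Int.castAddHom ℚ)
  obtain ⟨y4, hy4, hy4l, hB4⟩ := H.exists_four hJ hw
  have hy4' : y4 = 1 ∨ y4 = 3 := by omega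
  have hb4 := H.IsB_mod hB4
  have hv4 : ∀ C : ℕ → ℚ, TD q m (PO q m) C →
      GG q m' J C (((w * y4) % m : ℕ) : ZMod m') =
      (if y4 = 1 then 1 else -1) * GG q m' J C (w : ZMod m') := fun C hC =>
    H.val4 hJ hw hy4' hC
  have hD4l : ∀ l, 3 * l = m' →
      GG q m' J (fun x => ((D ((w * y4) % m) x : ℤ) : ℚ)) (l : ZMod m') = 0 := by
    intro l hl
    obtain ⟨y3, h1, h2, h3⟩ := H.exists_three hJ hl
    have hb3 := H.IsB_mod h3
    have hb3q : ¬ q ∣ (l * y3) % m := (mem_filter.mp hb3).2.1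
    have hy3 : y3 = 1 ∨ y3 = 2 := by omega
    have h4 := HJ.SJ_dual hb3 hb4 (hD _).2
    rw [if_neg (H.cross hJ hw hl hy3 hy4')] at h4
    have h5 : GG q m' J (fun x => ((D ((w * y4) % m) x : ℤ) : ℚ))
        (((l * y3) % m : ℕ) : ZMod m') = 0 := by
      rw [HJ.GG_nat (hcast _) hb3q, SJ_cast, h4]; simp
    rw [H.val3 hJ hl hy3 (hcast _)] at h5
    rcases hy3 with h | h
    · rw [if_pos h, one_mul] at h5; exact h5
    · rw [if_neg (by omega), neg_one_mul, neg_eq_zero] at h5; exact h5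
  have hRl : ∀ C : ℕ → ℚ, (∀ l, 3 * l = m' → GG q m' J C (l : ZMod m') = 0) →
      (R : ℚ) * GG q m' J C ((m' / 3 : ℕ) : ZMod m') = 0 := by
    intro C hC
    by_cases h3 : 3 ∣ m'
    · rw [hC _ (Nat.mul_div_cancel' h3), mul_zero]
    · rw [hR h3]; simp
  generalize hb4def : (w * y4) % m = b4 at hb4 hD4l hv4
  have hb4q : ¬ q ∣ b4 := (mem_filter.mp hb4).2.1
  -- the test function of level four
  obtain ⟨f4, hf4, hf4w, hf4s, hf4b⟩ := HJ.exists_test hq2 (t := 4) hw (χ := chi4) (B := 1)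
    (ld_chi4 (fun r hr => by
      obtain ⟨h1, h2, h3, _⟩ := mem_PO.mp hr
      rw [pow_one] at h3
      rcases (Nat.Prime.dvd_mul h2).mp h3 with h | h
      · exact absurd ((Nat.prime_dvd_prime_iff_eq h2 hq).mp h) h1
      · have h4 : r ∣ 2 ^ 2 := by simpa using h
        exact (Nat.prime_dvd_prime_iff_eq h2 Nat.prime_two).mp (h2.dvd_of_dvd_pow h4)))
    (fun x => by unfold chi4; split_ifs <;> simp)
    (fun x hx => by
      have h1 : x % 2 = 1 := by
        unfold chi4 at hx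
        split_ifs at hx <;> omega
      have h2 : Nat.Coprime x 2 := by
        rw [Nat.coprime_comm, Nat.Prime.coprime_iff_not_dvd Nat.prime_two]; omega
      have := Nat.Coprime.pow_right 2 h2
      simpa using this)
    (fun x hx => by
      unfold Nat.ModEq at hx
      unfold chi4
      rw [if_pos (by omega)])
    (Or.inr ⟨by norm_num, rfl⟩)
  have h1 := hF _ (hcast b4)
  rw [hRl _ hD4l, add_zero] at h1
  have h2 : GG q m' J (fun x => ((D b4 x : ℤ) : ℚ)) ((b4 : ℕ) : ZMod m') = 1 := by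
    rw [HJ.GG_nat (hcast b4) hb4q, SJ_cast, HJ.SJ_dual hb4 hb4 (hD b4).2, if_pos (Nat.ModEq.refl _)]
    simp
  rw [hv4 _ (hcast b4)] at h2
  rw [LL_cast (D b4)] at h1
  have h4 := hF f4 hf4
  have hf4l : ∀ l, 3 * l = m' → GG q m' J f4 (l : ZMod m') = 0 := by
    intro l hl
    obtain ⟨u, hu, hwu, hlu, hu0⟩ := H.exists_twelve hw hl
    have hql : ¬ q ∣ l := fun h => H.hqm' (h.trans (Dvd.intro_left _ hl))
    rw [HJ.GG_nat hf4 hql]
    unfold SJ
    apply sum_eq_zero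
    intro κ _
    by_contra hne
    have h5 := hf4s _ hne
    have h6 : l ∣ Nat.gcd (κ * l) m := Nat.dvd_gcd (Dvd.intro_left _ rfl)
      ((Dvd.intro_left _ hl).trans HJ.mm)
    have h7 := h6.trans h5
    rw [hwu, hlu] at h7
    have h8 := Nat.le_of_dvd (by omega) h7
    omega
  rw [hRl f4 hf4l, add_zero, hf4w] at h4
  have h5 : LL m A f4 = P := by
    have h6 : ((q : ℚ) - 1) * (LL m A f4 - P) = 0 := by linarith
    rcases mul_eq_zero.mp h6 with h7 | h7
    · linarith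
    · linarith
  have h6 := H.LL_abs hf4b
  rw [h5] at h6
  have h8 : (|P| : ℤ) ≤ 2 * Multiset.card A := by
    have h9 : ((|P| : ℤ) : ℚ) ≤ ((2 * Multiset.card A : ℕ) : ℚ) := by push_cast; linarith
    exact_mod_cast h9
  have h3 : (P : ℚ) = (if y4 = 1 then 1 else -1) * (((q : ℚ) - 1) * ((LL m A (D b4) : ℤ) : ℚ)) := by
    rw [h1]
    have e : ((if y4 = 1 then 1 else -1) : ℚ) * (P * GG q m' J (fun x => ((D b4 x : ℤ) : ℚ))
        (w : ZMod m')) = P * ((if y4 = 1 then 1 else -1) *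
        GG q m' J (fun x => ((D b4 x : ℤ) : ℚ)) (w : ZMod m')) := by ring
    rw [e, h2, mul_one]
  rcases hy4' with h | h
  · refine ⟨LL m A (D b4), ?_, h8⟩
    rw [if_pos h, one_mul] at h3
    exact_mod_cast h3
  · refine ⟨- LL m A (D b4), ?_, h8⟩
    rw [if_neg (by omega), neg_one_mul] at h3
    have : (P : ℚ) = ((q : ℚ) - 1) * ((-(LL m A (D b4)) : ℤ) : ℚ) := by
      rw [h3]; push_cast; ring
    exact_mod_cast this

/-- the coefficient of level three -/
lemma part3 {l : ℕ} (hl : 3 * l = m') {P R : ℤ} (hP : ¬ 4 ∣ m' → P = 0)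
    (hF : ∀ C : ℕ → ℚ, TD q m (PO q m) C → ((q : ℚ) - 1) * LL m A C =
      P * GG q m' J C ((m' / 4 : ℕ) : ZMod m') + R * GG q m' J C (l : ZMod m')) :
    ∃ n : ℤ, R = ((q : ℤ) - 1) * n ∧ |R| ≤ 4 * Multiset.card A := by
  classical
  have HJ := H.jd hJ
  have hq := H.hq
  have hq7 := H.q7
  have hm' := HJ.hm'
  have hN : NeZero m' := ⟨hm'⟩
  have hq2 : q ≠ 2 := by omega
  have hq1 : (0 : ℚ) < (q : ℚ) - 1 := by
    have : (7 : ℚ) ≤ q := by exact_mod_cast hq7
    linarith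
  obtain ⟨D, hD⟩ := H.exists_dual
  have hcast : ∀ b : ℕ, TD q m (PO q m) (fun x => ((D b x : ℤ) : ℚ)) := fun b =>
    (hD b).1.map (Int.castAddHom ℚ)
  obtain ⟨y3, hy3, hy3l, hB3⟩ := H.exists_three hJ hl
  have hy3' : y3 = 1 ∨ y3 = 2 := by omega
  have hb3 := H.IsB_mod hB3
  have hv3 : ∀ C : ℕ → ℚ, TD q m (PO q m) C →
      GG q m' J C (((l * y3) % m : ℕ) : ZMod m') =
      (if y3 = 1 then 1 else -1) * GG q m' J C (l : ZMod m') := fun C hC =>
    H.val3 hJ hl hy3' hC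
  have hD3w : ∀ w, 4 * w = m' →
      GG q m' J (fun x => ((D ((l * y3) % m) x : ℤ) : ℚ)) (w : ZMod m') = 0 := by
    intro w hw
    obtain ⟨y4, h1, h2, h3⟩ := H.exists_four hJ hw
    have hb4 := H.IsB_mod h3
    have hb4q : ¬ q ∣ (w * y4) % m := (mem_filter.mp hb4).2.1
    have hy4 : y4 = 1 ∨ y4 = 3 := by omega
    have h4 := HJ.SJ_dual hb4 hb3 (hD _).2
    rw [if_neg (fun h => H.cross hJ hw hl hy3' hy4 h.symm)] at h4
    have h5 : GG q m' J (fun x => ((D ((l * y3) % m) x : ℤ) : ℚ))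
        (((w * y4) % m : ℕ) : ZMod m') = 0 := by
      rw [HJ.GG_nat (hcast _) hb4q, SJ_cast, h4]; simp
    rw [H.val4 hJ hw hy4 (hcast _)] at h5
    rcases hy4 with h | h
    · rw [if_pos h, one_mul] at h5; exact h5
    · rw [if_neg (by omega), neg_one_mul, neg_eq_zero] at h5; exact h5
  have hPw : ∀ C : ℕ → ℚ, (∀ w, 4 * w = m' → GG q m' J C (w : ZMod m') = 0) →
      (P : ℚ) * GG q m' J C ((m' / 4 : ℕ) : ZMod m') = 0 := by
    intro C hC
    by_cases h4 : 4 ∣ m'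
    · rw [hC _ (Nat.mul_div_cancel' h4), mul_zero]
    · rw [hP h4]; simp
  generalize hb3def : (l * y3) % m = b3 at hb3 hD3w hv3
  have hb3q : ¬ q ∣ b3 := (mem_filter.mp hb3).2.1
  obtain ⟨f3, hf3, hf3l, hf3s, hf3b⟩ := HJ.exists_test hq2 (t := 3) hl (χ := chi3) (B := 2)
    (ld_chi3 (fun r hr => by
      obtain ⟨h1, h2, h3, _⟩ := mem_PO.mp hr
      rw [pow_one] at h3
      rcases (Nat.Prime.dvd_mul h2).mp h3 with h | h
      · exact absurd ((Nat.prime_dvd_prime_iff_eq h2 hq).mp h) h1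
      · exact (Nat.prime_dvd_prime_iff_eq h2 Nat.prime_three).mp h))
    (fun x => by unfold chi3; split_ifs <;> simp)
    (fun x hx => by
      have h1 : ¬ 3 ∣ x := by
        unfold chi3 at hx
        split_ifs at hx <;> omega
      rw [Nat.coprime_comm, Nat.Prime.coprime_iff_not_dvd Nat.prime_three]
      exact h1)
    (fun x hx => by
      unfold Nat.ModEq at hx
      unfold chi3
      rw [if_pos (by omega)])
    (Or.inl rfl)
  have h1 := hF _ (hcast b3)
  rw [hPw _ hD3w, zero_add] at h1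
  have h2 : GG q m' J (fun x => ((D b3 x : ℤ) : ℚ)) ((b3 : ℕ) : ZMod m') = 1 := by
    rw [HJ.GG_nat (hcast b3) hb3q, SJ_cast, HJ.SJ_dual hb3 hb3 (hD b3).2, if_pos (Nat.ModEq.refl _)]
    simp
  rw [hv3 _ (hcast b3)] at h2
  rw [LL_cast (D b3)] at h1
  have h4 := hF f3 hf3
  have hf3w : ∀ w, 4 * w = m' → GG q m' J f3 (w : ZMod m') = 0 := by
    intro w hw
    obtain ⟨u, hu, hwu, hlu, hu0⟩ := H.exists_twelve hw hl
    have hqw : ¬ q ∣ w := fun h => H.hqm' (h.trans (Dvd.intro_left _ hw))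
    rw [HJ.GG_nat hf3 hqw]
    unfold SJ
    apply sum_eq_zero
    intro κ _
    by_contra hne
    have h5 := hf3s _ hne
    have h6 : w ∣ Nat.gcd (κ * w) m := Nat.dvd_gcd (Dvd.intro_left _ rfl)
      ((Dvd.intro_left _ hw).trans HJ.mm)
    have h7 := h6.trans h5
    rw [hwu, hlu] at h7
    have h8 : 3 ∣ 4 := Nat.dvd_of_mul_dvd_mul_right (Nat.pos_of_ne_zero hu0) h7
    omega
  rw [hPw f3 hf3w, zero_add, hf3l] at h4
  have h5 : LL m A f3 = R := by
    have h6 : ((q : ℚ) - 1) * (LL m A f3 - R) = 0 := by linarith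
    rcases mul_eq_zero.mp h6 with h7 | h7
    · linarith
    · linarith
  have h6 := H.LL_abs hf3b
  rw [h5] at h6
  have h8 : (|R| : ℤ) ≤ 4 * Multiset.card A := by
    have h9 : ((|R| : ℤ) : ℚ) ≤ ((4 * Multiset.card A : ℕ) : ℚ) := by push_cast; linarith
    exact_mod_cast h9
  have h3 : (R : ℚ) = (if y3 = 1 then 1 else -1) * (((q : ℚ) - 1) * ((LL m A (D b3) : ℤ) : ℚ)) := by
    rw [h1]
    have e : ((if y3 = 1 then 1 else -1) : ℚ) * (R * GG q m' J (fun x => ((D b3 x : ℤ) : ℚ))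
        (l : ZMod m')) = R * ((if y3 = 1 then 1 else -1) *
        GG q m' J (fun x => ((D b3 x : ℤ) : ℚ)) (l : ZMod m')) := by ring
    rw [e, h2, mul_one]
  rcases hy3' with h | h
  · refine ⟨LL m A (D b3), ?_, h8⟩
    rw [if_pos h, one_mul] at h3
    exact_mod_cast h3
  · refine ⟨- LL m A (D b3), ?_, h8⟩
    rw [if_neg (by omega), neg_one_mul] at h3
    have : (R : ℚ) = ((q : ℚ) - 1) * ((-(LL m A (D b3)) : ℤ) : ℚ) := by
      rw [h3]; push_cast; ring
    exact_mod_cast this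

/-- **The functional.** -/
theorem trich4 : ∃ n4 n3 : ℤ, (¬ 4 ∣ m' → n4 = 0) ∧ (¬ 3 ∣ m' → n3 = 0) ∧
    ((q : ℤ) - 1) * |n4| ≤ 2 * Multiset.card A ∧ ((q : ℤ) - 1) * |n3| ≤ 4 * Multiset.card A ∧
    ∀ C : ℕ → ℤ, TD q m (PO q m) C →
      LL m A C = n4 * SJ J C (m' / 4) + n3 * SJ J C (m' / 3) := by
  classical
  have HJ := H.jd hJ
  have hq := H.hq
  have hq7 := H.q7
  have hm' := HJ.hm'
  have hq1 : (0 : ℚ) < (q : ℚ) - 1 := by
    have : (7 : ℚ) ≤ q := by exact_mod_cast hq7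
    linarith
  have hq0 : (0 : ℤ) < (q : ℤ) - 1 := by omega
  obtain ⟨P, R, hP, hR, hF⟩ := H.formula hJ
  have h4 : ∃ n : ℤ, (¬ 4 ∣ m' → n = 0) ∧ P = ((q : ℤ) - 1) * n ∧ |P| ≤ 2 * Multiset.card A := by
    by_cases h : 4 ∣ m'
    · obtain ⟨n, h1, h2⟩ := H.part4 hJ (Nat.mul_div_cancel' h) hR hF
      exact ⟨n, fun h' => absurd h h', h1, h2⟩
    · refine ⟨0, fun _ => rfl, by rw [hP h, mul_zero], ?_⟩
      rw [hP h]; simp
  have h3 : ∃ n : ℤ, (¬ 3 ∣ m' → n = 0) ∧ R = ((q : ℤ) - 1) * n ∧ |R| ≤ 4 * Multiset.card A := by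
    by_cases h : 3 ∣ m'
    · obtain ⟨n, h1, h2⟩ := H.part3 hJ (Nat.mul_div_cancel' h) hP hF
      exact ⟨n, fun h' => absurd h h', h1, h2⟩
    · refine ⟨0, fun _ => rfl, by rw [hR h, mul_zero], ?_⟩
      rw [hR h]; simp
  obtain ⟨n4, h41, h42, h43⟩ := h4
  obtain ⟨n3, h31, h32, h33⟩ := h3
  refine ⟨n4, n3, h41, h31, ?_, ?_, ?_⟩
  · rw [h42, abs_mul, abs_of_pos hq0] at h43; exact h43
  · rw [h32, abs_mul, abs_of_pos hq0] at h33; exact h33
  intro C hC
  have h1 := hF _ (hC.map (Int.castAddHom ℚ))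
  change ((q : ℚ) - 1) * LL m A (fun x => ((C x : ℤ) : ℚ)) = _ at h1
  rw [LL_cast C] at h1
  have e4 : (P : ℚ) * GG q m' J (fun n => (Int.castAddHom ℚ) (C n)) ((m' / 4 : ℕ) : ZMod m') =
      (((P * SJ J C (m' / 4) : ℤ)) : ℚ) := by
    by_cases h : 4 ∣ m'
    · have hql : ¬ q ∣ m' / 4 := fun h' => H.hqm' (h'.trans (Nat.div_dvd_of_dvd h))
      rw [HJ.GG_nat (hC.map (Int.castAddHom ℚ)) hql]
      change (P : ℚ) * SJ J (fun x => ((C x : ℤ) : ℚ)) (m' / 4) = _
      rw [SJ_cast]; push_cast; ring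
    · rw [hP h]; simp
  have e3 : (R : ℚ) * GG q m' J (fun n => (Int.castAddHom ℚ) (C n)) ((m' / 3 : ℕ) : ZMod m') =
      (((R * SJ J C (m' / 3) : ℤ)) : ℚ) := by
    by_cases h : 3 ∣ m'
    · have hql : ¬ q ∣ m' / 3 := fun h' => H.hqm' (h'.trans (Nat.div_dvd_of_dvd h))
      rw [HJ.GG_nat (hC.map (Int.castAddHom ℚ)) hql]
      change (R : ℚ) * SJ J (fun x => ((C x : ℤ) : ℚ)) (m' / 3) = _
      rw [SJ_cast]; push_cast; ring
    · rw [hR h]; simp
  rw [e4, e3, h42, h32] at h1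
  have h5 : ((q : ℚ) - 1) * (((LL m A C : ℤ) : ℚ) -
      ((n4 * SJ J C (m' / 4) + n3 * SJ J C (m' / 3) : ℤ) : ℚ)) = 0 := by
    push_cast at h1 ⊢
    linarith
  rcases mul_eq_zero.mp h5 with h6 | h6
  · linarith
  · have h7 : ((LL m A C : ℤ) : ℚ) =
        ((n4 * SJ J C (m' / 4) + n3 * SJ J C (m' / 3) : ℤ) : ℚ) := by linarith
    exact_mod_cast h7

end Ctx4

end Pool.Agent.J4.H26.Ew
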