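import Pool.Agent.J4.H26.Ew.Cmp4
import Pool.Agent.J4.H26.Ev.Main3

/-!
Hodge characters of even degree.
-/

set_option autoImplicit false
set_option linter.unusedSectionVars false

namespace Pool.Agent.J4.H26.Ew

open Finset Pool.Agent.Y2 Pool.Agent.J4.H26.Od Pool.Agent.J4.H26.Ev
open Pool.Agent.H916R2 hiding LL

/-- **The vanishing of the sums**, even degrees. -/
theorem even_zero {K d0 : ℕ} (hK : 5 ≤ K) (h2 : 2 ∣ d0) (hg : Cv.GoodDegree2 d0) : ∀ e0 : ℕ,
    d0 * e0 ≠ 0 → (∀ q, q.Prime → q ∣ e0 → K + 2 ≤ q) →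
    (5 ∣ d0 → ∀ q, q.Prime → q ∣ e0 → 2 * K + 2 ≤ q) →
    (4 ∣ d0 → ∀ q, q.Prime → q ∣ e0 → q ≤ 2 * K + 1 → q ∈ ({11, 13} : Finset ℕ)) →
    (3 ∣ d0 → ∀ q, q.Prime → q ∣ e0 → q ≤ 4 * K + 1 → q ∈ ({5, 7, 11, 13, 17, 19} : Finset ℕ)) →
    ∀ A : Multiset ℕ, Multiset.card A ≤ K →
    (∀ t, Nat.Coprime t (d0 * e0) → SW (d0 * e0) A t = 0) →
    ∀ (Q : Type) [AddCommGroup Q] (C : ZMod (d0 * e0) → Q), OddDist C → Cv.KillsC (d0 * e0) C →
      (A.map fun a : ℕ => C ((a : ℕ) : ZMod (d0 * e0))).sum = 0 := by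
  intro e0
  induction e0 using Nat.strong_induction_on with
  | _ e0 ih =>
  intro hm hbig hfive hfour hthree A hcard hrel Q _ C hC hKC
  by_cases he1 : e0 = 1
  · subst he1
    have h1 := hKC 1 (d0 * 1) (one_mul _) (by omega) (by rwa [mul_one]) A hrel
    simpa only [one_mul] using h1
  obtain ⟨q, hq, e1, he1'⟩ := Nat.exists_prime_and_dvd he1
  have hqe : q ∣ e0 := ⟨e1, he1'⟩
  have hqK := hbig q hq hqe
  obtain ⟨m, hmdef⟩ : ∃ m, m = d0 * e0 := ⟨_, rfl⟩
  obtain ⟨d, hddef⟩ : ∃ d, d = d0 * e1 := ⟨_, rfl⟩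
  have hqd : q * d = m := by rw [hmdef, hddef, he1']; ring
  rw [← hmdef] at hm hrel
  have hN : NeZero m := ⟨hm⟩
  have hqm : q ∣ m := Dvd.intro d hqd
  have hd0 : d ≠ 0 := by rintro rfl; rw [mul_zero] at hqd; exact hm hqd.symm
  have he10 : e1 ≠ 0 := by rintro rfl; rw [mul_zero] at hddef; exact hd0 hddef
  have hlt : e1 < e0 := by
    rw [he1']
    have : 0 < e1 := Nat.pos_of_ne_zero he10
    nlinarith
  have hNd : NeZero d := ⟨hd0⟩
  have H := mkSet2 hq hqd hm A hrel
  have hc1 := card_split q A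
  have h2d : 2 ∣ d := by rw [hddef]; exact h2.mul_right e1
  have hsmall : ∀ p, p.Prime → p ≤ 6 → ¬ p ∣ e1 := by
    intro p hp hp6 h
    have := hbig p hp (h.trans (by rw [he1']; exact Dvd.intro_left _ rfl))
    omega
  have h3d : 3 ∣ d → 3 ∣ d0 := by
    intro h
    rw [hddef] at h
    rcases (Nat.Prime.dvd_mul Nat.prime_three).mp h with h | h
    · exact h
    · exact absurd h (hsmall 3 Nat.prime_three (by norm_num))
  have h5d : 5 ∣ d → 5 ∣ d0 := by
    intro h
    rw [hddef] at h
    rcases (Nat.Prime.dvd_mul Nat.prime_five).mp h with h | h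
    · exact h
    · exact absurd h (hsmall 5 Nat.prime_five (by norm_num))
  have h4d : 4 ∣ d → 4 ∣ d0 := by
    intro h
    rw [hddef] at h
    have h1 : Nat.Coprime 4 e1 := by
      have : Nat.Coprime 2 e1 := (Nat.Prime.coprime_iff_not_dvd Nat.prime_two).mpr
        (hsmall 2 Nat.prime_two (by norm_num))
      exact this.pow_left 2
    exact h1.dvd_of_dvd_mul_right h
  obtain ⟨B1, B2, hB, hcB, hS⟩ := exists_cmp4 (K := K) H h2d (by omega) hqK (by omega)
    (fun h => hfive (h5d h) q hq hqe) (fun h => hfour (h4d h) q hq hqe)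
    (fun h => hthree (h3d h) q hq hqe)
  have hfac := factor_pos hq hqm hm (by omega)
  subst hmdef
  have e1' : ((A.filter fun a => ¬ q ∣ a).map
      fun a : ℕ => C ((a : ℕ) : ZMod (d0 * e0))).sum =
      (B1.map fun b : ℕ => C ((b : ℕ) : ZMod (d0 * e0))).sum :=
    hS.all hq hqm hm hfac H.hA hB.set.hA Q _ hC
  -- the relations of the other part
  have hlow : ∀ t, Nat.Coprime t d →
      SW d ((A.filter fun a => q ∣ a).map fun a => a / q) t = SW d B2 t := by
    intro t ht
    obtain ⟨t', ht', htt⟩ := lift_coprime (Dvd.intro_left q hqd) hm ht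
    have h1 := H.hrel t' ht'
    have h2 := hB.set.hrel t' ht'
    rw [hS.SW hq hqm hm hfac H.hA hB.set.hA ht'] at h1
    rw [← SW_congr _ htt, ← SW_congr _ htt]
    have hq0 : (q : ℤ) ≠ 0 := by exact_mod_cast hq.ne_zero
    apply mul_left_cancel₀ hq0
    linarith
  have hKd : Cv.KillsC d (fun b : ZMod d => C (iota q b)) := hKC.comp hqd
  have hCd : OddDist (fun b : ZMod d => C (iota q b)) := hC.comp_iota hqd
  subst hddef
  have hup : ∀ p, p ∣ e1 → p ∣ e0 := fun p hpe => by rw [he1']; exact hpe.mul_left q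
  have h5 := ih e1 hlt hd0 (fun p hp hpe => hbig p hp (hup p hpe))
    (fun h p hp hpe => hfive h p hp (hup p hpe))
    (fun h p hp hpe => hfour h p hp (hup p hpe))
    (fun h p hp hpe => hthree h p hp (hup p hpe))
    (((A.filter fun a => q ∣ a).map fun a => a / q) + B2.map fun b => (d0 * e1 - 1) * b)
    (by
      have h1 : Multiset.card (B2.map fun b => (d0 * e1 - 1) * b) = Multiset.card B2 :=
        Multiset.card_map _ _
      rw [Multiset.card_add, h1]; omega)
    (by
      intro t ht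
      rw [SW_add, hlow t ht]
      have : SW (d0 * e1) (B2.map fun b => (d0 * e1 - 1) * b) t = - SW (d0 * e1) B2 t := by
        unfold Y2.SW
        rw [Multiset.map_map]
        apply sum_neg_map
        intro b _
        simp only [Function.comp_apply]
        rw [← saw_neg, ← neg_cast hd0]
        congr 2
        ring
      rw [this, add_neg_cancel])
    Q _ hCd hKd
  have hcq : ∀ a : ℕ, C (iota q ((a : ℕ) : ZMod (d0 * e1))) =
      C ((q * a : ℕ) : ZMod (d0 * e0)) := by
    intro a
    rw [iota_natCast hqd]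
  simp only [hcq] at h5
  rw [Multiset.map_add, Multiset.sum_add, Multiset.map_map (fun a : ℕ =>
    C ((q * a : ℕ) : ZMod (d0 * e0))) (fun b => (d0 * e1 - 1) * b)] at h5
  have e2 : (B2.map ((fun a : ℕ => C ((q * a : ℕ) : ZMod (d0 * e0))) ∘
      fun b => (d0 * e1 - 1) * b)).sum =
      - (B2.map fun b : ℕ => C ((q * b : ℕ) : ZMod (d0 * e0))).sum := by
    apply sum_neg_map
    intro b _
    simp only [Function.comp_apply]
    rw [neg_cast2 hd0 hqd, hC.neg]
  rw [e2] at h5
  rw [split_sum1 (q := q), e1']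
  have h6 := hB.kill Q C hC hKC
  have h7 : (((A.filter fun a => q ∣ a).map fun a => a / q).map
      fun b : ℕ => C ((q * b : ℕ) : ZMod (d0 * e0))).sum =
      (B2.map fun b : ℕ => C ((q * b : ℕ) : ZMod (d0 * e0))).sum := by
    rwa [← sub_eq_add_neg, sub_eq_zero] at h5
  rw [h7]
  exact h6

/-- splitting off the small primes -/
lemma split_small (N : ℕ) : ∀ m : ℕ, m ≠ 0 → ∃ d e, d * e = m ∧
    (∀ p, p.Prime → p ∣ d → p ≤ N) ∧ ∀ p, p.Prime → p ∣ e → N < p := by
  intro m
  induction m using Nat.strong_induction_on with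
  | _ m ih =>
  intro hm
  by_cases h : ∃ p, p.Prime ∧ p ∣ m ∧ p ≤ N
  · obtain ⟨p, hp, ⟨m', hm'⟩, hpN⟩ := h
    have hm'0 : m' ≠ 0 := by rintro rfl; rw [mul_zero] at hm'; exact hm hm'
    have hlt : m' < m := by
      rw [hm']
      have h1 := hp.two_le
      have h2 : 0 < m' := Nat.pos_of_ne_zero hm'0
      nlinarith
    obtain ⟨d, e, hde, h1, h2⟩ := ih m' hlt hm'0
    refine ⟨p * d, e, by rw [hm', ← hde]; ring, ?_, h2⟩
    intro r hr hrd
    rcases (Nat.Prime.dvd_mul hr).mp hrd with h3 | h3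
    · rw [(Nat.prime_dvd_prime_iff_eq hr hp).mp h3]; exact hpN
    · exact h1 r hr h3
  · push Not at h
    refine ⟨1, m, one_mul m, ?_, h⟩
    intro p hp hp1
    exact absurd (Nat.dvd_one.mp hp1) hp.one_lt.ne'

/-- the good even degrees -/
lemma good_even {d : ℕ} (h2 : 2 ∣ d) (hd : d ≠ 0)
    (ha : ∀ p q : ℕ, p.Prime → q.Prime → 3 ≤ p → p < q → p ∣ d → q ∣ d →
      p * q ∈ ({15, 21, 33, 35, 39, 51, 57} : Finset ℕ))
    (hb : 4 ∣ d → ¬ 105 ∣ d ∧ ∀ q : ℕ, q.Prime → q ∣ d → q ∈ ({2, 3, 5, 7, 11, 13} : Finset ℕ)) :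
    Cv.GoodDegree2 d := by
  by_cases h4 : 4 ∣ d
  · obtain ⟨h105, hmem⟩ := hb h4
    have hmem' : ∀ q : ℕ, q.Prime → q ∣ d → q = 2 ∨ q = 3 ∨ q = 5 ∨ q = 7 ∨ q = 11 ∨ q = 13 := by
      intro q hq hqd
      have := hmem q hq hqd
      simp only [mem_insert, mem_singleton] at this
      exact this
    have hp7 : Nat.Prime 7 := by norm_num
    have hp11 : Nat.Prime 11 := by norm_num
    have hp13 : Nat.Prime 13 := by norm_num
    by_cases h13 : 13 ∣ d
    · refine Or.inr (Or.inr (Or.inr (Or.inr (Or.inl fun p hp hpd => ?_))))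
      rcases hmem' p hp hpd with h | h | h | h | h | h
      · exact Or.inl h
      · exact Or.inr (Or.inl h)
      · subst h; exact absurd (ha 5 13 hp hp13 (by norm_num) (by norm_num) hpd h13) (by decide)
      · subst h; exact absurd (ha 7 13 hp hp13 (by norm_num) (by norm_num) hpd h13) (by decide)
      · subst h; exact absurd (ha 11 13 hp hp13 (by norm_num) (by norm_num) hpd h13) (by decide)
      · exact Or.inr (Or.inr h)
    by_cases h11 : 11 ∣ d
    · refine Or.inr (Or.inr (Or.inr (Or.inl fun p hp hpd => ?_)))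
      rcases hmem' p hp hpd with h | h | h | h | h | h
      · exact Or.inl h
      · exact Or.inr (Or.inl h)
      · subst h; exact absurd (ha 5 11 hp hp11 (by norm_num) (by norm_num) hpd h11) (by decide)
      · subst h; exact absurd (ha 7 11 hp hp11 (by norm_num) (by norm_num) hpd h11) (by decide)
      · exact Or.inr (Or.inr h)
      · subst h; exact absurd hpd h13
    by_cases h7 : 7 ∣ d
    · by_cases h3 : 3 ∣ d
      · have h5 : ¬ 5 ∣ d := by
          intro h5
          apply h105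
          have h15 : 3 * 5 ∣ d := Nat.Coprime.mul_dvd_of_dvd_of_dvd (by norm_num) h3 h5
          have : 3 * 5 * 7 ∣ d := Nat.Coprime.mul_dvd_of_dvd_of_dvd (by norm_num) h15 h7
          simpa using this
        refine Or.inr (Or.inl fun p hp hpd => ?_)
        rcases hmem' p hp hpd with h | h | h | h | h | h
        · exact Or.inl h
        · exact Or.inr (Or.inl h)
        · subst h; exact absurd hpd h5
        · exact Or.inr (Or.inr h)
        · subst h; exact absurd hpd h11
        · subst h; exact absurd hpd h13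
      · refine Or.inr (Or.inr (Or.inl fun p hp hpd => ?_))
        rcases hmem' p hp hpd with h | h | h | h | h | h
        · exact Or.inl h
        · subst h; exact absurd hpd h3
        · exact Or.inr (Or.inl h)
        · exact Or.inr (Or.inr h)
        · subst h; exact absurd hpd h11
        · subst h; exact absurd hpd h13
    · left
      intro p hp hpd
      rcases hmem' p hp hpd with h | h | h | h | h | h
      · exact Or.inl h
      · exact Or.inr (Or.inl h)
      · exact Or.inr (Or.inr h)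
      · subst h; exact absurd hpd h7
      · subst h; exact absurd hpd h11
      · subst h; exact absurd hpd h13
  · obtain ⟨n, hn⟩ := h2
    have hodd : n % 2 = 1 := by omega
    rw [hn]
    have hnd : ∀ x, x ∣ n → x ∣ d := fun x hx => by rw [hn]; exact hx.mul_left 2
    refine good_of (K := n) hodd ?_ ?_
    · intro p q hp hq hpq hdv _
      have hpn : p ∣ n := (Dvd.intro _ rfl).trans hdv
      have hqn : q ∣ n := (Dvd.intro_left _ rfl).trans hdv
      have hp3 : 3 ≤ p := by
        have h1 : p ≠ 2 := by rintro rfl; omega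
        have := hp.two_le
        omega
      exact ha p q hp hq hp3 hpq (hnd p hpn) (hnd q hqn)
    · intro q hq hqn
      have := Nat.le_of_dvd (by omega) hqn
      omega

/-- the condition on the even degrees -/
def CondE (K m : ℕ) : Prop :=
  (∀ p q : ℕ, p.Prime → q.Prime → 3 ≤ p → p < q → p * q ∣ m →
    (q ≤ K + 1 ∨ p = 5 ∧ q ≤ 2 * K + 1 ∨ p = 3 ∧ q ≤ 4 * K + 1) →
    p * q ∈ ({15, 21, 33, 35, 39, 51, 57} : Finset ℕ)) ∧
  (4 ∣ m → ¬ 105 ∣ m ∧ ∀ q : ℕ, q.Prime → q ∣ m → q ≤ 2 * K + 1 →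
    q ∈ ({2, 3, 5, 7, 11, 13} : Finset ℕ))

/-- **Even degrees.** -/
theorem main {K m : ℕ} (hK : 6 ≤ K) (h2 : 2 ∣ m) (hm : m ≠ 0) (hC : CondE K m)
    (s : Multiset (ZMod m)) (hs : IsHodge m s) (hcard : Multiset.card s ≤ K)
    (hne : s ≠ 0) : Generated m (Cv.SurfaceOrCurveProduct m) s := by
  obtain ⟨d, e, hde, hd1, he1⟩ := split_small (K + 1) m hm
  obtain ⟨hCa, hCb⟩ := hC
  have hdm : d ∣ m := Dvd.intro _ hde
  have hem : e ∣ m := Dvd.intro_left _ hde
  have hd0 : d ≠ 0 := by rintro rfl; rw [zero_mul] at hde; exact hm hde.symm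
  have h2e : ¬ 2 ∣ e := fun h => by have := he1 2 Nat.prime_two h; omega
  have h2d : 2 ∣ d := by
    rw [← hde] at h2
    rcases (Nat.Prime.dvd_mul Nat.prime_two).mp h2 with h | h
    · exact h
    · exact absurd h h2e
  have hg : Cv.GoodDegree2 d := by
    apply good_even h2d hd0
    · intro p q hp hq hp3 hpq hpd hqd
      refine hCa p q hp hq hp3 hpq ?_ (Or.inl (hd1 q hq hqd))
      exact Nat.Coprime.mul_dvd_of_dvd_of_dvd ((Nat.coprime_primes hp hq).mpr hpq.ne)
        (hpd.trans hdm) (hqd.trans hdm)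
    · intro h4
      obtain ⟨h1, h3⟩ := hCb (h4.trans hdm)
      exact ⟨fun h => h1 (h.trans hdm), fun q hq hqd => h3 q hq (hqd.trans hdm)
        (by have := hd1 q hq hqd; omega)⟩
  have hpair : ∀ p q : ℕ, p.Prime → q.Prime → p < q → p ∣ d → q ∣ e → p * q ∣ m :=
    fun p q hp hq hpq hpd hqe => Nat.Coprime.mul_dvd_of_dvd_of_dvd
      ((Nat.coprime_primes hp hq).mpr hpq.ne) (hpd.trans hdm) (hqe.trans hem)
  subst hde
  have hN : NeZero (d * e) := ⟨hm⟩
  have key : ((s.map ZMod.val).map fun a : ℕ =>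
      cQ (d * e) (Cv.SurfaceOrCurveProduct (d * e)) ((a : ℕ) : ZMod (d * e))).sum = 0 := by
    refine even_zero (K := K) (by omega) h2d hg e hm (fun q hq hqe => he1 q hq hqe) ?_ ?_ ?_
      (s.map ZMod.val) (by rwa [Multiset.card_map])
      (fun t ht => saw_rel s hs t ht) _ _ cQ_oddDist (Cv.killsC_cQ hm)
    · intro h5 q hq hqe
      have h6 := he1 q hq hqe
      by_contra hlt
      have h7 := hCa 5 q Nat.prime_five hq (by norm_num) (by omega)
        (hpair 5 q Nat.prime_five hq (by omega) h5 hqe) (Or.inr (Or.inl ⟨rfl, by omega⟩))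
      simp only [mem_insert, mem_singleton] at h7
      omega
    · intro h4 q hq hqe hq2
      have h6 := he1 q hq hqe
      have h7 := (hCb (h4.trans hdm)).2 q hq (hqe.trans hem) hq2
      simp only [mem_insert, mem_singleton] at h7 ⊢
      omega
    · intro h3 q hq hqe hq2
      have h6 := he1 q hq hqe
      have h7 := hCa 3 q Nat.prime_three hq (by norm_num) (by omega)
        (hpair 3 q Nat.prime_three hq (by omega) h3 hqe) (Or.inr (Or.inr ⟨rfl, hq2⟩))
      simp only [mem_insert, mem_singleton] at h7 ⊢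
      omega
  rw [Multiset.map_map] at key
  have h2' : (s.map (cQ (d * e) (Cv.SurfaceOrCurveProduct (d * e)))).sum = 0 := by
    rw [← key]
    congr 1
    apply Multiset.map_congr rfl
    intro a _
    simp only [Function.comp_apply]
    rw [ZMod.natCast_zmod_val]
  rw [cQ_sum, QuotientAddGroup.eq_zero_iff] at h2'
  exact generated_of_mem_LL Cv.base_good Cv.base_neg hs.1 hs.2.1 hne h2'

/-- at most eight entries -/
lemma condE_eight {m : ℕ} (h2 : 2 ∣ m)
    (h : ∀ n ∈ ({68, 110, 130, 138, 170, 174, 186, 420} : Finset ℕ), ¬ n ∣ m) : CondE 8 m := by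
  have h68 := h 68 (by decide)
  have h110 := h 110 (by decide)
  have h130 := h 130 (by decide)
  have h138 := h 138 (by decide)
  have h170 := h 170 (by decide)
  have h174 := h 174 (by decide)
  have h186 := h 186 (by decide)
  have h420 := h 420 (by decide)
  clear h
  refine ⟨?_, ?_⟩
  · intro p q hp hq hp3 hpq hdv hc
    have hq33 : q ≤ 33 := by omega
    have hp8 : p ≤ 8 := by omega
    interval_cases p <;> interval_cases q <;>
      first
      | (exfalso; revert hp; norm_num; done)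
      | (exfalso; revert hq; norm_num; done)
      | (exfalso; omega)
      | decide
  · intro h4
    refine ⟨fun h => by omega, ?_⟩
    intro q hq hqm hq17
    have hq17' : q ≤ 17 := by omega
    interval_cases q <;>
      first
      | (exfalso; revert hq; norm_num; done)
      | decide
      | (exfalso; omega)

end Pool.Agent.J4.H26.Ew
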