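import Pool.Agent.J4.H26.Ew.Ex4

/-!
The top part of the functional vanishes on good boxes.
-/

set_option autoImplicit false
set_option linter.unusedSectionVars false

namespace Pool.Agent.J4.H26.Ew

open Finset Pool.Agent.Y2 Pool.Agent.J4.H26.Od Pool.Agent.J4.H26.Ev
open Pool.Agent.H916R2 hiding LL

/-- the top part of the functional -/
def Psi (q m : ℕ) (A : Multiset ℕ) (D : ℕ → ℕ → ℤ) (k0 M0 : ℕ) (α β : ℕ → ℕ) : ℚ :=
  ∑ b ∈ (BN q m).filter (fun b => Nat.gcd b m = k0),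
    bxx q M0 α β (b / k0) * ((LL m A (D b) : ℤ) : ℚ)

lemma bxx_int (q M : ℕ) (α β : ℕ → ℕ) (x : ℕ) : ∃ z : ℤ, bxx q M α β x = z := by
  have h1 : ∀ (a b x l : ℕ), ∃ z : ℤ, fd M l a b x = z := by
    intro a b x l
    unfold fd
    split_ifs
    · exact ⟨0, by simp⟩
    · exact ⟨1, by simp⟩
    · exact ⟨-1, by simp⟩
    · exact ⟨0, by simp⟩
  choose z hz using h1
  refine ⟨(if x ≡ α q [MOD q ^ M.factorization q] then 1 else 0) *
    ∏ l ∈ PO q M, z (α l) (β l) x l, ?_⟩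
  unfold bxx
  push_cast
  congr 1
  exact prod_congr rfl fun l _ => hz _ _ _ _

lemma Psi_int (q m : ℕ) (A : Multiset ℕ) (D : ℕ → ℕ → ℤ) (k0 M0 : ℕ) (α β : ℕ → ℕ) :
    ∃ z : ℤ, Psi q m A D k0 M0 α β = z := by
  choose z hz using fun x => bxx_int q M0 α β x
  refine ⟨∑ b ∈ (BN q m).filter (fun b => Nat.gcd b m = k0), z (b / k0) * LL m A (D b), ?_⟩
  unfold Psi
  push_cast
  exact sum_congr rfl fun b _ => by rw [hz]

lemma Psi_split {q m : ℕ} {A : Multiset ℕ} {D : ℕ → ℕ → ℤ} {k0 M0 : ℕ} (α β : ℕ → ℕ) {l0 : ℕ}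
    (hl0 : l0 ∈ PO q M0) (v : ℕ) : Psi q m A D k0 M0 α β =
      Psi q m A D k0 M0 α (Function.update β l0 v) +
      Psi q m A D k0 M0 (Function.update α l0 v) β := by
  unfold Psi
  rw [← sum_add_distrib]
  refine sum_congr rfl fun b _ => ?_
  rw [bxx_split α β hl0 v]
  ring

namespace Ctx4

variable {q k m' m : ℕ} {A : Multiset ℕ} (H : Ctx4 q k m' m A)

include H

lemma psi_zero {D : ℕ → ℕ → ℤ} (hD : ∀ b, TD q m (PO q m) (D b) ∧
    ∀ x, IsB q m x → D b x = if x % m = b then 1 else 0) {k0 M0 : ℕ} {α β : ℕ → ℕ}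
    (hk0 : k0 * M0 = m) (hqk0 : ¬ q ∣ k0)
    (hmin : ∀ b ∈ BN q m, LL m A (D b) ≠ 0 → Nat.gcd b m ∣ k0 → Nat.gcd b m = k0)
    (HA : Adx q M0 α β) {J : Finset ℕ} (hJ : MJ q k m' m J) (HG : GB m q M0 α β J) :
    Psi q m A D k0 M0 α β = 0 := by
  have hm := H.hm
  have hk00 : k0 ≠ 0 := by rintro rfl; rw [zero_mul] at hk0; exact hm hk0.symm
  have hk0m : k0 ∣ m := Dvd.intro _ hk0
  have hq2 : q ≠ 2 := by have := H.q7; omega
  have hI : ∀ κ ∈ J.val, Nat.Coprime κ k0 := fun κ hκ =>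
    Nat.Coprime.coprime_dvd_right hk0m (hJ.cop κ hκ)
  have hI' : ∀ κ ∈ J.val.map (fun κ => (m - 1) * κ), Nat.Coprime κ k0 := by
    intro κ hκ
    obtain ⟨κ', hκ', rfl⟩ := Multiset.mem_map.mp hκ
    exact Nat.Coprime.coprime_dvd_right hk0m (Nat.Coprime.mul_left H.m1c (hJ.cop κ' hκ'))
  obtain ⟨C, hC, hCk, hCs, hCb⟩ := exists_up4 H.hq hq2 k0 M0 hk00 HA.hM HA.hqM hqk0
    (bxx q M0 α β) (bxx_td HA H.hq) 1 (fun x hx => bxx_gcd HA H.hq hx) J.val
    (J.val.map fun κ => (m - 1) * κ) hI hI' HG.h1 HG.h2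
  rw [hk0] at hC hCs
  have hlt := H.LL_lt hJ.card (fun κ hκ => ⟨hJ.cop κ hκ, hJ.one κ hκ⟩) hC hCb
  have hval : LL m A C = Psi q m A D k0 M0 α β := by
    rw [H.LL_expand hD hC]
    unfold Psi
    rw [← Finset.sum_filter_add_sum_filter_not (BN q m) (fun b => Nat.gcd b m = k0)]
    have h0 : ∑ b ∈ (BN q m).filter (fun b => ¬ Nat.gcd b m = k0),
        C b * ((LL m A (D b) : ℤ) : ℚ) = 0 := by
      apply sum_eq_zero
      intro b hb
      obtain ⟨hbB, hne⟩ := mem_filter.mp hb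
      by_cases hn : LL m A (D b) = 0
      · rw [hn, Int.cast_zero, mul_zero]
      by_cases hc : C b = 0
      · rw [hc, zero_mul]
      exfalso
      have h1 := hCs b hc
      rw [mul_one] at h1
      exact hne (hmin b hbB hn h1)
    rw [h0, add_zero]
    refine sum_congr rfl fun b hb => ?_
    obtain ⟨hbB, hg⟩ := mem_filter.mp hb
    congr 1
    have h1 : k0 ∣ b := hg ▸ Nat.gcd_dvd_left b m
    rw [← hCk, Nat.mul_div_cancel' h1]
  rw [hval] at hlt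
  obtain ⟨z, hz⟩ := Psi_int q m A D k0 M0 α β
  rw [hz] at hlt ⊢
  have h1 : |z| < 1 := by exact_mod_cast hlt
  have h2 : z = 0 := Int.abs_lt_one_iff.mp h1
  rw [h2]; simp

/-- the value at a box with a single vertex in the support -/
lemma psi_single {D : ℕ → ℕ → ℤ} {k0 M0 y : ℕ} {e : ℕ → ℕ} (hk0 : k0 * M0 = m)
    (hb : k0 * y ∈ BN q m) (hcop : Nat.Coprime y M0)
    (hne : ∀ l ∈ PO q M0, ¬ e l ≡ y [MOD l ^ M0.factorization l])
    (hexc : ∀ l ∈ PO q M0, ∀ y', TT l m (k0 * y') → ¬ y' ≡ e l [MOD l ^ M0.factorization l]) :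
    Psi q m A D k0 M0 (fun _ => y) e = ((LL m A (D (k0 * y)) : ℤ) : ℚ) := by
  have hm := H.hm
  have hM0 : M0 ≠ 0 := by rintro rfl; rw [mul_zero] at hk0; exact hm hk0.symm
  have hk00 : k0 ≠ 0 := by rintro rfl; rw [zero_mul] at hk0; exact hm hk0.symm
  have hgcd : Nat.gcd (k0 * y) m = k0 := by
    rw [← hk0, Nat.gcd_mul_left, hcop, mul_one]
  have hPOm : ∀ l ∈ PO q M0, l ∈ PO q m := by
    intro l hl
    obtain ⟨h1, h2, h3, _⟩ := mem_PO.mp hl
    exact mem_PO.mpr ⟨h1, h2, h3.trans (Dvd.intro_left _ hk0), hm⟩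
  unfold Psi
  rw [Finset.sum_eq_single (k0 * y)]
  · rw [Nat.mul_div_cancel_left _ (Nat.pos_of_ne_zero hk00), bxx_self (fun _ => rfl) hne, one_mul]
  · intro b hbf hbne
    obtain ⟨hbB, hg⟩ := mem_filter.mp hbf
    by_cases hbx : bxx q M0 (fun _ => y) e (b / k0) = 0
    · rw [hbx, zero_mul]
    exfalso
    obtain ⟨y', hy'⟩ : k0 ∣ b := hg ▸ Nat.gcd_dvd_left b m
    subst hy'
    rw [Nat.mul_div_cancel_left _ (Nat.pos_of_ne_zero hk00)] at hbx
    obtain ⟨h1, h2⟩ := bxx_ne hbx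
    have h5 : y' ≡ y [MOD M0] := by
      apply Ctx2.modEq_all hM0 h1
      intro l hl
      rcases h2 l hl with h3 | h3
      · exact h3
      · exact absurd h3 (hexc l hl y' ((mem_filter.mp hbB).2.2 l (hPOm l hl)))
    apply hbne
    have h6 : k0 * y' ≡ k0 * y [MOD k0 * M0] := Nat.ModEq.mul_left' k0 h5
    rw [hk0] at h6
    exact Nat.ModEq.eq_of_lt_of_lt h6 (mem_range.mp (mem_filter.mp hbB).1)
      (mem_range.mp (mem_filter.mp hb).1)
  · intro h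
    exact absurd (mem_filter.mpr ⟨hb, hgcd⟩) h

end Ctx4

end Pool.Agent.J4.H26.Ew
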