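import Pool.Agent.J4.H26.Ew.Psi4

/-!
The support of the functional.
-/

set_option autoImplicit false
set_option linter.unusedSectionVars false

namespace Pool.Agent.J4.H26.Ew

open Finset Pool.Agent.Y2 Pool.Agent.J4.H26.Od Pool.Agent.J4.H26.Ev
open Pool.Agent.H916R2 hiding LL

lemma cast_ne_zero' {l x : ℕ} (h : ¬ l ∣ x) : ((x : ℕ) : ZMod l) ≠ 0 := by
  rw [Ne, ZMod.natCast_eq_zero_iff]; exact h

namespace Ctx4

variable {q k m' m : ℕ} {A : Multiset ℕ} (H : Ctx4 q k m' m A)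

include H

/-- boxes with `k` at least two -/
lemma gb_k {k0 M0 : ℕ} {α β : ℕ → ℕ} (hk0 : k0 * M0 = m) (hqk0 : ¬ q ∣ k0)
    (HA : Adx q M0 α β) (h2M : ¬ 2 ∣ M0 ∨ 4 ∣ M0) {J : Finset ℕ} (hJ : MJ q k m' m J)
    (hk : 2 ≤ k) : GB m q M0 α β J := by
  have h1 := H.gi_le hJ hk0 hqk0 HA h2M (Or.inl hk)
  exact ⟨h1, fun _ x => H.gi2_le hJ hk0 hqk0 HA h1 (Or.inl hk) (Or.inl hk) x⟩

/-- boxes of even level -/
lemma gb_even {k0 M0 : ℕ} {α β : ℕ → ℕ} (hk0 : k0 * M0 = m) (hqk0 : ¬ q ∣ k0)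
    (HA : Adx q M0 α β) (h4 : 4 ∣ M0) {J : Finset ℕ} (hJ : MJ q k m' m J)
    (hgood : 2 ≤ k ∨ ∃ l ∈ PO q M0, ¬ l ^ M0.factorization l ∣ α l + β l) :
    GB m q M0 α β J :=
  ⟨H.gi_le hJ hk0 hqk0 HA (Or.inr h4) hgood,
    fun h2 => absurd ((by norm_num : 2 ∣ 4).trans h4) h2⟩

/-- boxes with a high prime power -/
lemma gb_pow {k0 M0 : ℕ} {α β : ℕ → ℕ} (hk0 : k0 * M0 = m) (hqk0 : ¬ q ∣ k0)
    (HA : Adx q M0 α β) (h2 : ¬ 2 ∣ M0) {J : Finset ℕ} (hJ : MJ q k m' m J) {l : ℕ}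
    (hl : l ∈ PO q M0) (hv : 2 ≤ M0.factorization l) (h9 : l ^ M0.factorization l ≠ 9) :
    GB m q M0 α β J := by
  obtain ⟨hlq, hlp, hlM, hM0⟩ := mem_PO.mp hl
  have hl2 : l ≠ 2 := by rintro rfl; exact h2 hlM
  have hc2 : Nat.Coprime l 2 := (Nat.coprime_primes hlp Nat.prime_two).mpr hl2
  have hl1 : l ∣ l ^ (M0.factorization l - 1) := dvd_pow_self l (by omega)
  have hpp : l ^ (M0.factorization l - 1) ∣ l ^ M0.factorization l :=
    pow_dvd_pow l (Nat.sub_le _ 1)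
  have hab : ∀ a, (a = α l ∨ a = β l) → a ≡ α l [MOD l ^ (M0.factorization l - 1)] := by
    rintro a (rfl | rfl)
    · exact Nat.ModEq.refl _
    · exact HA.coset l hl
  have h1 := H.gi_le hJ hk0 hqk0 HA (Or.inl h2) (Or.inr ⟨l, hl, fun h => by
    have h3 : l ∣ α l + β l := hl1.trans (hpp.trans h)
    have h4 := ((hab _ (Or.inr rfl)).of_dvd hl1).add_left (α l)
    have h5 := (h4.dvd_iff dvd_rfl).mp h3
    rw [← mul_two] at h5
    exact HA.nda l hl (hc2.dvd_of_dvd_mul_right h5)⟩)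
  refine ⟨h1, fun _ x => H.gi2_le hJ hk0 hqk0 HA h1 (Or.inr ⟨l, hl, ?_⟩)
    (Or.inr ⟨l, hl, ?_⟩) x⟩
  · intro a b ha hb h
    have h3 : 2 * α l ≡ α l [MOD l] :=
      ((((hab a ha).mul_left 2).symm.trans ((h.of_dvd hpp).trans (hab b hb)))).of_dvd hl1
    have h5 : α l + α l ≡ α l + 0 [MOD l] := by rw [← two_mul, add_zero]; exact h3
    exact HA.nda l hl ((Nat.modEq_zero_iff_dvd).mp (Nat.ModEq.add_left_cancel' _ h5))
  · intro a b ha hb h
    have h3 : l ^ (M0.factorization l - 1) ∣ 2 * a + b := hpp.trans h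
    have h4 : 2 * a + b ≡ 2 * α l + α l [MOD l ^ (M0.factorization l - 1)] :=
      ((hab a ha).mul_left 2).add (hab b hb)
    have h5 : l ^ (M0.factorization l - 1) ∣ 3 * α l := by
      have := (h4.dvd_iff dvd_rfl).mp h3
      have e : 2 * α l + α l = 3 * α l := by ring
      rwa [e] at this
    have h6 : l ^ (M0.factorization l - 1) ∣ 3 :=
      (Nat.Coprime.pow_left _ ((Nat.Prime.coprime_iff_not_dvd hlp).mpr
        (HA.nda l hl))).dvd_of_dvd_mul_right h5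
    have hl3 : l = 3 := (Nat.prime_dvd_prime_iff_eq hlp Nat.prime_three).mp (hl1.trans h6)
    subst hl3
    have h7 : M0.factorization 3 - 1 = 1 := by
      have h8 : 3 ^ (M0.factorization 3 - 1) ∣ 3 ^ 1 := by simpa using h6
      have := (Nat.pow_dvd_pow_iff_le_right (by norm_num)).mp h8
      omega
    have h8 : M0.factorization 3 = 2 := by omega
    rw [h8] at h9
    exact h9 (by norm_num)

/-- boxes without a match at one prime -/
lemma gb_gd {k0 M0 : ℕ} {α β : ℕ → ℕ} (hk0 : k0 * M0 = m) (hqk0 : ¬ q ∣ k0)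
    (HA : Adx q M0 α β) (h2 : ¬ 2 ∣ M0) {J : Finset ℕ} (hJ : MJ q k m' m J) {l : ℕ}
    (hl : l ∈ PO q M0) (hv : M0.factorization l = 1) (h5 : 5 ≤ l)
    (hg : gd (α l : ZMod l) (β l : ZMod l)) : GB m q M0 α β J := by
  obtain ⟨hlq, hlp, hlM, hM0⟩ := mem_PO.mp hl
  obtain ⟨g1, g2, g3, g4, g5⟩ := hg
  have hlv : l ^ M0.factorization l = l := by rw [hv, pow_one]
  have hl3 : ∀ c, ¬ l ∣ c → ¬ l ∣ 3 * c := by
    intro c hc h
    rcases (Nat.Prime.dvd_mul hlp).mp h with h | h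
    · have := Nat.le_of_dvd (by norm_num) h
      omega
    · exact hc h
  have h1 := H.gi_le hJ hk0 hqk0 HA (Or.inl h2) (Or.inr ⟨l, hl, fun h => by
    rw [hlv, ← ZMod.natCast_eq_zero_iff] at h
    push_cast at h
    exact g1 h⟩)
  refine ⟨h1, fun _ x => H.gi2_le hJ hk0 hqk0 HA h1 (Or.inr ⟨l, hl, ?_⟩)
    (Or.inr ⟨l, hl, ?_⟩) x⟩
  · have same : ∀ c, ¬ l ∣ c → ¬ 2 * c ≡ c [MOD l] := by
      intro c hc h
      have h5 : c + c ≡ c + 0 [MOD l] := by rw [← two_mul, add_zero]; exact h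
      exact hc ((Nat.modEq_zero_iff_dvd).mp (Nat.ModEq.add_left_cancel' _ h5))
    rw [hlv]
    rintro a b (rfl | rfl) (rfl | rfl) h
    · exact same _ (HA.nda l hl) h
    · rw [← ZMod.natCast_eq_natCast_iff] at h
      push_cast at h
      exact g2 h
    · rw [← ZMod.natCast_eq_natCast_iff] at h
      push_cast at h
      exact g3 h
    · exact same _ (HA.ndb l hl) h
  · rw [hlv]
    rintro a b (rfl | rfl) (rfl | rfl) h
    · apply hl3 _ (HA.nda l hl)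
      have e : 2 * α l + α l = 3 * α l := by ring
      rwa [e] at h
    · rw [← ZMod.natCast_eq_zero_iff] at h
      push_cast at h
      exact g4 h
    · rw [← ZMod.natCast_eq_zero_iff] at h
      push_cast at h
      exact g5 h
    · apply hl3 _ (HA.ndb l hl)
      have e : 2 * β l + β l = 3 * β l := by ring
      rwa [e] at h

/-- the vanishing, a prime at least eleven -/
lemma psi_big {D : ℕ → ℕ → ℤ} (hD : ∀ b, TD q m (PO q m) (D b) ∧
    ∀ x, IsB q m x → D b x = if x % m = b then 1 else 0) {k0 M0 : ℕ} {α β : ℕ → ℕ}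
    (hk0 : k0 * M0 = m) (hqk0 : ¬ q ∣ k0)
    (hmin : ∀ b ∈ BN q m, LL m A (D b) ≠ 0 → Nat.gcd b m ∣ k0 → Nat.gcd b m = k0)
    (HA : Adx q M0 α β) (h2 : ¬ 2 ∣ M0) {J : Finset ℕ} (hJ : MJ q k m' m J) {l : ℕ}
    (hl : l ∈ PO q M0) (hv : M0.factorization l = 1) (h11 : 11 ≤ l)
    (hne : ¬ β l ≡ α l [MOD l ^ M0.factorization l]) : Psi q m A D k0 M0 α β = 0 := by
  obtain ⟨hlq, hlp, hlM, hM0⟩ := mem_PO.mp hl
  have hN : NeZero l := ⟨hlp.ne_zero⟩
  have hab : (α l : ZMod l) ≠ (β l : ZMod l) := by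
    intro h
    rw [ZMod.natCast_eq_natCast_iff] at h
    apply hne
    rw [hv, pow_one]
    exact h.symm
  rcases path_all hlp h11 _ _ (cast_ne_zero' (HA.nda l hl)) (cast_ne_zero' (HA.ndb l hl)) hab
    with h | ⟨c, hc0, hc1, hc2⟩
  · exact H.psi_zero hD hk0 hqk0 hmin HA hJ (H.gb_gd hk0 hqk0 HA h2 hJ hl hv (by omega) h)
  · have hcv : ((c.val : ℕ) : ZMod l) = c := ZMod.natCast_zmod_val c
    have hnd : ¬ l ∣ c.val := by
      intro h
      rw [← ZMod.natCast_eq_zero_iff, hcv] at h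
      exact hc0 h
    obtain ⟨HA1, HA2⟩ := HA.upd hl hnd (by
      rw [hv, Nat.sub_self, pow_zero]; exact Nat.modEq_one)
    rw [Psi_split α β hl c.val,
      H.psi_zero hD hk0 hqk0 hmin HA1 hJ (H.gb_gd hk0 hqk0 HA1 h2 hJ hl hv (by omega) (by
        rw [Function.update_self, hcv]; exact hc1)),
      H.psi_zero hD hk0 hqk0 hmin HA2 hJ (H.gb_gd hk0 hqk0 HA2 h2 hJ hl hv (by omega) (by
        rw [Function.update_self, hcv]; exact hc2)), add_zero]

end Ctx4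

end Pool.Agent.J4.H26.Ew
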