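import Pool.Agent.J4.H26.Ew.Sup4

/-!
The support of the functional: the special levels and the theorem.
-/

set_option autoImplicit false
set_option linter.unusedSectionVars false

namespace Pool.Agent.J4.H26.Ew

open Finset Pool.Agent.Y2 Pool.Agent.J4.H26.Od Pool.Agent.J4.H26.Ev
open Pool.Agent.H916R2 hiding LL

lemma val_ne {l : ℕ} [NeZero l] {c : ZMod l} (hc : c ≠ 0) : ¬ l ∣ c.val := by
  intro h
  rw [← ZMod.natCast_eq_zero_iff, ZMod.natCast_zmod_val] at h
  exact hc h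

lemma ncast_ne {l a b : ℕ} (h : ¬ b ≡ a [MOD l]) : (a : ZMod l) ≠ (b : ZMod l) := by
  intro h1
  rw [ZMod.natCast_eq_natCast_iff] at h1
  exact h h1.symm

namespace Ctx4

variable {q m' m : ℕ} {A : Multiset ℕ} (H : Ctx4 q 1 m' m A)

include H

/-- level nine -/
lemma psi9 {D : ℕ → ℕ → ℤ} (hD : ∀ b, TD q m (PO q m) (D b) ∧
    ∀ x, IsB q m x → D b x = if x % m = b then 1 else 0) {k0 M0 : ℕ} {α β : ℕ → ℕ}
    (hk0 : k0 * M0 = m) (hqk0 : ¬ q ∣ k0)
    (hmin : ∀ b ∈ BN q m, LL m A (D b) ≠ 0 → Nat.gcd b m ∣ k0 → Nat.gcd b m = k0)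
    (HA : Adx q M0 α β) {J : Finset ℕ} (hJ : MJ q 1 m' m J)
    (hPO : PO q M0 = {3}) (hv : M0.factorization 3 = 2) : Psi q m A D k0 M0 α β = 0 := by
  have hl : 3 ∈ PO q M0 := by rw [hPO]; exact mem_singleton_self 3
  have hN : 3 ^ M0.factorization 3 = 9 := by rw [hv]; norm_num
  refine H.psi_zero hD hk0 hqk0 hmin HA hJ (H.gb_one hJ hk0 hqk0 HA.ndq hPO hN fun x => ?_)
  have h1 := HA.nda 3 hl
  have h2 := HA.coset 3 hl
  rw [hv] at h2
  norm_num at h2
  refine table9 _ _ x ?_ ?_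
  · rw [ZMod.val_natCast]
    omega
  · rw [ZMod.val_natCast, ZMod.val_natCast]
    unfold Nat.ModEq at h2
    omega

/-- level seven, one step -/
lemma psi7_one {D : ℕ → ℕ → ℤ} (hD : ∀ b, TD q m (PO q m) (D b) ∧
    ∀ x, IsB q m x → D b x = if x % m = b then 1 else 0) {k0 M0 : ℕ} {α β : ℕ → ℕ}
    (hk0 : k0 * M0 = m) (hqk0 : ¬ q ∣ k0)
    (hmin : ∀ b ∈ BN q m, LL m A (D b) ≠ 0 → Nat.gcd b m ∣ k0 → Nat.gcd b m = k0)
    (HA : Adx q M0 α β) {J : Finset ℕ} (hJ : MJ q 1 m' m J)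
    (hPO : PO q M0 = {7}) (hv : M0.factorization 7 = 1)
    (hab : (β 7 : ZMod 7) = 3 * (α 7 : ZMod 7) ∨ (β 7 : ZMod 7) = 5 * (α 7 : ZMod 7)) :
    Psi q m A D k0 M0 α β = 0 := by
  have hl : 7 ∈ PO q M0 := by rw [hPO]; exact mem_singleton_self 7
  have hN : 7 ^ M0.factorization 7 = 7 := by rw [hv]; norm_num
  exact H.psi_zero hD hk0 hqk0 hmin HA hJ (H.gb_one hJ hk0 hqk0 HA.ndq hPO hN fun x =>
    table7 _ _ x (cast_ne_zero' (HA.nda 7 hl)) hab)

/-- level seven -/
lemma psi7 {D : ℕ → ℕ → ℤ} (hD : ∀ b, TD q m (PO q m) (D b) ∧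
    ∀ x, IsB q m x → D b x = if x % m = b then 1 else 0) {k0 M0 : ℕ} {α β : ℕ → ℕ}
    (hk0 : k0 * M0 = m) (hqk0 : ¬ q ∣ k0)
    (hmin : ∀ b ∈ BN q m, LL m A (D b) ≠ 0 → Nat.gcd b m ∣ k0 → Nat.gcd b m = k0)
    (HA : Adx q M0 α β) {J : Finset ℕ} (hJ : MJ q 1 m' m J)
    (hPO : PO q M0 = {7}) (hv : M0.factorization 7 = 1)
    (hne : ¬ β 7 ≡ α 7 [MOD 7 ^ M0.factorization 7]) : Psi q m A D k0 M0 α β = 0 := by
  have hl : 7 ∈ PO q M0 := by rw [hPO]; exact mem_singleton_self 7
  rw [hv, pow_one] at hne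
  have hcos : ∀ (v : ℕ) (γ : ℕ → ℕ), v ≡ γ 7 [MOD 7 ^ (M0.factorization 7 - 1)] := by
    intro v γ
    rw [hv, Nat.sub_self, pow_zero]; exact Nat.modEq_one
  have one := fun {α β : ℕ → ℕ} (HA : Adx q M0 α β)
    (hab : (β 7 : ZMod 7) = 3 * (α 7 : ZMod 7) ∨ (β 7 : ZMod 7) = 5 * (α 7 : ZMod 7)) =>
    H.psi7_one hD hk0 hqk0 hmin HA hJ hPO hv hab
  rcases path7 _ _ (cast_ne_zero' (HA.nda 7 hl)) (cast_ne_zero' (HA.ndb 7 hl)) (ncast_ne hne)
    with h | ⟨c, hc0, hc1, hc2⟩ | ⟨c, d, hc0, hd0, hc1, hc2, hc3⟩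
  · exact one HA h
  · have hcv : ((c.val : ℕ) : ZMod 7) = c := ZMod.natCast_zmod_val c
    obtain ⟨HA1, HA2⟩ := HA.upd hl (val_ne hc0) (hcos _ _)
    rw [Psi_split α β hl c.val, one HA1 (by rw [Function.update_self, hcv]; exact hc1),
      one HA2 (by rw [Function.update_self, hcv]; exact hc2), add_zero]
  · have hcv : ((c.val : ℕ) : ZMod 7) = c := ZMod.natCast_zmod_val c
    have hdv : ((d.val : ℕ) : ZMod 7) = d := ZMod.natCast_zmod_val d
    obtain ⟨HA1, HA2⟩ := HA.upd hl (val_ne hc0) (hcos _ _)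
    obtain ⟨HA3, HA4⟩ := HA2.upd hl (val_ne hd0) (hcos _ _)
    rw [Psi_split α β hl c.val, one HA1 (by rw [Function.update_self, hcv]; exact hc1), zero_add,
      Psi_split (Function.update α 7 c.val) β hl d.val,
      one HA3 (by rw [Function.update_self, Function.update_self, hcv, hdv]; exact hc2),
      one HA4 (by rw [Function.update_self, hdv]; exact hc3), add_zero]

/-- level twenty-one -/
lemma psi21 {D : ℕ → ℕ → ℤ} (hD : ∀ b, TD q m (PO q m) (D b) ∧
    ∀ x, IsB q m x → D b x = if x % m = b then 1 else 0) {k0 M0 : ℕ} {α β : ℕ → ℕ}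
    (hk0 : k0 * M0 = m) (hqk0 : ¬ q ∣ k0)
    (hmin : ∀ b ∈ BN q m, LL m A (D b) ≠ 0 → Nat.gcd b m ∣ k0 → Nat.gcd b m = k0)
    (HA : Adx q M0 α β) {J : Finset ℕ} (hJ : MJ q 1 m' m J)
    (hPO : PO q M0 = {7, 3}) (hv : M0.factorization 7 = 1) (hv3 : M0.factorization 3 = 1) :
    Psi q m A D k0 M0 α β = 0 := by
  have hl : 7 ∈ PO q M0 := by rw [hPO]; simp
  have hl3 : 3 ∈ PO q M0 := by rw [hPO]; simp
  exact H.psi_zero hD hk0 hqk0 hmin HA hJ (H.gb_two hJ hk0 hqk0 HA.ndq (by norm_num) hPO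
    (by rw [hv]; norm_num) (by rw [hv3]; norm_num) fun x y =>
    table21 _ _ x _ _ y (cast_ne_zero' (HA.nda 7 hl)) (cast_ne_zero' (HA.ndb 7 hl))
      (cast_ne_zero' (HA.nda 3 hl3)) (cast_ne_zero' (HA.ndb 3 hl3)))

/-- level sixty-three, one step -/
lemma psi63_one {D : ℕ → ℕ → ℤ} (hD : ∀ b, TD q m (PO q m) (D b) ∧
    ∀ x, IsB q m x → D b x = if x % m = b then 1 else 0) {k0 M0 : ℕ} {α β : ℕ → ℕ}
    (hk0 : k0 * M0 = m) (hqk0 : ¬ q ∣ k0)
    (hmin : ∀ b ∈ BN q m, LL m A (D b) ≠ 0 → Nat.gcd b m ∣ k0 → Nat.gcd b m = k0)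
    (HA : Adx q M0 α β) (h2 : ¬ 2 ∣ M0) {J : Finset ℕ} (hJ : MJ q 1 m' m J)
    (hl : 7 ∈ PO q M0) (hl3 : 3 ∈ PO q M0) (hv : M0.factorization 7 = 1)
    (hv3 : M0.factorization 3 = 2)
    (hab : 2 * (α 7 : ZMod 7) + (β 7 : ZMod 7) ≠ 0 ∧ 2 * (β 7 : ZMod 7) + (α 7 : ZMod 7) ≠ 0) :
    Psi q m A D k0 M0 α β = 0 := by
  have hc3 := HA.coset 3 hl3
  rw [hv3] at hc3
  norm_num at hc3
  have ha3 := HA.nda 3 hl3
  have h1 := H.gi_le hJ hk0 hqk0 HA (Or.inl h2) (Or.inr ⟨3, hl3, fun h => by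
    rw [hv3] at h
    unfold Nat.ModEq at hc3
    omega⟩)
  refine H.psi_zero hD hk0 hqk0 hmin HA hJ ⟨h1, fun _ x => H.gi2_le hJ hk0 hqk0 HA h1
    (Or.inr ⟨3, hl3, ?_⟩) (Or.inr ⟨7, hl, ?_⟩) x⟩
  · intro a b ha hb h
    rw [hv3] at h
    norm_num at h
    have h3 : 2 * a ≡ b [MOD 3] := h.of_dvd (by norm_num)
    unfold Nat.ModEq at hc3 h3
    rcases ha with rfl | rfl <;> rcases hb with rfl | rfl <;> omega
  · rw [hv, pow_one]
    have ha7 := HA.nda 7 hl
    have hb7 := HA.ndb 7 hl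
    rintro a b (rfl | rfl) (rfl | rfl) h
    · omega
    · rw [← ZMod.natCast_eq_zero_iff] at h
      push_cast at h
      exact hab.1 h
    · rw [← ZMod.natCast_eq_zero_iff] at h
      push_cast at h
      exact hab.2 h
    · omega

/-- level sixty-three -/
lemma psi63 {D : ℕ → ℕ → ℤ} (hD : ∀ b, TD q m (PO q m) (D b) ∧
    ∀ x, IsB q m x → D b x = if x % m = b then 1 else 0) {k0 M0 : ℕ} {α β : ℕ → ℕ}
    (hk0 : k0 * M0 = m) (hqk0 : ¬ q ∣ k0)
    (hmin : ∀ b ∈ BN q m, LL m A (D b) ≠ 0 → Nat.gcd b m ∣ k0 → Nat.gcd b m = k0)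
    (HA : Adx q M0 α β) (h2 : ¬ 2 ∣ M0) {J : Finset ℕ} (hJ : MJ q 1 m' m J)
    (hl : 7 ∈ PO q M0) (hl3 : 3 ∈ PO q M0) (hv : M0.factorization 7 = 1)
    (hv3 : M0.factorization 3 = 2)
    (hne : ¬ β 7 ≡ α 7 [MOD 7 ^ M0.factorization 7]) : Psi q m A D k0 M0 α β = 0 := by
  rw [hv, pow_one] at hne
  rcases path63 _ _ (cast_ne_zero' (HA.nda 7 hl)) (cast_ne_zero' (HA.ndb 7 hl)) (ncast_ne hne)
    with h | ⟨c, hc0, hc1, hc2⟩
  · exact H.psi63_one hD hk0 hqk0 hmin HA h2 hJ hl hl3 hv hv3 h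
  · have hcv : ((c.val : ℕ) : ZMod 7) = c := ZMod.natCast_zmod_val c
    obtain ⟨HA1, HA2⟩ := HA.upd hl (val_ne hc0) (by
      rw [hv, Nat.sub_self, pow_zero]; exact Nat.modEq_one)
    rw [Psi_split α β hl c.val,
      H.psi63_one hD hk0 hqk0 hmin HA1 h2 hJ hl hl3 hv hv3
        (by rw [Function.update_self, hcv]; exact hc1),
      H.psi63_one hD hk0 hqk0 hmin HA2 h2 hJ hl hl3 hv hv3
        (by rw [Function.update_self, hcv]; exact hc2), add_zero]

end Ctx4

namespace Ctx4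

variable {q k m' m : ℕ} {A : Multiset ℕ} (H : Ctx4 q k m' m A)

include H

/-- the top level of the support, without the prime five -/
lemma top {D : ℕ → ℕ → ℤ} (hD : ∀ b, TD q m (PO q m) (D b) ∧
    ∀ x, IsB q m x → D b x = if x % m = b then 1 else 0) (h5 : ¬ 5 ∣ m') {k0 M0 y : ℕ}
    (hk0 : k0 * M0 = m) (hqk0 : ¬ q ∣ k0)
    (hmin : ∀ b ∈ BN q m, LL m A (D b) ≠ 0 → Nat.gcd b m ∣ k0 → Nat.gcd b m = k0)
    (hb : k0 * y ∈ BN q m) (hbn : LL m A (D (k0 * y)) ≠ 0) (hcop : Nat.Coprime y M0) :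
    k = 1 ∧ M0 ∣ 12 * q := by
  classical
  have hm := H.hm
  have hq := H.hq
  have hk00 : k0 ≠ 0 := by rintro rfl; rw [zero_mul] at hk0; exact hm hk0.symm
  have hM0 : M0 ≠ 0 := by rintro rfl; rw [mul_zero] at hk0; exact hm hk0.symm
  have hM0m : M0 ∣ m := Dvd.intro_left _ hk0
  have hqM0 : q ∣ M0 := by
    have h1 := H.hqdm
    rw [← hk0] at h1
    exact ((Nat.Prime.dvd_mul H.hq).mp h1).resolve_left hqk0
  have hq2 : q ≠ 2 := by have := H.q7; omega
  have hndy : ∀ l, l.Prime → l ∣ M0 → ¬ l ∣ y := by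
    intro l hlp hlM h
    have h3 : l ∣ Nat.gcd y M0 := Nat.dvd_gcd h hlM
    rw [hcop] at h3
    exact hlp.one_lt.ne' (Nat.dvd_one.mp h3)
  have hyl : ∀ l ∈ PO q M0, ¬ l ∣ y := fun l hl =>
    hndy l (mem_PO.mp hl).2.1 (mem_PO.mp hl).2.2.1
  have hex : ∀ l, ∃ z, l ∈ PO q M0 → z ≡ y [MOD l ^ (M0.factorization l - 1)] ∧ ¬ l ∣ z ∧
      (∀ y', TT l m (k0 * y') → ¬ y' ≡ z [MOD l ^ M0.factorization l]) := by
    intro l
    by_cases hl : l ∈ PO q M0
    · obtain ⟨_, hlp, hlM, _⟩ := mem_PO.mp hl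
      obtain ⟨z, hz1, hz2, hz3, _⟩ := exists_exc2 hm hk0 hlp hlM (hyl l hl)
      exact ⟨z, fun _ => ⟨hz1, hz2, hz3⟩⟩
    · exact ⟨0, fun h => absurd h hl⟩
  choose e he using hex
  have hPOm : ∀ l ∈ PO q M0, l ∈ PO q m := by
    intro l hl
    obtain ⟨h1, h2, h3, _⟩ := mem_PO.mp hl
    exact mem_PO.mpr ⟨h1, h2, h3.trans hM0m, hm⟩
  have hTT : ∀ y', k0 * y' ∈ BN q m → ∀ l ∈ PO q M0, TT l m (k0 * y') := by
    intro y' hy' l hl
    exact (mem_filter.mp hy').2.2 l (hPOm l hl)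
  have hne : ∀ l ∈ PO q M0, ¬ e l ≡ y [MOD l ^ M0.factorization l] := by
    intro l hl h
    exact (he l hl).2.2 y (hTT y hb l hl) h.symm
  have HA : Adx q M0 (fun _ => y) e :=
    ⟨hM0, hqM0, hndy q hq hqM0, fun l hl => (he l hl).1, hyl, fun l hl => (he l hl).2.1⟩
  have hsingle := H.psi_single (A := A) (D := D) hk0 hb hcop hne
    (fun l hl => (he l hl).2.2)
  have hnz : Psi q m A D k0 M0 (fun _ => y) e ≠ 0 := by
    rw [hsingle]; exact_mod_cast hbn
  obtain ⟨J, hJ⟩ := H.exists_MJ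
  have hfq := H.facq hk0 hqk0
  have hlodd : ∀ l ∈ PO q M0, l ≠ 2 → Nat.Coprime l 2 := fun l hl h =>
    (Nat.coprime_primes (mem_PO.mp hl).2.1 Nat.prime_two).mpr h
  have h2M : ¬ 2 ∣ M0 ∨ 4 ∣ M0 := by
    by_cases h2 : 2 ∣ M0
    · right
      have h2m : 2 ∈ PO q M0 := mem_PO.mpr ⟨Ne.symm hq2, Nat.prime_two, h2, hM0⟩
      by_contra h4
      have hv0 : 0 < M0.factorization 2 := Nat.prime_two.factorization_pos_of_dvd hM0 h2
      have hv : M0.factorization 2 = 1 := by
        by_contra hne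
        apply h4
        have h5 : 2 ^ 2 ∣ M0 :=
          (Nat.prime_two.pow_dvd_iff_le_factorization hM0).mpr (by omega)
        simpa using h5
      have h5 := hne 2 h2m
      rw [hv, pow_one] at h5
      apply h5
      have h6 := HA.ndb 2 h2m
      have h7 := hyl 2 h2m
      unfold Nat.ModEq
      omega
    · exact Or.inl h2
  -- the exponent of `q`
  have hk1 : k = 1 := by
    by_contra hk
    have hk2 : 2 ≤ k := by have := H.hk; omega
    exact hnz (H.psi_zero hD hk0 hqk0 hmin HA hJ (H.gb_k hk0 hqk0 HA h2M hJ hk2))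
  refine ⟨hk1, ?_⟩
  subst hk1
  -- the prime factors
  have hprime : (∀ l ∈ PO q M0, (l = 3 ∧ M0.factorization l = 1) ∨
      (l = 2 ∧ M0.factorization l = 2)) := by
    rcases h2M with h2 | h4
    · -- odd level
      have hlo : ∀ l ∈ PO q M0, l ≠ 2 := fun l hl h => h2 (h ▸ (mem_PO.mp hl).2.2.1)
      have hpw : ∀ l ∈ PO q M0, M0.factorization l = 1 ∨ l ^ M0.factorization l = 9 := by
        intro l hl
        by_contra hcon
        rw [not_or] at hcon
        have hv0 : 0 < M0.factorization l :=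
          (mem_PO.mp hl).2.1.factorization_pos_of_dvd hM0 (mem_PO.mp hl).2.2.1
        exact hnz (H.psi_zero hD hk0 hqk0 hmin HA hJ
          (H.gb_pow hk0 hqk0 HA h2 hJ hl (by omega) hcon.2))
      have hbig : ∀ l ∈ PO q M0, M0.factorization l = 1 → l < 11 := by
        intro l hl hv
        by_contra hcon
        push Not at hcon
        exact hnz (H.psi_big hD hk0 hqk0 hmin HA h2 hJ hl hv hcon (hne l hl))
      have hclass : ∀ l ∈ PO q M0, (l = 3 ∧ M0.factorization l = 1) ∨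
          (l = 3 ∧ M0.factorization l = 2) ∨ (l = 7 ∧ M0.factorization l = 1) := by
        intro l hl
        obtain ⟨hlq, hlp, hlM, _⟩ := mem_PO.mp hl
        rcases hpw l hl with hv | hv
        · have h11 := hbig l hl hv
          have hl2 := hlo l hl
          have hl5 : l ≠ 5 := by
            rintro rfl
            apply h5
            have h6 : 5 ∣ q ^ 1 * m' := by rw [H.hqm]; exact hlM.trans hM0m
            rw [pow_one] at h6
            rcases (Nat.Prime.dvd_mul hlp).mp h6 with h | h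
            · exact absurd ((Nat.prime_dvd_prime_iff_eq hlp hq).mp h) hlq
            · exact h
          have h3 : l = 3 ∨ l = 7 := by
            interval_cases l <;> first | (exfalso; revert hlp; norm_num; done) | omega
          rcases h3 with h3 | h3
          · exact Or.inl ⟨h3, hv⟩
          · exact Or.inr (Or.inr ⟨h3, hv⟩)
        · right; left
          have h3 : l ∣ 3 ^ 2 := by
            have : l ∣ l ^ M0.factorization l :=
              dvd_pow_self l (hlp.factorization_pos_of_dvd hM0 hlM).ne'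
            rw [hv] at this
            exact this
          have h4 : l = 3 := (Nat.prime_dvd_prime_iff_eq hlp Nat.prime_three).mp
            (hlp.dvd_of_dvd_pow h3)
          refine ⟨h4, ?_⟩
          rw [h4] at hv ⊢
          have h6 : (3 : ℕ) ^ M0.factorization 3 = 3 ^ 2 := by rw [hv]; norm_num
          exact Nat.pow_right_injective (by norm_num) h6
      have hsub : ∀ l ∈ PO q M0, l = 3 ∨ l = 7 := by
        intro l hl
        rcases hclass l hl with h | h | h
        · exact Or.inl h.1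
        · exact Or.inl h.1
        · exact Or.inr h.1
      have h37 : (3 : ℕ) ≠ 7 := by norm_num
      -- seven does not occur
      have h7 : 7 ∉ PO q M0 := by
        intro h7
        have hv7 : M0.factorization 7 = 1 := by
          rcases hclass 7 h7 with h | h | h
          · exact absurd h.1.symm h37
          · exact absurd h.1.symm h37
          · exact h.2
        by_cases h3 : 3 ∈ PO q M0
        · rcases hclass 3 h3 with h | h | h
          · have hPO : PO q M0 = {7, 3} := by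
              ext l
              simp only [mem_insert, mem_singleton]
              constructor
              · intro hl
                rcases hsub l hl with h | h
                · exact Or.inr h
                · exact Or.inl h
              · rintro (rfl | rfl)
                · exact h7
                · exact h3
            exact hnz (H.psi21 hD hk0 hqk0 hmin HA hJ hPO hv7 h.2)
          · exact hnz (H.psi63 hD hk0 hqk0 hmin HA h2 hJ h7 h3 hv7 h.2 (hne 7 h7))
          · exact absurd h.1 h37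
        · have hPO : PO q M0 = {7} := by
            ext l
            simp only [mem_singleton]
            constructor
            · intro hl
              rcases hsub l hl with h | h
              · exact absurd (h ▸ hl) h3
              · exact h
            · rintro rfl
              exact h7
          exact hnz (H.psi7 hD hk0 hqk0 hmin HA hJ hPO hv7 (hne 7 h7))
      intro l hl
      left
      rcases hclass l hl with h | h | h
      · exact h
      · exfalso
        have hPO : PO q M0 = {3} := by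
          ext p
          simp only [mem_singleton]
          constructor
          · intro hp
            rcases hsub p hp with h' | h'
            · exact h'
            · exact absurd (h' ▸ hp) h7
          · rintro rfl
            exact h.1 ▸ hl
        exact hnz (H.psi9 hD hk0 hqk0 hmin HA hJ hPO (h.1 ▸ h.2))
      · exact absurd (h.1 ▸ hl) h7
    · -- even level
      have hall : ∀ l ∈ PO q M0, l ^ M0.factorization l ∣ y + e l := by
        intro l hl
        by_contra hcon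
        exact hnz (H.psi_zero hD hk0 hqk0 hmin HA hJ
          (H.gb_even hk0 hqk0 HA h4 hJ (Or.inr ⟨l, hl, hcon⟩)))
      have hpow : ∀ l ∈ PO q M0, l ^ (M0.factorization l - 1) ∣ 2 := by
        intro l hl
        have hlp := (mem_PO.mp hl).2.1
        have hpp : l ^ (M0.factorization l - 1) ∣ l ^ M0.factorization l :=
          pow_dvd_pow l (Nat.sub_le _ 1)
        have h2 := (he l hl).1.add_left y
        have h3 : l ^ (M0.factorization l - 1) ∣ y + y :=
          ((h2.dvd_iff dvd_rfl).mp (hpp.trans (hall l hl)))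
        rw [← mul_two] at h3
        exact (Nat.Coprime.pow_left _ ((Nat.Prime.coprime_iff_not_dvd hlp).mpr
          (hyl l hl))).dvd_of_dvd_mul_left h3
      intro l hl
      obtain ⟨hlq, hlp, hlM, _⟩ := mem_PO.mp hl
      have hv0 : 0 < M0.factorization l := hlp.factorization_pos_of_dvd hM0 hlM
      by_cases hl2 : l = 2
      · right
        refine ⟨hl2, ?_⟩
        subst hl2
        have h6 : 2 ^ 2 ∣ M0 := by norm_num; exact h4
        have h7 := (Nat.prime_two.pow_dvd_iff_le_factorization hM0).mp h6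
        have h8 : 2 ^ (M0.factorization 2 - 1) ∣ 2 ^ 1 := by simpa using hpow 2 hl
        have h9 := (Nat.pow_dvd_pow_iff_le_right (by norm_num)).mp h8
        omega
      · left
        have hv : M0.factorization l = 1 := by
          by_contra hne1
          have h1 : l ∣ 2 := (dvd_pow_self l (by omega)).trans (hpow l hl)
          exact hl2 ((Nat.prime_dvd_prime_iff_eq hlp Nat.prime_two).mp h1)
        refine ⟨?_, hv⟩
        by_contra hl3
        have hlv : l ^ M0.factorization l = l := by rw [hv, pow_one]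
        have hc2 := hlodd l hl hl2
        have hnd : ¬ l ∣ 2 * y := fun h => hyl l hl (hc2.dvd_of_dvd_mul_left h)
        obtain ⟨HA1, HA2⟩ := HA.upd hl hnd (by
          rw [hv, Nat.sub_self, pow_zero]; exact Nat.modEq_one)
        apply hnz
        rw [Psi_split _ e hl (2 * y),
          H.psi_zero hD hk0 hqk0 hmin HA1 hJ (H.gb_even hk0 hqk0 HA1 h4 hJ
            (Or.inr ⟨l, hl, by
              rw [Function.update_self, hlv]
              intro h
              have e1 : y + 2 * y = 3 * y := by ring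
              rw [e1] at h
              rcases (Nat.Prime.dvd_mul hlp).mp h with h | h
              · exact hl3 ((Nat.prime_dvd_prime_iff_eq hlp Nat.prime_three).mp h)
              · exact hyl l hl h⟩)),
          H.psi_zero hD hk0 hqk0 hmin HA2 hJ (H.gb_even hk0 hqk0 HA2 h4 hJ
            (Or.inr ⟨l, hl, by
              rw [Function.update_self, hlv]
              intro h
              have h7 := hall l hl
              rw [hlv] at h7
              have e1 : 2 * y + e l = y + (y + e l) := by ring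
              rw [e1] at h
              exact hyl l hl ((Nat.dvd_add_left h7).mp h)⟩)), add_zero]
  -- conclusion
  rw [Nat.dvd_iff_prime_pow_dvd_dvd]
  intro p j hp hpj
  by_cases hj : j = 0
  · subst hj; simp
  have hpM : p ∣ M0 := (dvd_pow_self p hj).trans hpj
  have hj1 : j ≤ M0.factorization p := (hp.pow_dvd_iff_le_factorization hM0).mp hpj
  by_cases hpq : p = q
  · subst hpq
    rw [hfq] at hj1
    have : j = 1 := by omega
    rw [this, pow_one]
    exact Dvd.intro_left _ rfl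
  · have hmem : p ∈ PO q M0 := mem_PO.mpr ⟨hpq, hp, hpM, hM0⟩
    rcases hprime p hmem with ⟨rfl, hv⟩ | ⟨rfl, hv⟩
    · rw [hv] at hj1
      have : j = 1 := by omega
      rw [this, pow_one]
      exact (by norm_num : 3 ∣ 12).mul_right q
    · rw [hv] at hj1
      have h7 : 2 ^ j ∣ 2 ^ 2 := pow_dvd_pow 2 hj1
      exact h7.trans ((by norm_num : 2 ^ 2 ∣ 12).mul_right q)

/-- **The support**: nonzero coefficients only at levels dividing `12 * q`, and only if `k = 1`. -/
theorem supp {D : ℕ → ℕ → ℤ} (hD : ∀ b, TD q m (PO q m) (D b) ∧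
    ∀ x, IsB q m x → D b x = if x % m = b then 1 else 0) {b : ℕ} (hb : b ∈ BN q m)
    (hbn : LL m A (D b) ≠ 0) : k = 1 ∧ m ∣ Nat.gcd b m * (12 * q) := by
  classical
  by_cases h2c : 2 * Multiset.card A < nm q k
  · exact (H.to2 h2c).supp hD hb hbn
  have h5 : ¬ 5 ∣ m' := H.hfive.resolve_right h2c
  have hm := H.hm
  let S := (BN q m).filter (fun b' => LL m A (D b') ≠ 0 ∧ Nat.gcd b' m ∣ Nat.gcd b m)
  have hS : S.Nonempty := ⟨b, mem_filter.mpr ⟨hb, hbn, dvd_rfl⟩⟩
  obtain ⟨b0, hb0, hmin⟩ := exists_min_image S (fun b => Nat.gcd b m) hS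
  obtain ⟨hb0B, hb0n, hb0d⟩ := mem_filter.mp hb0
  set k0 := Nat.gcd b0 m with hk0
  have hqk : ∀ c ∈ BN q m, ¬ q ∣ Nat.gcd c m := fun c hc h =>
    (mem_filter.mp hc).2.1 (h.trans (Nat.gcd_dvd_left _ _))
  obtain ⟨M0, hM0⟩ : k0 ∣ m := Nat.gcd_dvd_right _ _
  obtain ⟨y, hy⟩ : k0 ∣ b0 := Nat.gcd_dvd_left _ _
  have hk00 : k0 ≠ 0 := by
    intro h
    rw [h, zero_mul] at hM0
    exact hm hM0
  have hcop : Nat.Coprime y M0 := by
    have h3 : Nat.gcd (k0 * y) (k0 * M0) = k0 := by rw [← hy, ← hM0]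
    rw [Nat.gcd_mul_left] at h3
    have h4 : k0 * Nat.gcd y M0 = k0 * 1 := by rw [h3, mul_one]
    exact Nat.eq_of_mul_eq_mul_left (Nat.pos_of_ne_zero hk00) h4
  obtain ⟨hk1, hdvd⟩ := H.top hD h5 hM0.symm (hqk b0 hb0B) (fun c hc hn hcd => by
    have h1 : k0 ≤ Nat.gcd c m := hmin c (mem_filter.mpr ⟨hc, hn, hcd.trans hb0d⟩)
    exact le_antisymm (Nat.le_of_dvd (Nat.pos_of_ne_zero hk00) hcd) h1)
    (by rw [← hy]; exact hb0B) (by rw [← hy]; exact hb0n) hcop
  refine ⟨hk1, ?_⟩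
  have h1 : m ∣ k0 * (12 * q) := by
    conv_lhs => rw [hM0]
    exact Nat.mul_dvd_mul_left k0 hdvd
  exact h1.trans (Nat.mul_dvd_mul_right hb0d _)

end Ctx4

end Pool.Agent.J4.H26.Ew
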