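import Pool.Agent.J4.H26.Ew.Gb4

/-!
Tables for the levels 7, 9, 21 and paths of good boxes.
-/

set_option autoImplicit false
set_option linter.unusedSectionVars false

namespace Pool.Agent.J4.H26.Ew

open Finset Pool.Agent.Y2 Pool.Agent.J4.H26.Od Pool.Agent.J4.H26.Ev
open Pool.Agent.H916R2 hiding LL

/-- the local factor -/
def fz {N : ℕ} (a b x : ZMod N) : ℤ := (if x = a then 1 else 0) - (if x = b then 1 else 0)

/-- the averaged box of one factor -/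
def g1 {N : ℕ} (a b x : ZMod N) : ℤ := fz a b x - fz a b (-x)

/-- the averaged box of two factors -/
def g2 {N N' : ℕ} (a b x : ZMod N) (c d y : ZMod N') : ℤ :=
  fz a b x * fz c d y - fz a b (-x) * fz c d (-y)

lemma table9 : ∀ a b x : ZMod 9, a.val % 3 ≠ 0 → b.val % 3 = a.val % 3 →
    |g1 a b x| ≤ 1 ∧ |g1 a b (2 * x) - g1 a b x| ≤ 1 := by decide +kernel

lemma table7 : ∀ a b x : ZMod 7, a ≠ 0 → (b = 3 * a ∨ b = 5 * a) →
    |g1 a b x| ≤ 1 ∧ |g1 a b (2 * x) - g1 a b x| ≤ 1 := by decide +kernel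

lemma table21 : ∀ a b x : ZMod 7, ∀ c d y : ZMod 3, a ≠ 0 → b ≠ 0 → c ≠ 0 → d ≠ 0 →
    |g2 a b x c d y| ≤ 1 ∧ |g2 a b (2 * x) c d (2 * y) - g2 a b x c d y| ≤ 1 := by decide +kernel

/-- no match between two residues -/
def gd {N : ℕ} (a b : ZMod N) : Prop :=
  a + b ≠ 0 ∧ 2 * a ≠ b ∧ 2 * b ≠ a ∧ 2 * a + b ≠ 0 ∧ 2 * b + a ≠ 0

instance {N : ℕ} (a b : ZMod N) : Decidable (gd a b) := by unfold gd; infer_instance

lemma path11 : ∀ a b : ZMod 11, a ≠ 0 → b ≠ 0 → a ≠ b →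
    gd a b ∨ ∃ c, c ≠ 0 ∧ gd a c ∧ gd c b := by decide +kernel

lemma path13 : ∀ a b : ZMod 13, a ≠ 0 → b ≠ 0 → a ≠ b →
    gd a b ∨ ∃ c, c ≠ 0 ∧ gd a c ∧ gd c b := by decide +kernel

lemma path_big {l : ℕ} (hl : l.Prime) (hbig : 17 ≤ l) (a b : ZMod l) :
    ∃ c, c ≠ 0 ∧ gd a c ∧ gd c b := by
  classical
  have hF : Fact l.Prime := ⟨hl⟩
  have h2 : (2 : ZMod l) ≠ 0 := by
    intro h
    have : ((2 : ℕ) : ZMod l) = 0 := by exact_mod_cast h
    rw [ZMod.natCast_eq_zero_iff] at this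
    have := Nat.le_of_dvd (by norm_num) this
    omega
  let E : Finset (ZMod l) := {0, -a, 2 * a, a * 2⁻¹, -(2 * a), -(a * 2⁻¹), -b, 2 * b, b * 2⁻¹,
    -(2 * b), -(b * 2⁻¹)}
  have hE : E.card ≤ 11 := by
    refine (card_insert_le _ _).trans ?_
    refine (Nat.succ_le_succ (card_insert_le _ _)).trans ?_
    refine (Nat.succ_le_succ (Nat.succ_le_succ (card_insert_le _ _))).trans ?_
    refine (Nat.succ_le_succ (Nat.succ_le_succ (Nat.succ_le_succ (card_insert_le _ _)))).trans ?_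
    refine (Nat.succ_le_succ (Nat.succ_le_succ (Nat.succ_le_succ (Nat.succ_le_succ
      (card_insert_le _ _))))).trans ?_
    have h6 : Finset.card ({-(a * 2⁻¹), -b, 2 * b, b * 2⁻¹, -(2 * b), -(b * 2⁻¹)} :
      Finset (ZMod l)) ≤ 6 := Finset.card_le_six
    omega
  have hlt : E.card < (univ : Finset (ZMod l)).card := by
    rw [card_univ, ZMod.card]; omega
  obtain ⟨c, _, hc⟩ := Finset.exists_mem_notMem_of_card_lt_card hlt
  simp only [E, mem_insert, mem_singleton, not_or] at hc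
  obtain ⟨c0, c1, c2, c3, c4, c5, c6, c7, c8, c9, c10⟩ := hc
  have half : ∀ x y : ZMod l, 2 * x = y → x = y * 2⁻¹ := by
    intro x y h
    rw [← h, mul_comm 2 x, mul_assoc, mul_inv_cancel₀ h2, mul_one]
  refine ⟨c, c0, ⟨?_, ?_, ?_, ?_, ?_⟩, ⟨?_, ?_, ?_, ?_, ?_⟩⟩
  · intro h; exact c1 (eq_neg_of_add_eq_zero_right h)
  · intro h; exact c2 h.symm
  · intro h; exact c3 (half _ _ h)
  · intro h; exact c4 (eq_neg_of_add_eq_zero_right h)
  · intro h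
    apply c5
    have h1 := half c (-a) (eq_neg_of_add_eq_zero_left h)
    rw [h1]; ring
  · intro h; exact c6 (eq_neg_of_add_eq_zero_left h)
  · intro h; exact c8 (half _ _ h)
  · intro h; exact c7 h.symm
  · intro h
    apply c10
    have h1 := half c (-b) (eq_neg_of_add_eq_zero_left h)
    rw [h1]; ring
  · intro h; exact c9 (eq_neg_of_add_eq_zero_right h)

/-- paths for the primes at least eleven -/
lemma path_all {l : ℕ} (hl : l.Prime) (h11 : 11 ≤ l) (a b : ZMod l) (ha : a ≠ 0) (hb : b ≠ 0)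
    (hab : a ≠ b) : gd a b ∨ ∃ c, c ≠ 0 ∧ gd a c ∧ gd c b := by
  by_cases h17 : 17 ≤ l
  · exact Or.inr (path_big hl h17 a b)
  · have h : l = 11 ∨ l = 13 := by
      have h1 : l < 17 := by omega
      interval_cases l <;> first | exact Or.inl rfl | exact Or.inr rfl | (exfalso; revert hl; norm_num)
    rcases h with rfl | rfl
    · exact path11 a b ha hb hab
    · exact path13 a b ha hb hab

lemma path63 : ∀ a b : ZMod 7, a ≠ 0 → b ≠ 0 → a ≠ b →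
    (2 * a + b ≠ 0 ∧ 2 * b + a ≠ 0) ∨ ∃ c, c ≠ 0 ∧ (2 * a + c ≠ 0 ∧ 2 * c + a ≠ 0) ∧
      (2 * c + b ≠ 0 ∧ 2 * b + c ≠ 0) := by decide +kernel

lemma path7 : ∀ a b : ZMod 7, a ≠ 0 → b ≠ 0 → a ≠ b →
    (b = 3 * a ∨ b = 5 * a) ∨ (∃ c, c ≠ 0 ∧ (c = 3 * a ∨ c = 5 * a) ∧ (b = 3 * c ∨ b = 5 * c)) ∨
    ∃ c d, c ≠ 0 ∧ d ≠ 0 ∧ (c = 3 * a ∨ c = 5 * a) ∧ (d = 3 * c ∨ d = 5 * c) ∧
      (b = 3 * d ∨ b = 5 * d) := by decide +kernel

end Pool.Agent.J4.H26.Ew
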